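import Pool.Agent.Helper28.TC.Bas

set_option autoImplicit false

namespace Pool.Agent.Helper28.TC

open Polynomial Finset

section Combine

variable {k : ℕ} {g : Fin k → ℕ} (m n : Fin k → ℕ)

/-- The coefficients of the trace on the second cohomology group in terms of the basic
quantities. -/
noncomputable def wt : Bs k → ℝ
  | none => (∑ i, (m i : ℝ)) / 2
  | some (Sum.inl i) => - ((n i : ℝ) / 4)
  | some (Sum.inr (i, j)) =>
      (((m i : ℝ) + n i) * ((m j : ℝ) + n j) - (if i = j then (m i : ℝ) else 0)) / 4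

lemma sum_Bs (f : Bs k → ℝ) : ∑ b, f b = f none + (∑ i, f (some (Sum.inl i)) +
    ∑ i, ∑ j, f (some (Sum.inr (i, j)))) := by
  rw [Fintype.sum_option, Fintype.sum_sum_type, Fintype.sum_prod_type]

lemma sum_wt (f : Bs k → ℝ) : ∑ b, wt m n b * f b =
    (∑ i, (m i : ℝ)) / 2 * f none + (- (∑ i, (n i : ℝ) / 4 * f (some (Sum.inl i))) +
    ((∑ i, ∑ j, ((m i : ℝ) + n i) * ((m j : ℝ) + n j) / 4 * f (some (Sum.inr (i, j)))) -
      ∑ i, (m i : ℝ) / 4 * f (some (Sum.inr (i, i))))) := by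
  rw [sum_Bs]
  have h1 : ∑ i, wt m n (some (Sum.inl i)) * f (some (Sum.inl i)) =
      - (∑ i, (n i : ℝ) / 4 * f (some (Sum.inl i))) := by
    rw [← Finset.sum_neg_distrib]
    refine Finset.sum_congr rfl fun i _ => ?_
    change - ((n i : ℝ) / 4) * _ = _
    ring
  have h2 : ∑ i, ∑ j, wt m n (some (Sum.inr (i, j))) * f (some (Sum.inr (i, j))) =
      (∑ i, ∑ j, ((m i : ℝ) + n i) * ((m j : ℝ) + n j) / 4 * f (some (Sum.inr (i, j)))) -
      ∑ i, (m i : ℝ) / 4 * f (some (Sum.inr (i, i))) := by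
    rw [← Finset.sum_sub_distrib]
    refine Finset.sum_congr rfl fun i _ => ?_
    have h3 : (m i : ℝ) / 4 * f (some (Sum.inr (i, i))) =
        ∑ j, (if i = j then (m i : ℝ) / 4 * f (some (Sum.inr (i, j))) else 0) := by
      rw [Finset.sum_ite_eq, if_pos (Finset.mem_univ _)]
    rw [h3, ← Finset.sum_sub_distrib]
    refine Finset.sum_congr rfl fun j _ => ?_
    change (((m i : ℝ) + n i) * ((m j : ℝ) + n j) - (if i = j then (m i : ℝ) else 0)) / 4 * _ = _
    split_ifs <;> ring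
  rw [h1, h2]
  rfl

lemma rk_wt : rk m n = ∑ b, wt m n b * rB b := by
  rw [sum_wt]
  simp_rw [rB_none, rB_inl, rB_inr]
  simp only [mul_ite, mul_zero, Finset.sum_ite_eq, Finset.mem_univ, if_true]
  unfold rk
  rw [Finset.sum_div, Finset.sum_mul, ← Finset.sum_neg_distrib, ← Finset.sum_sub_distrib,
    ← Finset.sum_add_distrib, ← Finset.sum_add_distrib]
  refine Finset.sum_congr rfl fun i _ => ?_
  ring

lemma bp_wt {p : ℕ} (hp : p ≠ 0) (a : Idx g → ℤ) :
    bp p g m n (pol a) / p = ∑ b, wt m n b * XI p a b := by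
  have hp0 : (p : ℝ) ≠ 0 := by exact_mod_cast hp
  rw [sum_wt]
  have e1 : XI p a none = 2 := rfl
  have e2 : ∀ i, XI p a (some (Sum.inl i)) = 2 * trace₂ p (g i) (pol a i) / p := fun _ => rfl
  have e3 : ∀ i j, XI p a (some (Sum.inr (i, j))) =
      2 * (trace p (g i) (pol a i) * trace p (g j) (pol a j)) / p := fun _ _ => rfl
  simp_rw [e1, e2, e3]
  unfold bp
  rw [sq, Finset.sum_mul_sum, add_div, Finset.sum_div]
  have h1 : ∑ i, ((m i : ℝ) * p + n i * ((trace p (g i) (pol a i) ^ 2 -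
      trace₂ p (g i) (pol a i)) / 2)) / p = ∑ i, (m i : ℝ) +
      (∑ i, (n i : ℝ) / 2 * (trace p (g i) (pol a i) * trace p (g i) (pol a i)) / p -
        ∑ i, (n i : ℝ) / 4 * (2 * trace₂ p (g i) (pol a i) / p)) := by
    rw [← Finset.sum_sub_distrib, ← Finset.sum_add_distrib]
    refine Finset.sum_congr rfl fun i _ => ?_
    field_simp
    ring
  have h2 : (∑ i, ∑ j, ((m i : ℝ) + n i) * trace p (g i) (pol a i) *
      (((m j : ℝ) + n j) * trace p (g j) (pol a j)) -
      ∑ i, ((m i : ℝ) + n i) * trace p (g i) (pol a i) ^ 2) / 2 / p =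
      (∑ i, ∑ j, ((m i : ℝ) + n i) * ((m j : ℝ) + n j) / 4 *
        (2 * (trace p (g i) (pol a i) * trace p (g j) (pol a j)) / p)) -
      (∑ i, (m i : ℝ) / 4 * (2 * (trace p (g i) (pol a i) * trace p (g i) (pol a i)) / p) +
        ∑ i, (n i : ℝ) / 2 * (trace p (g i) (pol a i) * trace p (g i) (pol a i)) / p) := by
    rw [← Finset.sum_add_distrib, ← Finset.sum_sub_distrib, ← Finset.sum_sub_distrib,
      Finset.sum_div, Finset.sum_div]
    refine Finset.sum_congr rfl fun i _ => ?_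
    rw [sub_div, sub_div, Finset.sum_div, Finset.sum_div]
    congr 1
    · refine Finset.sum_congr rfl fun j _ => ?_
      field_simp
      ring
    · field_simp
      ring
  rw [h1, h2]
  ring

lemma sum_abs_wt : ∑ b, |wt m n b| ≤ (∑ i, ((m i : ℝ) + n i)) ^ 2 := by
  rw [sum_Bs]
  have h0 : |wt m n none| = (∑ i, (m i : ℝ)) / 2 := by
    change |(∑ i, (m i : ℝ)) / 2| = _
    rw [abs_of_nonneg]
    exact div_nonneg (Finset.sum_nonneg fun i _ => Nat.cast_nonneg _) (by norm_num)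
  have h1 : ∑ i, |wt m n (some (Sum.inl i))| = (∑ i, (n i : ℝ)) / 4 := by
    rw [Finset.sum_div]
    refine Finset.sum_congr rfl fun i _ => ?_
    change |- ((n i : ℝ) / 4)| = _
    rw [abs_neg, abs_of_nonneg (by positivity)]
  have h2 : ∑ i, ∑ j, |wt m n (some (Sum.inr (i, j)))| ≤
      (∑ i, ((m i : ℝ) + n i)) ^ 2 / 4 := by
    rw [sq, Finset.sum_mul_sum, Finset.sum_div]
    refine Finset.sum_le_sum fun i _ => ?_
    rw [Finset.sum_div]
    refine Finset.sum_le_sum fun j _ => ?_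
    change |(((m i : ℝ) + n i) * ((m j : ℝ) + n j) - (if i = j then (m i : ℝ) else 0)) / 4| ≤ _
    have hmi : (0 : ℝ) ≤ m i := Nat.cast_nonneg _
    have hni : (0 : ℝ) ≤ n i := Nat.cast_nonneg _
    have hmj : (0 : ℝ) ≤ m j := Nat.cast_nonneg _
    have hnj : (0 : ℝ) ≤ n j := Nat.cast_nonneg _
    have h3 : (if i = j then (m i : ℝ) else 0) ≤ ((m i : ℝ) + n i) * ((m j : ℝ) + n j) := by
      split_ifs with h
      · subst h
        have h4 : (m i : ℝ) ≤ (m i : ℝ) * m i := by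
          exact_mod_cast Nat.le_mul_self (m i)
        nlinarith [mul_nonneg hmi hni, mul_nonneg hni hni]
      · positivity
    have h5 : 0 ≤ (if i = j then (m i : ℝ) else 0) := by
      split_ifs
      · exact hmi
      · exact le_rfl
    rw [abs_of_nonneg (by linarith)]
    linarith
  rw [h0, h1]
  have h6 : ∑ i, ((m i : ℝ) + n i) = ∑ i, (m i : ℝ) + ∑ i, (n i : ℝ) := Finset.sum_add_distrib
  have hm : (0 : ℝ) ≤ ∑ i, (m i : ℝ) := Finset.sum_nonneg fun i _ => Nat.cast_nonneg _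
  have hn : (0 : ℝ) ≤ ∑ i, (n i : ℝ) := Finset.sum_nonneg fun i _ => Nat.cast_nonneg _
  have h7 : ∑ i, ((m i : ℝ) + n i) ≤ (∑ i, ((m i : ℝ) + n i)) ^ 2 := by
    have h8 : ∑ i, ((m i : ℝ) + n i) = ((∑ i, (m i + n i) : ℕ) : ℝ) := by push_cast; rfl
    rw [h8]
    exact_mod_cast Nat.le_self_pow (by norm_num) _
  linarith

/-- The average of a basic quantity. -/
noncomputable def DB (T : ℕ) (a : Idx g → ℤ) (b : Bs k) : ℝ :=
  (∑ p ∈ PR T, Real.log p * tmB g b p a) / T

lemma average_wt (T : ℕ) (a : Idx g → ℤ) :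
    average T g m n (pol a) - rk m n * (Chebyshev.theta (T : ℝ) / T) =
      ∑ b, wt m n b * DB T a b := by
  classical
  have h1 : Chebyshev.theta (T : ℝ) = ∑ p ∈ PR T, Real.log p := by
    rw [Chebyshev.theta_eq_sum_Icc, Nat.floor_natCast]
    apply Finset.sum_congr _ fun _ _ => rfl
    ext p
    unfold PR
    rw [Finset.mem_filter, Finset.mem_filter, Finset.mem_Icc, Finset.mem_Icc]
    constructor
    · rintro ⟨⟨_, h⟩, hp⟩; exact ⟨⟨hp.one_le, h⟩, hp⟩
    · rintro ⟨⟨_, h⟩, hp⟩; exact ⟨⟨Nat.zero_le _, h⟩, hp⟩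
  have h2 : ∑ p ∈ (Icc 1 T).filter (fun p => p.Prime ∧ Good p g (pol a)),
      bp p g m n (pol a) * Real.log p / p =
      ∑ p ∈ PR T, if Good p g (pol a) then bp p g m n (pol a) * Real.log p / p else 0 := by
    unfold PR
    rw [← Finset.sum_filter, Finset.filter_filter]
  have h3 : (∑ p ∈ (Icc 1 T).filter (fun p => p.Prime ∧ Good p g (pol a)),
      bp p g m n (pol a) * Real.log p / p) - rk m n * ∑ p ∈ PR T, Real.log p =
      ∑ p ∈ PR T, ∑ b, wt m n b * (Real.log p * tmB g b p a) := by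
    rw [h2, Finset.mul_sum, ← Finset.sum_sub_distrib]
    refine Finset.sum_congr rfl fun p hp => ?_
    have hp0 : p ≠ 0 := by
      unfold PR at hp
      exact (Finset.mem_filter.1 hp).2.ne_zero
    by_cases h : Good p g (pol a)
    · rw [if_pos h]
      have h4 : ∀ b : Bs k, wt m n b * (Real.log p * tmB g b p a) =
          Real.log p * (wt m n b * XI p a b) - Real.log p * (wt m n b * rB b) := by
        intro b
        unfold tmB
        rw [if_pos h]
        ring
      rw [Finset.sum_congr rfl fun b _ => h4 b, Finset.sum_sub_distrib, ← Finset.mul_sum,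
        ← Finset.mul_sum, ← bp_wt m n hp0 a, ← rk_wt]
      ring
    · rw [if_neg h]
      have h4 : ∀ b : Bs k, wt m n b * (Real.log p * tmB g b p a) =
          - (Real.log p * (wt m n b * rB b)) := by
        intro b
        unfold tmB
        rw [if_neg h]
        ring
      rw [Finset.sum_congr rfl fun b _ => h4 b, Finset.sum_neg_distrib, ← Finset.mul_sum,
        ← rk_wt]
      ring
  have h4 : average T g m n (pol a) =
      (∑ p ∈ (Icc 1 T).filter (fun p => p.Prime ∧ Good p g (pol a)),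
        bp p g m n (pol a) * Real.log p / p) / T := by
    unfold average
    rfl
  rw [h4, h1, ← mul_div_assoc, ← sub_div, h3, Finset.sum_comm, Finset.sum_div]
  refine Finset.sum_congr rfl fun b _ => ?_
  unfold DB
  rw [← Finset.mul_sum, mul_div_assoc]

lemma average_le {T : ℕ} {a : Idx g → ℤ} {E : ℝ} (h : ∀ b, |DB T a b| ≤ E) :
    |average T g m n (pol a) - rk m n * (Chebyshev.theta (T : ℝ) / T)| ≤
      (∑ i, ((m i : ℝ) + n i)) ^ 2 * E := by
  rw [average_wt]
  have hE : 0 ≤ E := (abs_nonneg _).trans (h none)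
  calc |∑ b, wt m n b * DB T a b| ≤ ∑ b, |wt m n b * DB T a b| :=
        Finset.abs_sum_le_sum_abs _ _
    _ ≤ ∑ b, |wt m n b| * E := by
        refine Finset.sum_le_sum fun b _ => ?_
        rw [abs_mul]
        exact mul_le_mul_of_nonneg_left (h b) (abs_nonneg _)
    _ = (∑ b, |wt m n b|) * E := by rw [Finset.sum_mul]
    _ ≤ _ := mul_le_mul_of_nonneg_right (sum_abs_wt m n) hE

end Combine

section Final

variable {k : ℕ} {g : Fin k → ℕ}

/-- The constant. -/
noncomputable def CU (g : Fin k → ℕ) : ℝ := Fintype.card (Bs k) * CC (Idx g) (C1 g) 104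

open Classical in
/-- The main theorem. -/
theorem countU (hg : ∀ i, 1 ≤ g i) (T₀ B : ℕ) (hT₀ : 2 ≤ T₀) :
    (((box g B).filter fun a => ∃ T : ℕ, T₀ ≤ T ∧ T ^ 2 ≤ B ∧ ∃ m n : Fin k → ℕ,
      (∑ i, ((m i : ℝ) + n i)) ^ 2 * (Real.log T ^ 3 / Real.sqrt T) <
        |average T g m n (pol a) - rk m n * (Chebyshev.theta (T : ℝ) / T)|).card : ℝ) ≤
      CU g / Real.log T₀ * (box g B).card := by
  have hsub : ((box g B).filter fun a => ∃ T : ℕ, T₀ ≤ T ∧ T ^ 2 ≤ B ∧ ∃ m n : Fin k → ℕ,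
      (∑ i, ((m i : ℝ) + n i)) ^ 2 * (Real.log T ^ 3 / Real.sqrt T) <
        |average T g m n (pol a) - rk m n * (Chebyshev.theta (T : ℝ) / T)|) ⊆
      (univ : Finset (Bs k)).biUnion fun b => (bx (Idx g) B).filter fun a =>
        ∃ T : ℕ, T₀ ≤ T ∧ T ^ 2 ≤ B ∧ Real.log T ^ 3 / Real.sqrt T <
          |(∑ p ∈ PR T, Real.log p * (famB hg b).tm p a) / T| := by
    intro a ha
    obtain ⟨ha1, T, h1, h2, m, n, h3⟩ := Finset.mem_filter.1 ha
    rw [Finset.mem_biUnion]
    by_contra hcon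
    push Not at hcon
    have h4 : ∀ b, |DB T a b| ≤ Real.log T ^ 3 / Real.sqrt T := by
      intro b
      by_contra h5
      push Not at h5
      apply hcon b (Finset.mem_univ _)
      rw [Finset.mem_filter]
      exact ⟨ha1, T, h1, h2, h5⟩
    exact absurd h3 (not_lt.2 (average_le m n h4))
  have h1 : (((box g B).filter fun a => ∃ T : ℕ, T₀ ≤ T ∧ T ^ 2 ≤ B ∧ ∃ m n : Fin k → ℕ,
      (∑ i, ((m i : ℝ) + n i)) ^ 2 * (Real.log T ^ 3 / Real.sqrt T) <
        |average T g m n (pol a) - rk m n * (Chebyshev.theta (T : ℝ) / T)|).card : ℝ) ≤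
      ∑ b : Bs k, (((bx (Idx g) B).filter fun a =>
        ∃ T : ℕ, T₀ ≤ T ∧ T ^ 2 ≤ B ∧ Real.log T ^ 3 / Real.sqrt T <
          |(∑ p ∈ PR T, Real.log p * (famB hg b).tm p a) / T|).card : ℝ) := by
    exact_mod_cast (Finset.card_le_card hsub).trans Finset.card_biUnion_le
  refine h1.trans ((Finset.sum_le_sum fun b _ => count (famB hg b) T₀ B hT₀).trans ?_)
  rw [Finset.sum_const, Finset.card_univ, nsmul_eq_mul]
  unfold CU
  apply le_of_eq
  have : box g B = bx (Idx g) B := rfl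
  rw [this]
  ring

end Final

end Pool.Agent.Helper28.TC
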