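import Pool.Agent.Helper28.TC.NLink
import Pool.Agent.Helper28.TC.FinU

set_option autoImplicit false

namespace Pool.Agent.Helper28.TC.N

open Polynomial Finset
open Pool.Agent.Helper28.TC (Bs rB wt sum_wt rk rk_wt sum_abs_wt PR C1 CC bx count)

section Combine

variable {R : Type} [CommRing R] {k d : ℕ} {g : Fin k → ℕ} (m n : Fin k → ℕ)

lemma bp_wt {p : ℕ} (hp : p ≠ 0) (b : Fin d → R) (φ : R →+* ZMod p) (a : Idx g × Fin d → ℤ) :
    bp φ g m n (pol b a) / p = ∑ β, wt m n β * XI b φ a β := by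
  have hp0 : (p : ℝ) ≠ 0 := by exact_mod_cast hp
  rw [sum_wt]
  have e1 : XI b φ a none = 2 := rfl
  have e2 : ∀ i, XI b φ a (some (Sum.inl i)) = 2 * trace₂ φ (g i) (pol b a i) / p := fun _ => rfl
  have e3 : ∀ i j, XI b φ a (some (Sum.inr (i, j))) =
      2 * (trace φ (g i) (pol b a i) * trace φ (g j) (pol b a j)) / p := fun _ _ => rfl
  simp_rw [e1, e2, e3]
  unfold bp
  rw [sq, Finset.sum_mul_sum, add_div, Finset.sum_div]
  have h1 : ∑ i, ((m i : ℝ) * p + n i * ((trace φ (g i) (pol b a i) ^ 2 -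
      trace₂ φ (g i) (pol b a i)) / 2)) / p = ∑ i, (m i : ℝ) +
      (∑ i, (n i : ℝ) / 2 * (trace φ (g i) (pol b a i) * trace φ (g i) (pol b a i)) / p -
        ∑ i, (n i : ℝ) / 4 * (2 * trace₂ φ (g i) (pol b a i) / p)) := by
    rw [← Finset.sum_sub_distrib, ← Finset.sum_add_distrib]
    refine Finset.sum_congr rfl fun i _ => ?_
    field_simp
    ring
  have h2 : (∑ i, ∑ j, ((m i : ℝ) + n i) * trace φ (g i) (pol b a i) *
      (((m j : ℝ) + n j) * trace φ (g j) (pol b a j)) -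
      ∑ i, ((m i : ℝ) + n i) * trace φ (g i) (pol b a i) ^ 2) / 2 / p =
      (∑ i, ∑ j, ((m i : ℝ) + n i) * ((m j : ℝ) + n j) / 4 *
        (2 * (trace φ (g i) (pol b a i) * trace φ (g j) (pol b a j)) / p)) -
      (∑ i, (m i : ℝ) / 4 * (2 * (trace φ (g i) (pol b a i) * trace φ (g i) (pol b a i)) / p) +
        ∑ i, (n i : ℝ) / 2 * (trace φ (g i) (pol b a i) * trace φ (g i) (pol b a i)) / p) := by
    rw [← Finset.sum_add_distrib, ← Finset.sum_sub_distrib, ← Finset.sum_sub_distrib,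
      Finset.sum_div, Finset.sum_div]
    refine Finset.sum_congr rfl fun i _ => ?_
    rw [sub_div, sub_div, Finset.sum_div, Finset.sum_div]
    congr 1
    · refine Finset.sum_congr rfl fun j _ => ?_
      field_simp
      ring
    · field_simp
      ring
  rw [h1, h2]
  ring

/-- The average of a basic quantity. -/
noncomputable def DB (b : Fin d → R) (w : ∀ p : ℕ, (R →+* ZMod p) → ℝ) (T : ℕ)
    (a : Idx g × Fin d → ℤ) (β : Bs k) : ℝ :=
  (∑ p ∈ PR T, Real.log p * tt b w β p a) / T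

lemma average_wt (b : Module.Basis (Fin d) ℤ R) (w : ∀ p : ℕ, (R →+* ZMod p) → ℝ) (T : ℕ)
    (a : Idx g × Fin d → ℤ) :
    average w T g m n (pol b a) - rk m n * primeAverage w T =
      ∑ β, wt m n β * DB b w T a β := by
  classical
  unfold average primeAverage DB
  rw [← mul_div_assoc, ← sub_div, Finset.mul_sum, ← Finset.sum_sub_distrib]
  have h3 : ∑ p ∈ (Icc 1 T).filter Nat.Prime, ((∑ᶠ φ : R →+* ZMod p,
      if Good φ g (pol b a) then w p φ * (bp φ g m n (pol b a) * Real.log p / p) else 0) -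
      rk m n * ∑ᶠ φ : R →+* ZMod p, w p φ * Real.log p) =
      ∑ p ∈ PR T, ∑ β, wt m n β * (Real.log p * tt b w β p a) := by
    unfold PR
    refine Finset.sum_congr rfl fun p hp => ?_
    have hpp := (Finset.mem_filter.1 hp).2
    have : Fact p.Prime := ⟨hpp⟩
    have hfin : Finite (R →+* ZMod p) := hom_finite b
    have := Fintype.ofFinite (R →+* ZMod p)
    unfold tt
    simp_rw [finsum_eq_sum_of_fintype, Finset.mul_sum]
    rw [Finset.sum_comm, ← Finset.sum_sub_distrib]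
    refine Finset.sum_congr rfl fun φ _ => ?_
    by_cases h : Good φ g (pol b a)
    · rw [if_pos h]
      have h4 : ∀ β : Bs k, wt m n β * (Real.log p * (w p φ * t1 b β φ a)) =
          (w p φ * Real.log p) * (wt m n β * XI b φ a β) -
            (w p φ * Real.log p) * (wt m n β * rB β) := by
        intro β
        unfold t1
        rw [if_pos h]
        ring
      rw [Finset.sum_congr rfl fun β _ => h4 β, Finset.sum_sub_distrib, ← Finset.mul_sum,
        ← Finset.mul_sum, ← bp_wt m n hpp.ne_zero b φ a, ← rk_wt]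
      ring
    · rw [if_neg h]
      have h4 : ∀ β : Bs k, wt m n β * (Real.log p * (w p φ * t1 b β φ a)) =
          - ((w p φ * Real.log p) * (wt m n β * rB β)) := by
        intro β
        unfold t1
        rw [if_neg h]
        ring
      rw [Finset.sum_congr rfl fun β _ => h4 β, Finset.sum_neg_distrib, ← Finset.mul_sum,
        ← rk_wt]
      ring
  rw [h3, Finset.sum_comm, Finset.sum_div]
  refine Finset.sum_congr rfl fun β _ => ?_
  rw [← Finset.mul_sum, mul_div_assoc]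

lemma average_le (b : Module.Basis (Fin d) ℤ R) {w : ∀ p : ℕ, (R →+* ZMod p) → ℝ} {T : ℕ}
    {a : Idx g × Fin d → ℤ} {E : ℝ} (h : ∀ β, |DB b w T a β| ≤ E) :
    |average w T g m n (pol b a) - rk m n * primeAverage w T| ≤
      (∑ i, ((m i : ℝ) + n i)) ^ 2 * E := by
  rw [average_wt]
  have hE : 0 ≤ E := (abs_nonneg _).trans (h none)
  calc |∑ β, wt m n β * DB b w T a β| ≤ ∑ β, |wt m n β * DB b w T a β| :=
        Finset.abs_sum_le_sum_abs _ _
    _ ≤ ∑ β, |wt m n β| * E := by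
        refine Finset.sum_le_sum fun β _ => ?_
        rw [abs_mul]
        exact mul_le_mul_of_nonneg_left (h β) (abs_nonneg _)
    _ = (∑ β, |wt m n β|) * E := by rw [Finset.sum_mul]
    _ ≤ _ := mul_le_mul_of_nonneg_right (sum_abs_wt m n) hE

end Combine

section Final

variable {R : Type} [CommRing R] {k d : ℕ} {g : Fin k → ℕ}

/-- The constant. -/
noncomputable def CU (g : Fin k → ℕ) (d : ℕ) : ℝ :=
  Fintype.card (Bs k) * CC (Idx g × Fin d) (d * C1 g) ((d : ℝ) ^ 2 * 104)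

open Classical in
/-- The main theorem. -/
theorem main (b : Module.Basis (Fin d) ℤ R) (hg : ∀ i, 1 ≤ g i)
    {w : ∀ p : ℕ, (R →+* ZMod p) → ℝ} (hw : ∀ p φ, |w p φ| ≤ 1) (T₀ B : ℕ) (hT₀ : 2 ≤ T₀) :
    (((box g d B).filter fun a => ∃ T : ℕ, T₀ ≤ T ∧ T ^ 2 ≤ B ∧ ∃ m n : Fin k → ℕ,
      (∑ i, ((m i : ℝ) + n i)) ^ 2 * (Real.log T ^ 3 / Real.sqrt T) <
        |average w T g m n (pol b a) - rk m n * primeAverage w T|).card : ℝ) ≤
      CU g d / Real.log T₀ * (box g d B).card := by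
  have hsub : ((box g d B).filter fun a => ∃ T : ℕ, T₀ ≤ T ∧ T ^ 2 ≤ B ∧ ∃ m n : Fin k → ℕ,
      (∑ i, ((m i : ℝ) + n i)) ^ 2 * (Real.log T ^ 3 / Real.sqrt T) <
        |average w T g m n (pol b a) - rk m n * primeAverage w T|) ⊆
      (univ : Finset (Bs k)).biUnion fun β => (bx (Idx g × Fin d) B).filter fun a =>
        ∃ T : ℕ, T₀ ≤ T ∧ T ^ 2 ≤ B ∧ Real.log T ^ 3 / Real.sqrt T <
          |(∑ p ∈ PR T, Real.log p * (famN b hw hg β).tm p a) / T| := by
    intro a ha
    obtain ⟨ha1, T, h1, h2, m, n, h3⟩ := Finset.mem_filter.1 ha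
    rw [Finset.mem_biUnion]
    by_contra hcon
    push Not at hcon
    have h4 : ∀ β, |DB b w T a β| ≤ Real.log T ^ 3 / Real.sqrt T := by
      intro β
      by_contra h5
      push Not at h5
      apply hcon β (Finset.mem_univ _)
      rw [Finset.mem_filter]
      exact ⟨ha1, T, h1, h2, h5⟩
    exact absurd h3 (not_lt.2 (average_le m n b h4))
  have h1 : (((box g d B).filter fun a => ∃ T : ℕ, T₀ ≤ T ∧ T ^ 2 ≤ B ∧ ∃ m n : Fin k → ℕ,
      (∑ i, ((m i : ℝ) + n i)) ^ 2 * (Real.log T ^ 3 / Real.sqrt T) <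
        |average w T g m n (pol b a) - rk m n * primeAverage w T|).card : ℝ) ≤
      ∑ β : Bs k, (((bx (Idx g × Fin d) B).filter fun a =>
        ∃ T : ℕ, T₀ ≤ T ∧ T ^ 2 ≤ B ∧ Real.log T ^ 3 / Real.sqrt T <
          |(∑ p ∈ PR T, Real.log p * (famN b hw hg β).tm p a) / T|).card : ℝ) := by
    exact_mod_cast (Finset.card_le_card hsub).trans Finset.card_biUnion_le
  refine h1.trans ((Finset.sum_le_sum fun β _ => count (famN b hw hg β) T₀ B hT₀).trans ?_)
  rw [Finset.sum_const, Finset.card_univ, nsmul_eq_mul]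
  unfold CU
  apply le_of_eq
  have : box g d B = bx (Idx g × Fin d) B := rfl
  rw [this]
  ring

end Final

end Pool.Agent.Helper28.TC.N
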