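import Mathlib

set_option autoImplicit false

namespace Pool.Agent.Helper28.TC

open Finset

/-- The sum over an interval. -/
def IS (x : ℕ → ℝ) (b n : ℕ) : ℝ := ∑ i ∈ Ico b (b + n), x i

/-- The dominating quadratic form in the maximal inequality of Rademacher and Menshov. -/
noncomputable def RM (x : ℕ → ℝ) : ℕ → ℕ → ℝ
  | 0, b => x b ^ 2
  | k + 1, b => ((k : ℝ) + 2) * IS x b (2 ^ k) ^ 2 +
      (1 + 1 / ((k : ℝ) + 1)) * (RM x k b + RM x k (b + 2 ^ k))

lemma RM_nonneg (x : ℕ → ℝ) : ∀ k b, 0 ≤ RM x k b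
  | 0, b => sq_nonneg _
  | k + 1, b => by
      have h1 := RM_nonneg x k b
      have h2 := RM_nonneg x k (b + 2 ^ k)
      unfold RM
      positivity

lemma IS_split (x : ℕ → ℝ) (b n m : ℕ) : IS x b (n + m) = IS x b n + IS x (b + n) m := by
  unfold IS
  rw [← Finset.sum_Ico_consecutive x (Nat.le_add_right b n)
    (show b + n ≤ b + (n + m) by omega), add_assoc b n m]

lemma young (u v t : ℝ) (ht : 0 < t) : (u + v) ^ 2 ≤ (1 + t) * u ^ 2 + (1 + 1 / t) * v ^ 2 := by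
  have h : (1 + t) * u ^ 2 + (1 + 1 / t) * v ^ 2 - (u + v) ^ 2 = (t * u - v) ^ 2 / t := by
    field_simp; ring
  have h2 : 0 ≤ (t * u - v) ^ 2 / t := by positivity
  linarith

lemma IS_le_RM (x : ℕ → ℝ) : ∀ k b m, m ≤ 2 ^ k → IS x b m ^ 2 ≤ RM x k b
  | 0, b, m, hm => by
      have hm' : m = 0 ∨ m = 1 := by
        rw [pow_zero] at hm; omega
      rcases hm' with rfl | rfl
      · unfold IS RM
        simp [sq_nonneg]
      · unfold IS RM
        simp
  | k + 1, b, m, hm => by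
      have h1 := RM_nonneg x k b
      have h2 := RM_nonneg x k (b + 2 ^ k)
      have hk : (0 : ℝ) < (k : ℝ) + 1 := by positivity
      by_cases h : m ≤ 2 ^ k
      · have h3 := IS_le_RM x k b m h
        have h4 : RM x k b ≤ (1 + 1 / ((k : ℝ) + 1)) * (RM x k b + RM x k (b + 2 ^ k)) := by
          have h5 : (0 : ℝ) ≤ 1 / ((k : ℝ) + 1) := by positivity
          nlinarith [mul_nonneg h5 (add_nonneg h1 h2)]
        have h6 : 0 ≤ ((k : ℝ) + 2) * IS x b (2 ^ k) ^ 2 := by positivity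
        have h7 : RM x (k + 1) b = ((k : ℝ) + 2) * IS x b (2 ^ k) ^ 2 +
          (1 + 1 / ((k : ℝ) + 1)) * (RM x k b + RM x k (b + 2 ^ k)) := rfl
        rw [h7]
        linarith
      · push Not at h
        obtain ⟨m', rfl⟩ : ∃ m', m = 2 ^ k + m' := ⟨m - 2 ^ k, by omega⟩
        have hm' : m' ≤ 2 ^ k := by rw [pow_succ] at hm; omega
        have h3 := IS_le_RM x k (b + 2 ^ k) m' hm'
        rw [IS_split]
        refine (young _ _ ((k : ℝ) + 1) hk).trans ?_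
        have h4 : (1 + 1 / ((k : ℝ) + 1)) * IS x (b + 2 ^ k) m' ^ 2 ≤
            (1 + 1 / ((k : ℝ) + 1)) * (RM x k b + RM x k (b + 2 ^ k)) :=
          mul_le_mul_of_nonneg_left (by linarith) (by positivity)
        have h7 : RM x (k + 1) b = ((k : ℝ) + 2) * IS x b (2 ^ k) ^ 2 +
          (1 + 1 / ((k : ℝ) + 1)) * (RM x k b + RM x k (b + 2 ^ k)) := rfl
        rw [h7]
        have h8 : (1 + ((k : ℝ) + 1)) * IS x b (2 ^ k) ^ 2 =
            ((k : ℝ) + 2) * IS x b (2 ^ k) ^ 2 := by ring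
        linarith

lemma sum_RM {α : Type} (s : Finset α) (x : α → ℕ → ℝ) (g : ℕ → ℕ → ℝ)
    (hg0 : ∀ b n, 0 ≤ g b n)
    (hg : ∀ b n m, g b n + g (b + n) m ≤ g b (n + m))
    (h : ∀ b n, ∑ a ∈ s, IS (x a) b n ^ 2 ≤ g b n) :
    ∀ k b, ∑ a ∈ s, RM (x a) k b ≤ ((k : ℝ) + 1) ^ 2 * g b (2 ^ k)
  | 0, b => by
      have h1 := h b 1
      have h2 : ∀ a, IS (x a) b 1 = x a b := by intro a; unfold IS; simp
      simp_rw [h2] at h1
      simpa [RM] using h1
  | k + 1, b => by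
      have ih1 := sum_RM s x g hg0 hg h k b
      have ih2 := sum_RM s x g hg0 hg h k (b + 2 ^ k)
      have h1 := h b (2 ^ k)
      have h2 := hg b (2 ^ k) (2 ^ k)
      have h3 : 2 ^ k + 2 ^ k = 2 ^ (k + 1) := by rw [pow_succ]; ring
      rw [h3] at h2
      have h4 := hg0 (b + 2 ^ k) (2 ^ k)
      have h5 : ∑ a ∈ s, RM (x a) (k + 1) b = ((k : ℝ) + 2) * ∑ a ∈ s, IS (x a) b (2 ^ k) ^ 2 +
          (1 + 1 / ((k : ℝ) + 1)) *
            (∑ a ∈ s, RM (x a) k b + ∑ a ∈ s, RM (x a) k (b + 2 ^ k)) := by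
        rw [← Finset.sum_add_distrib, Finset.mul_sum, Finset.mul_sum, ← Finset.sum_add_distrib]
        rfl
      rw [h5]
      have hk : (0 : ℝ) < (k : ℝ) + 1 := by positivity
      have e1 : ((k : ℝ) + 2) * ∑ a ∈ s, IS (x a) b (2 ^ k) ^ 2 ≤
          ((k : ℝ) + 2) * g b (2 ^ (k + 1)) :=
        mul_le_mul_of_nonneg_left (by linarith) (by positivity)
      have e2 : (1 + 1 / ((k : ℝ) + 1)) *
            (∑ a ∈ s, RM (x a) k b + ∑ a ∈ s, RM (x a) k (b + 2 ^ k)) ≤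
          (1 + 1 / ((k : ℝ) + 1)) * (((k : ℝ) + 1) ^ 2 * g b (2 ^ (k + 1))) := by
        apply mul_le_mul_of_nonneg_left _ (by positivity)
        have : ((k : ℝ) + 1) ^ 2 * (g b (2 ^ k) + g (b + 2 ^ k) (2 ^ k)) ≤
            ((k : ℝ) + 1) ^ 2 * g b (2 ^ (k + 1)) := mul_le_mul_of_nonneg_left h2 (by positivity)
        linarith
      have e3 : (1 + 1 / ((k : ℝ) + 1)) * (((k : ℝ) + 1) ^ 2 * g b (2 ^ (k + 1))) =
          ((k : ℝ) + 2) * ((k : ℝ) + 1) * g b (2 ^ (k + 1)) := by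
        field_simp; ring
      push_cast
      rw [e3] at e2
      nlinarith

end Pool.Agent.Helper28.TC
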