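import Pool.Agent.Helper28.TC.Pair
import Pool.Agent.Helper28.TC.Maximal

set_option autoImplicit false

namespace Pool.Agent.Helper28.TC

open Finset

/-- A family of functions of integer vectors `a : J → ℤ`, one for each prime, such that the
function of the prime `p` depends only on `a` modulo `p`, has mean at most `C / √p` and second
moment at most `D` modulo `p`. -/
structure Fam (J : Type) [Fintype J] [DecidableEq J] (C D : ℝ) where
  /-- The function. -/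
  tm : ℕ → (J → ℤ) → ℝ
  /-- The function modulo `p`. -/
  ff : (p : ℕ) → (J → ZMod p) → ℝ
  hC : 0 ≤ C
  hD : 0 ≤ D
  tm_eq : ∀ (p : ℕ) [Fact p.Prime] (a : J → ℤ), tm p a = ff p fun m => ((a m : ℤ) : ZMod p)
  mean : ∀ (p : ℕ) [Fact p.Prime], |∑ u, ff p u| ≤ C * ((p : ℝ) ^ Fintype.card J / Real.sqrt p)
  second : ∀ (p : ℕ) [Fact p.Prime], ∑ u, ff p u ^ 2 ≤ D * (p : ℝ) ^ Fintype.card J

variable {J : Type} [Fintype J] [DecidableEq J] {C D : ℝ} (F : Fam J C D)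

/-- The lift of a vector modulo `M`. -/
def up {M : ℕ} (a : J → ZMod M) : J → ℤ := fun m => ((a m).val : ℤ)

section Terms

variable {p : ℕ} [Fact p.Prime]

lemma up_cast {M : ℕ} [NeZero M] (h : p ∣ M) (a : J → ZMod M) (m : J) :
    ((up a m : ℤ) : ZMod p) = ZMod.castHom h (ZMod p) (a m) := by
  unfold up
  rw [ZMod.castHom_apply]
  simp

lemma tm_up {M : ℕ} [NeZero M] (h : p ∣ M) (a : J → ZMod M) :
    F.tm p (up a) = F.ff p fun m => ZMod.castHom h (ZMod p) (a m) := by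
  rw [F.tm_eq]
  congr 1
  funext m
  exact up_cast h a m

lemma tm_up_int {M : ℕ} [NeZero M] (h : p ∣ M) (a : J → ℤ) :
    F.tm p (up fun m => ((a m : ℤ) : ZMod M)) = F.tm p a := by
  rw [tm_up F h, F.tm_eq]
  congr 1
  funext m
  rw [map_intCast]

/-- The weighted mean of a product. -/
noncomputable def SS (M H : ℕ) [NeZero M] (p q : ℕ) : ℝ :=
  ∑ a : J → ZMod M, WW H a * (F.tm p (up a) * F.tm q (up a))

lemma diag {M H : ℕ} [NeZero M] (h : p ∣ M) (hH : p * H < M) :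
    SS F M H p p ≤ D * (((H : ℝ) + 1) * M) ^ Fintype.card J := by
  have hp : (0 : ℝ) < p := by exact_mod_cast (Fact.out : p.Prime).pos
  have h0 : SS F M H p p = ∑ a : J → ZMod M, WW H a *
      (F.ff p (fun j => ZMod.castHom h (ZMod p) (a j))) ^ 2 := by
    unfold SS
    refine Finset.sum_congr rfl fun a _ => ?_
    rw [tm_up F h, ← sq]
  have h1 : SS F M H p p = (((H : ℝ) + 1) * M / p) ^ Fintype.card J *
      ∑ u : J → ZMod p, F.ff p u ^ 2 :=
    h0.trans (single_sum h hH (fun u : J → ZMod p => F.ff p u ^ 2))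
  have h2 := F.second p
  rw [h1]
  generalize (∑ u : J → ZMod p, F.ff p u ^ 2) = s at h2 ⊢
  generalize Fintype.card J = N at h2 ⊢
  calc _ ≤ (((H : ℝ) + 1) * M / p) ^ N * (D * (p : ℝ) ^ N) :=
        mul_le_mul_of_nonneg_left h2 (by positivity)
    _ = _ := by rw [div_pow]; field_simp

lemma offdiag {q : ℕ} [Fact q.Prime] (hpq : p ≠ q) {M H : ℕ} [NeZero M]
    (h : p ∣ M) (h' : q ∣ M) (hH : p * q * H < M) :
    |SS F M H p q| ≤
      (((H : ℝ) + 1) * M) ^ Fintype.card J * ((C / Real.sqrt p) * (C / Real.sqrt q)) := by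
  have hp : (0 : ℝ) < p := by exact_mod_cast (Fact.out : p.Prime).pos
  have hq : (0 : ℝ) < q := by exact_mod_cast (Fact.out : q.Prime).pos
  have hM : (0 : ℝ) < M := by exact_mod_cast Nat.pos_of_ne_zero (NeZero.ne M)
  have h0 : SS F M H p q = ∑ a : J → ZMod M, WW H a *
      (F.ff p (fun j => ZMod.castHom h (ZMod p) (a j)) *
        F.ff q (fun j => ZMod.castHom h' (ZMod q) (a j))) := by
    unfold SS
    refine Finset.sum_congr rfl fun a _ => ?_
    rw [tm_up F h, tm_up F h']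
  have h1 : SS F M H p q = (((H : ℝ) + 1) * M / ((p : ℝ) * q)) ^ Fintype.card J *
      ((∑ u : J → ZMod p, F.ff p u) * ∑ u : J → ZMod q, F.ff q u) :=
    h0.trans (pair_sum hpq h h' hH (fun u : J → ZMod p => F.ff p u)
      (fun u : J → ZMod q => F.ff q u))
  rw [h1]
  exact real_aux (by positivity) hp hq (Real.sqrt_pos.2 hp) (Real.sqrt_pos.2 hq) F.hC
    (F.mean p) (F.mean q)

end Terms

lemma swap_sums {M : ℕ} [NeZero M] (H : ℕ) (P : Finset ℕ) (c : ℕ → ℝ) :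
    ∑ a : J → ZMod M, WW H a * (∑ p ∈ P, c p * F.tm p (up a)) ^ 2 =
      ∑ p ∈ P, ∑ q ∈ P, c p * c q * SS F M H p q := by
  unfold SS
  simp_rw [sq, Finset.sum_mul_sum, Finset.mul_sum]
  rw [Finset.sum_comm]
  refine Finset.sum_congr rfl fun p _ => ?_
  rw [Finset.sum_comm]
  refine Finset.sum_congr rfl fun q _ => Finset.sum_congr rfl fun a _ => ?_
  ring

lemma final_aux {H M B : ℝ} {N : ℕ} {R : ℝ} (hH : 0 ≤ H) (hB : 0 ≤ B) (hM : M = 8 * B * H)
    (hR : 0 ≤ R) :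
    (2 / (H + 1) ^ 2) ^ N * (((H + 1) * M) ^ N * R) ≤ 8 ^ N * (2 * B + 1) ^ N * R := by
  have hM0 : 0 ≤ M := by rw [hM]; positivity
  calc (2 / (H + 1) ^ 2) ^ N * (((H + 1) * M) ^ N * R) = (2 * M / (H + 1)) ^ N * R := by
        rw [← mul_assoc, ← mul_pow]
        congr 2
        field_simp
    _ ≤ (8 * (2 * B + 1)) ^ N * R := by
        apply mul_le_mul_of_nonneg_right _ hR
        apply pow_le_pow_left₀ (by positivity)
        rw [div_le_iff₀ (by positivity), hM]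
        nlinarith [mul_nonneg hB hH]
    _ = _ := by rw [mul_pow]

lemma main_aux (T B : ℕ) (hTB : T ^ 2 ≤ B)
    (P : Finset ℕ) (hP : ∀ p ∈ P, p.Prime ∧ p ≤ T) (c : ℕ → ℝ) {M H : ℕ} [NeZero M]
    (hB : 1 ≤ B) (hH0 : 1 ≤ H) (hM : M = 8 * B * H) (hdvd : ∀ p ∈ P, p ∣ M) :
    ∑ p ∈ P, ∑ q ∈ P, c p * c q * SS F M H p q ≤
      (((H : ℝ) + 1) * M) ^ Fintype.card J * (D * ∑ p ∈ P, c p ^ 2 +
        (∑ p ∈ P, |c p| * (C / Real.sqrt p)) ^ 2) := by
  have hC := F.hC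
  apply quad P c (fun p => C / Real.sqrt p) (SS F M H)
    ((((H : ℝ) + 1) * M) ^ Fintype.card J) D (by positivity)
  · intro p _; positivity
  · intro p hp
    have hpp : Fact p.Prime := ⟨(hP p hp).1⟩
    have h1 : p * H < M := by
      rw [hM]
      have : p ≤ B := (hP p hp).2.trans ((Nat.le_self_pow (by norm_num) T).trans hTB)
      nlinarith
    exact diag F (hdvd p hp) h1
  · intro p hp q hq hpq
    have hpp : Fact p.Prime := ⟨(hP p hp).1⟩
    have hqq : Fact q.Prime := ⟨(hP q hq).1⟩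
    have h1 : p * q * H < M := by
      rw [hM]
      have h51 : p * q ≤ T ^ 2 := by
        rw [sq]; exact Nat.mul_le_mul (hP p hp).2 (hP q hq).2
      have : p * q ≤ B := h51.trans hTB
      nlinarith
    exact offdiag F hpq (hdvd p hp) (hdvd q hq) h1

lemma second_moment (T B : ℕ) (hT : 1 ≤ T) (hTB : T ^ 2 ≤ B)
    (P : Finset ℕ) (hP : ∀ p ∈ P, p.Prime ∧ p ≤ T) (c : ℕ → ℝ) :
    ∑ a ∈ bx J B, (∑ p ∈ P, c p * F.tm p a) ^ 2 ≤
      8 ^ Fintype.card J * (bx J B).card *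
        (D * ∑ p ∈ P, c p ^ 2 + (∑ p ∈ P, |c p| * (C / Real.sqrt p)) ^ 2) := by
  have hB : 1 ≤ B := le_trans (Nat.one_le_pow _ _ hT) hTB
  obtain ⟨H, hH0, hHd⟩ : ∃ H : ℕ, 1 ≤ H ∧ ∀ p ∈ P, p ∣ H :=
    ⟨Nat.factorial T, Nat.factorial_pos T,
      fun p hp => Nat.dvd_factorial (hP p hp).1.pos (hP p hp).2⟩
  obtain ⟨M, hM⟩ : ∃ M : ℕ, M = 8 * B * H := ⟨_, rfl⟩
  have hM0 : 0 < M := by rw [hM]; positivity
  have : NeZero M := ⟨hM0.ne'⟩
  have hdvd : ∀ p ∈ P, p ∣ M := by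
    intro p hp
    rw [hM]
    exact Dvd.dvd.mul_left (hHd p hp) _
  have h1 := box_le (M := M) H (J := J) (B := B) (by rw [hM]; nlinarith) (by rw [hM]; nlinarith)
    (fun a => (∑ p ∈ P, c p * F.tm p (up a)) ^ 2) (fun a => sq_nonneg _)
  have h2 : ∑ a ∈ bx J B, (∑ p ∈ P, c p * F.tm p a) ^ 2 =
      ∑ a ∈ bx J B, (∑ p ∈ P, c p * F.tm p (up fun m => ((a m : ℤ) : ZMod M))) ^ 2 := by
    refine Finset.sum_congr rfl fun a _ => ?_
    congr 1
    refine Finset.sum_congr rfl fun p hp => ?_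
    have : Fact p.Prime := ⟨(hP p hp).1⟩
    rw [tm_up_int F (hdvd p hp)]
  rw [h2]
  refine h1.trans ?_
  rw [swap_sums]
  have h5 := main_aux F T B hTB P hP c hB hH0 hM hdvd
  have hR0 : 0 ≤ D * ∑ p ∈ P, c p ^ 2 +
      (∑ p ∈ P, |c p| * (C / Real.sqrt p)) ^ 2 := by
    have h6 : 0 ≤ ∑ p ∈ P, c p ^ 2 := Finset.sum_nonneg fun p _ => sq_nonneg _
    exact add_nonneg (mul_nonneg F.hD h6) (sq_nonneg _)
  have hH' : (0 : ℝ) ≤ H := Nat.cast_nonneg _
  have hB' : (0 : ℝ) ≤ B := Nat.cast_nonneg _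
  have hM' : (M : ℝ) = 8 * B * H := by rw [hM]; push_cast; ring
  have h7 : (0 : ℝ) ≤ (2 / ((H : ℝ) + 1) ^ 2) ^ Fintype.card J :=
    pow_nonneg (div_nonneg (by norm_num) (sq_nonneg _)) _
  refine (mul_le_mul_of_nonneg_left h5 h7).trans ?_
  rw [card_box]
  exact final_aux hH' hB' hM' hR0

end Pool.Agent.Helper28.TC
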