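import Pool.Agent.Helper28.TC.Abs

set_option autoImplicit false

namespace Pool.Agent.Helper28.TC

open Finset

variable {J : Type} [Fintype J] [DecidableEq J] {C D : ℝ} (F : Fam J C D)

/-- The primes up to `T`. -/
def PR (T : ℕ) : Finset ℕ := (Icc 1 T).filter Nat.Prime

/-- The sequence of the terms up to `K`. -/
noncomputable def xx (K : ℕ) (a : J → ℤ) (i : ℕ) : ℝ :=
  if i.Prime ∧ i ≤ K then Real.log i * F.tm i a else 0

/-- The primes in an interval, up to `K`. -/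
def PI (K b n : ℕ) : Finset ℕ := (Ico b (b + n)).filter fun i => i.Prime ∧ i ≤ K

lemma IS_xx (K : ℕ) (a : J → ℤ) (b n : ℕ) :
    IS (xx F K a) b n = ∑ p ∈ PI K b n, Real.log p * F.tm p a := by
  unfold IS xx PI
  rw [Finset.sum_filter]

/-- The superadditive majorant. -/
noncomputable def gb (A C D : ℝ) (K b n : ℕ) : ℝ :=
  A * (D * ∑ p ∈ PI K b n, Real.log p ^ 2 + (∑ p ∈ PI K b n, |Real.log p| * (C / Real.sqrt p)) ^ 2)

lemma PI_split (K b n m : ℕ) (f : ℕ → ℝ) :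
    ∑ p ∈ PI K b (n + m), f p = ∑ p ∈ PI K b n, f p + ∑ p ∈ PI K (b + n) m, f p := by
  unfold PI
  rw [Finset.sum_filter, Finset.sum_filter, Finset.sum_filter]
  exact IS_split _ b n m

lemma gb_nonneg {A C D : ℝ} (hA : 0 ≤ A) (hD : 0 ≤ D) (K b n : ℕ) : 0 ≤ gb A C D K b n := by
  unfold gb
  have h6 : 0 ≤ ∑ p ∈ PI K b n, Real.log p ^ 2 := Finset.sum_nonneg fun p _ => sq_nonneg _
  exact mul_nonneg hA (add_nonneg (mul_nonneg hD h6) (sq_nonneg _))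

lemma gb_super {A C D : ℝ} (hA : 0 ≤ A) (hC : 0 ≤ C) (K b n m : ℕ) :
    gb A C D K b n + gb A C D K (b + n) m ≤ gb A C D K b (n + m) := by
  unfold gb
  rw [PI_split, PI_split]
  have h1 : 0 ≤ ∑ p ∈ PI K b n, |Real.log p| * (C / Real.sqrt p) :=
    Finset.sum_nonneg fun p _ => by positivity
  have h2 : 0 ≤ ∑ p ∈ PI K (b + n) m, |Real.log p| * (C / Real.sqrt p) :=
    Finset.sum_nonneg fun p _ => by positivity
  rw [← mul_add]
  apply mul_le_mul_of_nonneg_left _ hA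
  nlinarith [mul_nonneg h1 h2]

lemma sum_inv_sqrt (n : ℕ) : ∑ i ∈ Icc 1 n, 1 / Real.sqrt i ≤ 2 * Real.sqrt n := by
  induction n with
  | zero => simp
  | succ n ih =>
      rw [Finset.sum_Icc_succ_top (by omega)]
      have h1 : 0 < Real.sqrt ((n + 1 : ℕ) : ℝ) := Real.sqrt_pos.2 (by positivity)
      have h2 : 0 ≤ Real.sqrt (n : ℝ) := Real.sqrt_nonneg _
      have h3 : Real.sqrt ((n + 1 : ℕ) : ℝ) ^ 2 = n + 1 := by
        rw [Real.sq_sqrt (by positivity)]; push_cast; ring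
      have h4 : Real.sqrt (n : ℝ) ^ 2 = n := Real.sq_sqrt (by positivity)
      have h5 : 1 / Real.sqrt ((n + 1 : ℕ) : ℝ) ≤
          2 * Real.sqrt ((n + 1 : ℕ) : ℝ) - 2 * Real.sqrt (n : ℝ) := by
        rw [div_le_iff₀ h1]
        nlinarith [sq_nonneg (Real.sqrt ((n + 1 : ℕ) : ℝ) - Real.sqrt (n : ℝ))]
      linarith

/-- The bound for the sums over the primes up to `n`. -/
lemma prime_sums {A C D L : ℝ} (hC : 0 ≤ C) (hD : 0 ≤ D) (hL : 0 ≤ L) (n : ℕ) (P : Finset ℕ)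
    (hA : 0 ≤ A) (hP : ∀ p ∈ P, 1 ≤ p ∧ p ≤ n) (hl : ∀ p ∈ P, Real.log p ≤ L) :
    A * (D * ∑ p ∈ P, Real.log p ^ 2 + (∑ p ∈ P, |Real.log p| * (C / Real.sqrt p)) ^ 2) ≤
      A * ((D + 4 * C ^ 2) * (L ^ 2 * n)) := by
  have hlog : ∀ p ∈ P, 0 ≤ Real.log p := by
    intro p hp
    exact Real.log_nonneg (by exact_mod_cast (hP p hp).1)
  have hcard : (P.card : ℝ) ≤ n := by
    have h : P ⊆ Icc 1 n := fun p hp => Finset.mem_Icc.2 (hP p hp)
    have := Finset.card_le_card h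
    rw [Nat.card_Icc] at this
    exact_mod_cast this
  have h1 : ∑ p ∈ P, Real.log p ^ 2 ≤ L ^ 2 * n := by
    calc _ ≤ ∑ _p ∈ P, L ^ 2 :=
          Finset.sum_le_sum fun p hp => pow_le_pow_left₀ (hlog p hp) (hl p hp) 2
      _ = P.card * L ^ 2 := by rw [Finset.sum_const, nsmul_eq_mul]
      _ ≤ n * L ^ 2 := mul_le_mul_of_nonneg_right hcard (sq_nonneg _)
      _ = _ := mul_comm _ _
  have h2 : ∑ p ∈ P, |Real.log p| * (C / Real.sqrt p) ≤ L * C * (2 * Real.sqrt n) := by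
    calc _ ≤ ∑ p ∈ P, L * C * (1 / Real.sqrt p) := by
          refine Finset.sum_le_sum fun p hp => ?_
          rw [abs_of_nonneg (hlog p hp)]
          have : Real.log p * (C / Real.sqrt p) ≤ L * (C / Real.sqrt p) :=
            mul_le_mul_of_nonneg_right (hl p hp) (by positivity)
          calc _ ≤ L * (C / Real.sqrt p) := this
            _ = _ := by ring
      _ = L * C * ∑ p ∈ P, 1 / Real.sqrt p := by rw [Finset.mul_sum]
      _ ≤ L * C * ∑ p ∈ Icc 1 n, 1 / Real.sqrt p := by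
          apply mul_le_mul_of_nonneg_left _ (by positivity)
          apply Finset.sum_le_sum_of_subset_of_nonneg
          · exact fun p hp => Finset.mem_Icc.2 (hP p hp)
          · intro p _ _; positivity
      _ ≤ _ := mul_le_mul_of_nonneg_left (sum_inv_sqrt n) (by positivity)
  have h3 : 0 ≤ ∑ p ∈ P, |Real.log p| * (C / Real.sqrt p) :=
    Finset.sum_nonneg fun p _ => by positivity
  have h4 : (∑ p ∈ P, |Real.log p| * (C / Real.sqrt p)) ^ 2 ≤ 4 * C ^ 2 * (L ^ 2 * n) := by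
    calc _ ≤ (L * C * (2 * Real.sqrt n)) ^ 2 := pow_le_pow_left₀ h3 h2 2
      _ = 4 * C ^ 2 * (L ^ 2 * Real.sqrt n ^ 2) := by ring
      _ = _ := by rw [Real.sq_sqrt (Nat.cast_nonneg n)]
  have h5 : D * ∑ p ∈ P, Real.log p ^ 2 ≤ D * (L ^ 2 * n) := mul_le_mul_of_nonneg_left h1 hD
  apply mul_le_mul_of_nonneg_left _ hA
  linarith

/-- The scale. -/
noncomputable def AA (J : Type) [Fintype J] [DecidableEq J] (B : ℕ) : ℝ :=
  8 ^ Fintype.card J * (bx J B).card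

lemma AA_nonneg (J : Type) [Fintype J] [DecidableEq J] (B : ℕ) : 0 ≤ AA J B := by
  unfold AA
  exact mul_nonneg (pow_nonneg (by norm_num) _) (Nat.cast_nonneg _)

lemma moment_IS (K B : ℕ) (hK : 1 ≤ K) (hKB : K ^ 2 ≤ B) (b n : ℕ) :
    ∑ a ∈ bx J B, IS (xx F K a) b n ^ 2 ≤ gb (AA J B) C D K b n := by
  have hP : ∀ p ∈ PI K b n, p.Prime ∧ p ≤ K := by
    intro p hp
    unfold PI at hp
    exact (Finset.mem_filter.1 hp).2
  simp_rw [IS_xx]
  exact second_moment F K B hK hKB (PI K b n) hP fun p => Real.log p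

lemma moment_RM (K B : ℕ) (hK : 1 ≤ K) (hKB : K ^ 2 ≤ B) (k : ℕ) :
    ∑ a ∈ bx J B, RM (xx F K a) k 0 ≤
      ((k : ℝ) + 1) ^ 2 * (AA J B * ((D + 4 * C ^ 2) * ((k : ℝ) ^ 2 * 2 ^ k))) := by
  refine (sum_RM (bx J B) (fun a => xx F K a) (gb (AA J B) C D K)
    (gb_nonneg (AA_nonneg J B) F.hD K) (gb_super (AA_nonneg J B) F.hC K)
    (moment_IS F K B hK hKB) k 0).trans ?_
  apply mul_le_mul_of_nonneg_left _ (by positivity)
  have h := prime_sums (A := AA J B) (C := C) (D := D) (L := (k : ℝ)) F.hC F.hD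
    (Nat.cast_nonneg k) (2 ^ k) (PI K 0 (2 ^ k)) (AA_nonneg J B)
    (by
      intro p hp
      unfold PI at hp
      rw [Finset.mem_filter, Finset.mem_Ico] at hp
      exact ⟨hp.2.1.one_le, by omega⟩)
    (by
      intro p hp
      unfold PI at hp
      rw [Finset.mem_filter, Finset.mem_Ico, zero_add] at hp
      have h1 : Real.log p ≤ Real.log ((2 : ℝ) ^ k) :=
        Real.log_le_log (by exact_mod_cast hp.2.1.pos) (by exact_mod_cast hp.1.2.le)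
      rw [Real.log_pow] at h1
      have h2 : Real.log 2 ≤ 1 := by
        have := Real.log_two_lt_d9; linarith
      have h3 : (0 : ℝ) ≤ k := Nat.cast_nonneg k
      nlinarith)
  push_cast at h
  exact h

lemma PI_eq_PR {K T : ℕ} (h : T ≤ K) : PI K 0 (T + 1) = PR T := by
  ext p
  unfold PI PR
  rw [Finset.mem_filter, Finset.mem_filter, Finset.mem_Ico, Finset.mem_Icc]
  constructor
  · rintro ⟨⟨_, h1⟩, hp, _⟩
    exact ⟨⟨hp.one_le, by omega⟩, hp⟩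
  · rintro ⟨⟨_, h1⟩, hp⟩
    exact ⟨⟨Nat.zero_le _, by omega⟩, hp, h1.trans h⟩

lemma sum_inv_sq (j0 J : ℕ) (hj : 1 ≤ j0) : (∑ j ∈ Icc j0 J, 1 / (j : ℝ) ^ 2) ≤ (2 : ℝ) / (j0 : ℝ) := by
  have h : ∀ J, j0 ≤ J → (∑ j ∈ Icc j0 J, 1 / (j : ℝ) ^ 2) ≤
      (2 : ℝ) / (j0 : ℝ) - (2 : ℝ) / ((J : ℝ) + 1) := by
    intro J hJ
    induction J, hJ using Nat.le_induction with
    | base =>
        rw [Finset.Icc_self, Finset.sum_singleton]
        have h0 : (1 : ℝ) ≤ j0 := by exact_mod_cast hj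
        have : (2 : ℝ) / j0 - 2 / (j0 + 1) = 2 / (j0 * (j0 + 1)) := by field_simp; ring
        rw [this, div_le_div_iff₀ (by positivity) (by positivity)]
        nlinarith
    | succ J hJ ih =>
        rw [Finset.sum_Icc_succ_top (by omega)]
        have h0 : (1 : ℝ) ≤ J := by exact_mod_cast hj.trans hJ
        have h1 : (1 : ℝ) / (((J + 1 : ℕ) : ℝ)) ^ 2 ≤
            (2 : ℝ) / ((J : ℝ) + 1) - (2 : ℝ) / (((J + 1 : ℕ) : ℝ) + 1) := by
          push_cast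
          have : (2 : ℝ) / ((J : ℝ) + 1) - 2 / ((J : ℝ) + 1 + 1) =
              2 / (((J : ℝ) + 1) * ((J : ℝ) + 1 + 1)) := by field_simp; ring
          rw [this, div_le_div_iff₀ (by positivity) (by positivity)]
          nlinarith
        linarith
  by_cases hJ : j0 ≤ J
  · have h1 := h J hJ
    have h2 : (0 : ℝ) ≤ 2 / (J + 1) := by positivity
    linarith
  · rw [Finset.Icc_eq_empty hJ, Finset.sum_empty]
    positivity

/-- The constant. -/
noncomputable def CC (J : Type) [Fintype J] (C D : ℝ) : ℝ :=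
  8 ^ Fintype.card J * (D + 4 * C ^ 2) * (288 / Real.log 2 ^ 5)

lemma term_bound {D c l : ℝ} (hD : 0 ≤ D) (hl : 0 < l) {j : ℕ} (hj : 1 ≤ j)
    (h : c * (2 ^ j * ((j : ℝ) * l) ^ 6) ≤
      (((j + 1 : ℕ) : ℝ) + 1) ^ 2 * (D * ((((j + 1 : ℕ) : ℝ)) ^ 2 * 2 ^ (j + 1)))) :
    c ≤ D * (72 / l ^ 6) * (1 / (j : ℝ) ^ 2) := by
  have hj' : (1 : ℝ) ≤ j := by exact_mod_cast hj
  have hj0 : (0 : ℝ) < j := by linarith
  have h2 : (0 : ℝ) < 2 ^ j := by positivity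
  have h3 : 0 < (2 : ℝ) ^ j * ((j : ℝ) * l) ^ 6 := by positivity
  rw [← le_div_iff₀ h3] at h
  refine h.trans ?_
  rw [div_le_iff₀ h3]
  have e1 : D * (72 / l ^ 6) * (1 / (j : ℝ) ^ 2) * (2 ^ j * ((j : ℝ) * l) ^ 6) =
      D * (72 * (j : ℝ) ^ 4 * 2 ^ j) := by
    field_simp
  rw [e1]
  push_cast
  have e2 : ((j : ℝ) + 1 + 1) ^ 2 ≤ 9 * (j : ℝ) ^ 2 := by nlinarith
  have e3 : ((j : ℝ) + 1) ^ 2 ≤ 4 * (j : ℝ) ^ 2 := by nlinarith
  have e4 : ((j : ℝ) + 1 + 1) ^ 2 * ((j : ℝ) + 1) ^ 2 ≤ 36 * (j : ℝ) ^ 4 := by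
    calc _ ≤ (9 * (j : ℝ) ^ 2) * (4 * (j : ℝ) ^ 2) := mul_le_mul e2 e3 (by positivity) (by positivity)
      _ = _ := by ring
  calc ((j : ℝ) + 1 + 1) ^ 2 * (D * (((j : ℝ) + 1) ^ 2 * 2 ^ (j + 1))) =
      D * (((j : ℝ) + 1 + 1) ^ 2 * ((j : ℝ) + 1) ^ 2 * (2 * 2 ^ j)) := by rw [pow_succ]; ring
    _ ≤ D * (36 * (j : ℝ) ^ 4 * (2 * 2 ^ j)) := by
        apply mul_le_mul_of_nonneg_left _ hD
        exact mul_le_mul_of_nonneg_right e4 (by positivity)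
    _ = _ := by ring

open Classical in
lemma bad_level (K B : ℕ) (hK : 1 ≤ K) (hKB : K ^ 2 ≤ B) {j : ℕ}
    (hj : 1 ≤ j) :
    (((bx J B).filter fun a =>
      (2 : ℝ) ^ j * ((j : ℝ) * Real.log 2) ^ 6 < RM (xx F K a) (j + 1) 0).card : ℝ) ≤
      AA J B * (D + 4 * C ^ 2) * (72 / Real.log 2 ^ 6) * (1 / (j : ℝ) ^ 2) := by
  have hl : 0 < Real.log 2 := Real.log_pos (by norm_num)
  have hD : 0 ≤ AA J B * (D + 4 * C ^ 2) := by
    have := AA_nonneg J B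
    have hC1 := F.hC
    have hD1 := F.hD
    positivity
  apply term_bound hD hl hj
  have h1 := moment_RM F K B hK hKB (j + 1)
  have h2 : (((bx J B).filter fun a =>
      (2 : ℝ) ^ j * ((j : ℝ) * Real.log 2) ^ 6 < RM (xx F K a) (j + 1) 0).card : ℝ) *
      ((2 : ℝ) ^ j * ((j : ℝ) * Real.log 2) ^ 6) ≤ ∑ a ∈ bx J B, RM (xx F K a) (j + 1) 0 := by
    rw [← nsmul_eq_mul, ← Finset.sum_const]
    refine (Finset.sum_le_sum fun a ha => (Finset.mem_filter.1 ha).2.le).trans ?_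
    exact Finset.sum_le_sum_of_subset_of_nonneg (Finset.filter_subset _ _)
      fun a _ _ => RM_nonneg _ _ _
  refine (h2.trans h1).trans (le_of_eq ?_)
  ring

lemma exceed {K T : ℕ} (hT : 2 ≤ T) (hTK : T ≤ K) {a : J → ℤ}
    (h : Real.log T ^ 3 / Real.sqrt T <
      |(∑ p ∈ PR T, Real.log p * F.tm p a) / T|) :
    (2 : ℝ) ^ (Nat.log 2 T) * (((Nat.log 2 T : ℕ) : ℝ) * Real.log 2) ^ 6 <
      RM (xx F K a) (Nat.log 2 T + 1) 0 := by
  have hT0 : (0 : ℝ) < T := by exact_mod_cast (by omega : 0 < T)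
  have hT1 : (1 : ℝ) ≤ T := by exact_mod_cast (by omega : 1 ≤ T)
  have h1 : T + 1 ≤ 2 ^ (Nat.log 2 T + 1) := Nat.lt_pow_succ_log_self (by norm_num) T
  have h2 : 2 ^ Nat.log 2 T ≤ T := Nat.pow_log_le_self 2 (by omega)
  have h3 := IS_le_RM (xx F K a) (Nat.log 2 T + 1) 0 (T + 1) h1
  rw [IS_xx, PI_eq_PR hTK] at h3
  refine lt_of_lt_of_le ?_ h3
  rw [abs_div, abs_of_pos hT0] at h
  set X := ∑ p ∈ PR T, Real.log p * F.tm p a with hX
  have hs : 0 < Real.sqrt T := Real.sqrt_pos.2 hT0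
  have hlog : 0 ≤ Real.log T := Real.log_nonneg hT1
  rw [div_lt_div_iff₀ hs hT0] at h
  have h5 : (Real.log T ^ 3 * T) ^ 2 < (|X| * Real.sqrt T) ^ 2 :=
    pow_lt_pow_left₀ h (by positivity) (by norm_num)
  rw [mul_pow, mul_pow, sq_abs, Real.sq_sqrt hT0.le] at h5
  have h6 : (T : ℝ) * Real.log T ^ 6 < X ^ 2 := by
    have : (Real.log T ^ 3) ^ 2 * (T : ℝ) ^ 2 = T * Real.log T ^ 6 * T := by ring
    rw [this] at h5
    exact lt_of_mul_lt_mul_right h5 hT0.le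
  refine lt_of_le_of_lt ?_ h6
  have h7 : ((Nat.log 2 T : ℕ) : ℝ) * Real.log 2 ≤ Real.log T := by
    rw [← Real.log_pow]
    exact Real.log_le_log (by positivity) (by exact_mod_cast h2)
  have h8 : (0 : ℝ) ≤ ((Nat.log 2 T : ℕ) : ℝ) * Real.log 2 :=
    mul_nonneg (Nat.cast_nonneg _) (Real.log_nonneg (by norm_num))
  exact mul_le_mul (by exact_mod_cast h2) (pow_le_pow_left₀ h8 h7 6) (pow_nonneg h8 6) hT0.le

open Classical in
theorem count (T₀ B : ℕ) (hT₀ : 2 ≤ T₀) :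
    (((bx J B).filter fun a => ∃ T : ℕ, T₀ ≤ T ∧ T ^ 2 ≤ B ∧
      Real.log T ^ 3 / Real.sqrt T <
        |(∑ p ∈ PR T, Real.log p * F.tm p a) / T|).card : ℝ) ≤
      CC J C D / Real.log T₀ * (bx J B).card := by
  have hl : 0 < Real.log 2 := Real.log_pos (by norm_num)
  have hT0 : (2 : ℝ) ≤ T₀ := by exact_mod_cast hT₀
  have hlT : 0 < Real.log T₀ := Real.log_pos (by linarith)
  have hC1 := F.hC
  have hD1 := F.hD
  have hCC : 0 ≤ CC J C D := by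
    unfold CC
    positivity
  by_cases hB : B = 0
  · have : ((bx J B).filter fun a => ∃ T : ℕ, T₀ ≤ T ∧ T ^ 2 ≤ B ∧
      Real.log T ^ 3 / Real.sqrt T <
        |(∑ p ∈ PR T, Real.log p * F.tm p a) / T|) = ∅ := by
      rw [Finset.filter_eq_empty_iff]
      rintro a _ ⟨T, h1, h2, _⟩
      rw [hB] at h2
      have : T ^ 2 ≥ 2 ^ 2 := Nat.pow_le_pow_left (hT₀.trans h1) 2
      omega
    rw [this, Finset.card_empty, Nat.cast_zero]
    positivity
  obtain ⟨K, hK⟩ : ∃ K, K = Nat.sqrt B := ⟨_, rfl⟩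
  have hK1 : 1 ≤ K := by rw [hK, Nat.le_sqrt']; omega
  have hKB : K ^ 2 ≤ B := by rw [hK]; exact Nat.sqrt_le' B
  obtain ⟨j0, hj0⟩ : ∃ j0, j0 = Nat.log 2 T₀ := ⟨_, rfl⟩
  have hj1 : 1 ≤ j0 := by
    rw [hj0]; exact Nat.log_pos (by norm_num) hT₀
  set E : ℝ := AA J B * (D + 4 * C ^ 2) * (72 / Real.log 2 ^ 6) with hE
  have hE0 : 0 ≤ E := by
    have := AA_nonneg J B
    positivity
  have hsub : ((bx J B).filter fun a => ∃ T : ℕ, T₀ ≤ T ∧ T ^ 2 ≤ B ∧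
      Real.log T ^ 3 / Real.sqrt T <
        |(∑ p ∈ PR T, Real.log p * F.tm p a) / T|) ⊆
      (Icc j0 (Nat.log 2 K)).biUnion fun j => (bx J B).filter fun a =>
        (2 : ℝ) ^ j * ((j : ℝ) * Real.log 2) ^ 6 < RM (xx F K a) (j + 1) 0 := by
    intro a ha
    obtain ⟨ha1, T, h1, h2, h3⟩ := Finset.mem_filter.1 ha
    have hTK : T ≤ K := by rw [hK, Nat.le_sqrt']; exact h2
    rw [Finset.mem_biUnion]
    refine ⟨Nat.log 2 T, ?_, ?_⟩
    · rw [Finset.mem_Icc, hj0]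
      exact ⟨Nat.log_mono_right h1, Nat.log_mono_right hTK⟩
    · rw [Finset.mem_filter]
      exact ⟨ha1, exceed F (hT₀.trans h1) hTK h3⟩
  have h1 : (((bx J B).filter fun a => ∃ T : ℕ, T₀ ≤ T ∧ T ^ 2 ≤ B ∧
      Real.log T ^ 3 / Real.sqrt T <
        |(∑ p ∈ PR T, Real.log p * F.tm p a) / T|).card : ℝ) ≤
      ∑ j ∈ Icc j0 (Nat.log 2 K), E * (1 / (j : ℝ) ^ 2) := by
    have h2 := (Finset.card_le_card hsub).trans Finset.card_biUnion_le
    have h3 : (((bx J B).filter fun a => ∃ T : ℕ, T₀ ≤ T ∧ T ^ 2 ≤ B ∧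
      Real.log T ^ 3 / Real.sqrt T <
        |(∑ p ∈ PR T, Real.log p * F.tm p a) / T|).card : ℝ) ≤
        ∑ j ∈ Icc j0 (Nat.log 2 K), (((bx J B).filter fun a =>
        (2 : ℝ) ^ j * ((j : ℝ) * Real.log 2) ^ 6 < RM (xx F K a) (j + 1) 0).card : ℝ) := by
      exact_mod_cast h2
    refine h3.trans (Finset.sum_le_sum fun j hj => ?_)
    exact bad_level F K B hK1 hKB (hj1.trans (Finset.mem_Icc.1 hj).1)
  refine h1.trans ?_
  rw [← Finset.mul_sum]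
  refine (mul_le_mul_of_nonneg_left (sum_inv_sq j0 _ hj1) hE0).trans ?_
  have h5 : (2 : ℝ) / j0 ≤ 4 * Real.log 2 / Real.log T₀ := by
    have hj0' : (1 : ℝ) ≤ j0 := by exact_mod_cast hj1
    rw [div_le_div_iff₀ (by linarith) hlT]
    have h6 : Real.log T₀ ≤ ((j0 : ℝ) + 1) * Real.log 2 := by
      have h7 : (T₀ : ℝ) ≤ 2 ^ (j0 + 1) := by
        have := (Nat.lt_pow_succ_log_self (b := 2) (by norm_num) T₀).le
        rw [← hj0] at this
        exact_mod_cast this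
      have h8 := Real.log_le_log (by linarith) h7
      rw [Real.log_pow] at h8
      push_cast at h8
      exact h8
    nlinarith
  refine (mul_le_mul_of_nonneg_left h5 hE0).trans (le_of_eq ?_)
  rw [hE]
  unfold CC AA
  field_simp
  ring

end Pool.Agent.Helper28.TC
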