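import Pool.Agent.Helper28.TC.MomK

set_option autoImplicit false

namespace Pool.Agent.Helper28.TC

open Polynomial Finset

section Poly

variable {p : ℕ} [Fact p.Prime] {D : ℕ}

/-- The polynomial with given coefficients. -/
noncomputable def pl (w : Fin D → ZMod p) : (ZMod p)[X] := ∑ j, C (w j) * X ^ (j : ℕ)

lemma coeff_pl (w : Fin D → ZMod p) (n : ℕ) :
    (pl w).coeff n = if h : n < D then w ⟨n, h⟩ else 0 := by
  unfold pl
  rw [finset_sum_coeff]
  by_cases h : n < D
  · rw [dif_pos h, Finset.sum_eq_single (⟨n, h⟩ : Fin D)]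
    · simp
    · intro j _ hj
      rw [coeff_C_mul, coeff_X_pow, if_neg, mul_zero]
      intro h'
      exact hj (Fin.ext h'.symm)
    · intro h'; exact absurd (Finset.mem_univ _) h'
  · rw [dif_neg h]
    refine Finset.sum_eq_zero fun j _ => ?_
    rw [coeff_C_mul, coeff_X_pow, if_neg, mul_zero]
    intro h'
    exact h (h' ▸ j.2)

lemma pl_co {h : (ZMod p)[X]} (hh : h.natDegree < D) : pl (fun j : Fin D => h.coeff j) = h := by
  ext n
  rw [coeff_pl]
  by_cases hn : n < D
  · rw [dif_pos hn]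
  · rw [dif_neg hn, coeff_eq_zero_of_natDegree_lt (by omega)]

lemma natDegree_pl (w : Fin (D + 1) → ZMod p) : (pl w).natDegree ≤ D := by
  rw [natDegree_le_iff_coeff_eq_zero]
  intro n hn
  rw [coeff_pl, dif_neg (by omega)]

lemma co_pl (w : Fin (D + 1) → ZMod p) : co D (pl w) = w := by
  funext j
  unfold co
  rw [coeff_pl, dif_pos j.2]

/-- The parametrization of the polynomials with a square factor of degree `m`. -/
noncomputable def sqf (D m : ℕ) (z : (Fin m → ZMod p) × (Fin (D + 1 - 2 * m) → ZMod p)) :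
    Fin (D + 1) → ZMod p :=
  co D ((X ^ m + pl z.1) * (X ^ m + pl z.1) * pl z.2)

lemma exists_sqf {w : Fin (D + 1) → ZMod p} (h0 : pl w ≠ 0) (h : ¬ Squarefree (pl w)) :
    ∃ m, 1 ≤ m ∧ m ≤ D ∧ ∃ z, sqf D m z = w := by
  unfold Squarefree at h
  push Not at h
  obtain ⟨x, ⟨q, hq⟩, hx⟩ := h
  have hx0 : x ≠ 0 := by
    rintro rfl
    apply h0
    rw [hq]; simp
  have hq0 : q ≠ 0 := by
    rintro rfl
    apply h0
    rw [hq]; simp
  have hlc : x.leadingCoeff ≠ 0 := leadingCoeff_ne_zero.2 hx0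
  obtain ⟨m, hm⟩ : ∃ m, m = x.natDegree := ⟨_, rfl⟩
  have hm1 : 1 ≤ m := by
    rw [Nat.one_le_iff_ne_zero, hm]
    intro h1
    apply hx
    rw [eq_C_of_natDegree_eq_zero h1] at hx0 ⊢
    rw [isUnit_C]
    exact isUnit_iff_ne_zero.2 fun h2 => hx0 (by rw [h2, C_0])
  -- normalise
  obtain ⟨y, hy⟩ : ∃ y, y = C (x.leadingCoeff)⁻¹ * x := ⟨_, rfl⟩
  have hymon : y.Monic := by
    rw [hy, mul_comm]
    exact monic_mul_leadingCoeff_inv hx0
  have hydeg : y.natDegree = m := by
    rw [hy, natDegree_C_mul (inv_ne_zero hlc), hm]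
  obtain ⟨r, hr⟩ : ∃ r, r = C (x.leadingCoeff * x.leadingCoeff) * q := ⟨_, rfl⟩
  have hfac : pl w = y * y * r := by
    rw [hq, hy, hr]
    have : C (x.leadingCoeff)⁻¹ * x * (C (x.leadingCoeff)⁻¹ * x) *
        (C (x.leadingCoeff * x.leadingCoeff) * q) =
        (C ((x.leadingCoeff)⁻¹ * (x.leadingCoeff)⁻¹ * (x.leadingCoeff * x.leadingCoeff))) *
          (x * x * q) := by
      simp only [C_mul]
      ring
    rw [this]
    have h1 : (x.leadingCoeff)⁻¹ * (x.leadingCoeff)⁻¹ * (x.leadingCoeff * x.leadingCoeff) = 1 := by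
      field_simp
    rw [h1, C_1, one_mul]
  have hr0 : r ≠ 0 := by
    rintro rfl
    apply h0
    rw [hfac, mul_zero]
  have hdeg : 2 * m + r.natDegree ≤ D := by
    have h1 := natDegree_pl w
    rw [hfac, (hymon.mul hymon).natDegree_mul' hr0, hymon.natDegree_mul hymon, hydeg] at h1
    omega
  refine ⟨m, hm1, by omega, ⟨fun j => y.coeff j, fun j => r.coeff j⟩, ?_⟩
  unfold sqf
  have e1 : X ^ m + pl (fun j : Fin m => y.coeff j) = y := by
    have h2 := hymon.as_sum
    rw [hydeg] at h2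
    conv_rhs => rw [h2]
    unfold pl
    rw [Finset.sum_range]
  have e2 : pl (fun j : Fin (D + 1 - 2 * m) => r.coeff j) = r := pl_co (by omega)
  rw [e1, e2, ← hfac, co_pl]

open Classical in
/-- The coefficient vectors of the polynomials which are not squarefree or of too small degree. -/
noncomputable def Bd (p : ℕ) [Fact p.Prime] (D : ℕ) : Finset (Fin (D + 1) → ZMod p) :=
  univ.filter fun w => ¬ (Squarefree (pl w) ∧ D ≤ (pl w).natDegree + 1)

lemma card_last_zero : ((univ : Finset (Fin (D + 1) → ZMod p)).filter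
    fun w => w (Fin.last D) = 0).card ≤ p ^ D := by
  classical
  have h : ((univ : Finset (Fin (D + 1) → ZMod p)).filter fun w => w (Fin.last D) = 0) ⊆
      (univ : Finset (Fin D → ZMod p)).image fun w => Fin.snoc (α := fun _ => ZMod p) w 0 := by
    intro w hw
    rw [Finset.mem_filter] at hw
    rw [Finset.mem_image]
    refine ⟨Fin.init w, Finset.mem_univ _, ?_⟩
    rw [← hw.2]
    exact Fin.snoc_init_self w
  refine (Finset.card_le_card h).trans (Finset.card_image_le.trans ?_)
  rw [Finset.card_univ, Fintype.card_fun, ZMod.card, Fintype.card_fin]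

lemma card_Bd (hD : 2 ≤ D) : (Bd p D).card ≤ (D + 1) * p ^ D := by
  classical
  have hp := (Fact.out : p.Prime).pos
  have hsub : Bd p D ⊆ ((univ : Finset (Fin (D + 1) → ZMod p)).filter
      fun w => w (Fin.last D) = 0) ∪
      (Finset.Icc 1 D).biUnion fun m =>
        (univ : Finset ((Fin m → ZMod p) × (Fin (D + 1 - 2 * m) → ZMod p))).image (sqf D m) := by
    intro w hw
    unfold Bd at hw
    rw [Finset.mem_filter] at hw
    rw [Finset.mem_union]
    by_cases h0 : w (Fin.last D) = 0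
    · left
      rw [Finset.mem_filter]
      exact ⟨Finset.mem_univ _, h0⟩
    · right
      have hc : (pl w).coeff D ≠ 0 := by
        rw [coeff_pl, dif_pos (Nat.lt_succ_self D)]
        exact h0
      have hne : pl w ≠ 0 := by
        intro h
        rw [h, coeff_zero] at hc
        exact hc rfl
      have hdeg : D ≤ (pl w).natDegree := le_natDegree_of_ne_zero hc
      have hsq : ¬ Squarefree (pl w) := fun h => hw.2 ⟨h, by omega⟩
      obtain ⟨m, h1, h2, z, hz⟩ := exists_sqf hne hsq
      rw [Finset.mem_biUnion]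
      refine ⟨m, Finset.mem_Icc.2 ⟨h1, h2⟩, ?_⟩
      rw [Finset.mem_image]
      exact ⟨z, Finset.mem_univ _, hz⟩
  refine (Finset.card_le_card hsub).trans ((Finset.card_union_le _ _).trans ?_)
  have h1 : ((Finset.Icc 1 D).biUnion fun m =>
      (univ : Finset ((Fin m → ZMod p) × (Fin (D + 1 - 2 * m) → ZMod p))).image
        (sqf D m)).card ≤ D * p ^ D := by
    refine Finset.card_biUnion_le.trans ?_
    have h2 : ∀ m ∈ Finset.Icc 1 D,
        ((univ : Finset ((Fin m → ZMod p) × (Fin (D + 1 - 2 * m) → ZMod p))).image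
          (sqf D m)).card ≤ p ^ D := by
      intro m hm
      rw [Finset.mem_Icc] at hm
      refine Finset.card_image_le.trans ?_
      rw [Finset.card_univ, Fintype.card_prod, Fintype.card_fun, Fintype.card_fun, ZMod.card,
        Fintype.card_fin, Fintype.card_fin, ← pow_add]
      exact Nat.pow_le_pow_right hp (by omega)
    refine (Finset.sum_le_sum h2).trans ?_
    rw [Finset.sum_const, Nat.card_Icc, smul_eq_mul]
    simp
  have h3 := card_last_zero (p := p) (D := D)
  calc _ ≤ p ^ D + D * p ^ D := Nat.add_le_add h3 h1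
    _ = _ := by ring

end Poly

section BadAll

variable {p : ℕ} [Fact p.Prime] {k : ℕ} {g : Fin k → ℕ}

lemma blk_surj (i : Fin k) : Function.Surjective
    (blk i : (Idx g → ZMod p) →+ (Fin (2 * g i + 2 + 1) → ZMod p)) :=
  fun v => ⟨emb i v, blk_emb i v⟩

open Classical in
/-- The tuples which are not good modulo `p`. -/
noncomputable def BA (p : ℕ) [Fact p.Prime] (g : Fin k → ℕ) : Finset (Idx g → ZMod p) :=
  univ.filter fun u => ¬ ∀ i, Squarefree (pl (blk i u)) ∧
    2 * g i + 1 ≤ (pl (blk i u)).natDegree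

/-- The constant in the bound for the number of bad tuples. -/
noncomputable def Cb (g : Fin k → ℕ) : ℝ := ∑ i, (2 * (g i : ℝ) + 3)

lemma card_BA : ((BA p g).card : ℝ) ≤ Fintype.card (Idx g → ZMod p) * (Cb g / p) := by
  classical
  have hp : (0 : ℝ) < p := by exact_mod_cast (Fact.out : p.Prime).pos
  have h1 : BA p g ⊆ (univ : Finset (Fin k)).biUnion fun i =>
      (univ : Finset (Idx g → ZMod p)).filter fun u => blk i u ∈ Bd p (2 * g i + 2) := by
    intro u hu
    unfold BA at hu
    rw [Finset.mem_filter] at hu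
    have h2 := hu.2
    push Not at h2
    obtain ⟨i, hi⟩ := h2
    rw [Finset.mem_biUnion]
    refine ⟨i, Finset.mem_univ _, ?_⟩
    rw [Finset.mem_filter]
    refine ⟨Finset.mem_univ _, ?_⟩
    unfold Bd
    rw [Finset.mem_filter]
    refine ⟨Finset.mem_univ _, ?_⟩
    rintro ⟨h3, h4⟩
    have := hi h3
    omega
  have h2 : ((BA p g).card : ℝ) ≤ ∑ i : Fin k,
      (((univ : Finset (Idx g → ZMod p)).filter fun u => blk i u ∈ Bd p (2 * g i + 2)).card : ℝ) := by
    exact_mod_cast (Finset.card_le_card h1).trans Finset.card_biUnion_le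
  refine h2.trans ?_
  unfold Cb
  rw [Finset.sum_div, Finset.mul_sum]
  refine Finset.sum_le_sum fun i _ => ?_
  have h3 : (((univ : Finset (Idx g → ZMod p)).filter
      fun u => blk i u ∈ Bd p (2 * g i + 2)).card : ℝ) =
      ∑ u : Idx g → ZMod p, (if blk i u ∈ Bd p (2 * g i + 2) then (1 : ℝ) else 0) := by
    rw [Finset.sum_ite, Finset.sum_const_zero, add_zero, Finset.sum_const, nsmul_eq_mul, mul_one]
  have h4 := sum_comp (blk i : (Idx g → ZMod p) →+ (Fin (2 * g i + 2 + 1) → ZMod p))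
    (blk_surj i) (fun w => if w ∈ Bd p (2 * g i + 2) then (1 : ℝ) else 0)
  have h5 : ∑ w : Fin (2 * g i + 2 + 1) → ZMod p,
      (if w ∈ Bd p (2 * g i + 2) then (1 : ℝ) else 0) = (Bd p (2 * g i + 2)).card := by
    rw [Finset.sum_ite, Finset.sum_const_zero, add_zero, Finset.sum_const, nsmul_eq_mul, mul_one,
      Finset.filter_mem_eq_inter, Finset.univ_inter]
  rw [h3, h4, h5]
  apply mul_le_mul_of_nonneg_left _ (Nat.cast_nonneg _)
  rw [Fintype.card_fun, ZMod.card, Fintype.card_fin]
  have h6 := card_Bd (p := p) (D := 2 * g i + 2) (by omega)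
  have h7 : ((Bd p (2 * g i + 2)).card : ℝ) ≤ (2 * (g i : ℝ) + 3) * (p : ℝ) ^ (2 * g i + 2) := by
    calc ((Bd p (2 * g i + 2)).card : ℝ) ≤ (((2 * g i + 2 + 1) * p ^ (2 * g i + 2) : ℕ) : ℝ) := by
          exact_mod_cast h6
      _ = _ := by push_cast; ring
  push_cast
  rw [div_le_div_iff₀ (by positivity) hp, pow_succ]
  nlinarith [mul_le_mul_of_nonneg_right h7 hp.le]

end BadAll

end Pool.Agent.Helper28.TC
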