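import Pool.Agent.Helper28.TC.BadC
import Pool.Agent.Helper28.TC.AbsFin

set_option autoImplicit false

namespace Pool.Agent.Helper28.TC

open Polynomial Finset

section Gen

variable {k : ℕ} {g : Fin k → ℕ} {p : ℕ} [Fact p.Prime]

/-- The number of vectors. -/
noncomputable def NA (p : ℕ) [Fact p.Prime] (g : Fin k → ℕ) : ℝ := Fintype.card (Idx g → ZMod p)

lemma NA_nonneg : 0 ≤ NA p g := Nat.cast_nonneg _

lemma NA_eq : NA p g = (p : ℝ) ^ Fintype.card (Idx g) := by
  unfold NA
  rw [Fintype.card_fun, ZMod.card]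
  push_cast
  rfl

lemma Cb_nonneg : 0 ≤ Cb g := Finset.sum_nonneg fun i _ => by positivity

open Classical in
/-- The function `X - r`, corrected at the bad vectors. -/
noncomputable def GG (X : (Idx g → ZMod p) → ℝ) (r : ℝ) (u : Idx g → ZMod p) : ℝ :=
  if p ≠ 2 ∧ u ∉ BA p g then X u - r else - r

variable {X : (Idx g → ZMod p) → ℝ} {r c : ℝ}

lemma sum_GG_sq (hc : 0 ≤ c) (h2 : p ≠ 2 → ∑ u, X u ^ 2 ≤ NA p g * c) :
    ∑ u, GG X r u ^ 2 ≤ NA p g * (2 * c + 2 * r ^ 2) := by
  classical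
  by_cases hp : p = 2
  · have h1 : ∀ u : Idx g → ZMod p, GG X r u ^ 2 = r ^ 2 := by
      intro u
      unfold GG
      rw [if_neg fun h => h.1 hp]
      ring
    rw [Finset.sum_congr rfl fun u _ => h1 u, Finset.sum_const, Finset.card_univ, nsmul_eq_mul]
    apply mul_le_mul_of_nonneg_left _ (Nat.cast_nonneg _)
    nlinarith [sq_nonneg r]
  · have h1 : ∀ u : Idx g → ZMod p, GG X r u ^ 2 ≤ 2 * X u ^ 2 + 2 * r ^ 2 := by
      intro u
      unfold GG
      split_ifs
      · nlinarith [sq_nonneg (X u + r)]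
      · nlinarith [sq_nonneg (X u), sq_nonneg r]
    refine (Finset.sum_le_sum fun u _ => h1 u).trans ?_
    rw [Finset.sum_add_distrib, ← Finset.mul_sum, Finset.sum_const, Finset.card_univ,
      nsmul_eq_mul]
    have h3 : (Fintype.card (Idx g → ZMod p) : ℝ) = NA p g := rfl
    have h4 := h2 hp
    rw [h3]
    linarith

lemma abs_sum_GG (hc : 0 ≤ c) (h2 : p ≠ 2 → ∑ u, X u ^ 2 ≤ NA p g * c) {R : ℝ} (hR : 0 ≤ R)
    (h1 : p ≠ 2 → |∑ u, X u - NA p g * r| ≤ R * (NA p g / Real.sqrt p)) :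
    |∑ u, GG X r u| ≤ (2 * |r| + R + Real.sqrt (Cb g * c)) * (NA p g / Real.sqrt p) := by
  classical
  have hp0 : (0 : ℝ) < p := by exact_mod_cast (Fact.out : p.Prime).pos
  have hs : 0 < Real.sqrt p := Real.sqrt_pos.2 hp0
  have hCb : 0 ≤ Cb g := Cb_nonneg
  have hN : 0 ≤ NA p g := NA_nonneg
  have hr := abs_nonneg r
  by_cases hp : p = 2
  · have h1 : ∀ u : Idx g → ZMod p, GG X r u = - r := by
      intro u
      unfold GG
      rw [if_neg fun h => h.1 hp]
    rw [Finset.sum_congr rfl fun u _ => h1 u, Finset.sum_const, Finset.card_univ, nsmul_eq_mul,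
      abs_mul, abs_neg, abs_of_nonneg (Nat.cast_nonneg _)]
    have h2 : Real.sqrt p ≤ 2 := by
      rw [Real.sqrt_le_iff, hp]
      norm_num
    have h3 : (Fintype.card (Idx g → ZMod p) : ℝ) = NA p g := rfl
    rw [h3]
    have h4 : 1 ≤ 2 / Real.sqrt p := by rw [le_div_iff₀ hs]; linarith
    have h5 : (2 * |r| + R + Real.sqrt (Cb g * c)) * (NA p g / Real.sqrt p) =
        NA p g * |r| * (2 / Real.sqrt p) +
          (R + Real.sqrt (Cb g * c)) * (NA p g / Real.sqrt p) := by
      ring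
    rw [h5]
    have h6 : 0 ≤ (R + Real.sqrt (Cb g * c)) * (NA p g / Real.sqrt p) := by positivity
    have h7 : 0 ≤ NA p g * |r| := mul_nonneg hN hr
    nlinarith [mul_le_mul_of_nonneg_left h4 h7]
  · have h3 : ∀ u : Idx g → ZMod p, GG X r u = (X u - r) -
        (if u ∈ BA p g then X u else 0) := by
      intro u
      unfold GG
      by_cases hu : u ∈ BA p g
      · rw [if_neg (fun h => h.2 hu), if_pos hu]; ring
      · rw [if_pos ⟨hp, hu⟩, if_neg hu]; ring
    have h4 : ∑ u : Idx g → ZMod p, GG X r u =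
        (∑ u : Idx g → ZMod p, X u - NA p g * r) - ∑ u ∈ BA p g, X u := by
      rw [Finset.sum_congr rfl fun u _ => h3 u, Finset.sum_sub_distrib, Finset.sum_sub_distrib,
        Finset.sum_const, Finset.card_univ, nsmul_eq_mul, ← Finset.sum_filter,
        Finset.filter_mem_eq_inter, Finset.univ_inter]
      rfl
    have h5 : |∑ u ∈ BA p g, X u| ≤
        Real.sqrt (Cb g * c) * (NA p g / Real.sqrt p) := by
      apply abs_le_of_sq_le_sq _ (by positivity)
      have a1 : (∑ u ∈ BA p g, X u) ^ 2 ≤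
          (BA p g).card * ∑ u ∈ BA p g, X u ^ 2 := sq_sum_le_card_mul_sum_sq
      have a2 : ∑ u ∈ BA p g, X u ^ 2 ≤ NA p g * c :=
        (Finset.sum_le_sum_of_subset_of_nonneg (Finset.subset_univ _)
          fun u _ _ => sq_nonneg _).trans (h2 hp)
      have a3 : 0 ≤ ∑ u ∈ BA p g, X u ^ 2 := Finset.sum_nonneg fun u _ => sq_nonneg _
      have a4 : ((BA p g).card : ℝ) ≤ NA p g * (Cb g / p) := card_BA
      have a5 : 0 ≤ NA p g * (Cb g / p) := by positivity
      refine a1.trans ((mul_le_mul a4 a2 a3 a5).trans (le_of_eq ?_))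
      rw [mul_pow, div_pow, Real.sq_sqrt (by positivity), Real.sq_sqrt hp0.le]
      ring
    rw [h4]
    refine (abs_sub _ _).trans ((add_le_add (h1 hp) h5).trans ?_)
    have h6 : 0 ≤ |r| * (NA p g / Real.sqrt p) := by positivity
    nlinarith

end Gen

/-- The index of the basic quantities: the number of good primes, the traces of the squares of
Frobenius, and the products of two traces. -/
abbrev Bs (k : ℕ) : Type := Option (Fin k ⊕ (Fin k × Fin k))

section Basic

variable {k : ℕ} {g : Fin k → ℕ} {p : ℕ} [Fact p.Prime] (K : Type) [Field K]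
  [Algebra (ZMod p) K] [Fintype K]

/-- Twice the basic quantities, divided by `p`. -/
noncomputable def XB : Bs k → (Idx g → ZMod p) → ℝ
  | none, _ => 2
  | some (Sum.inl i), u => - (2 * (ZF i u + WF K i u) / p)
  | some (Sum.inr (i, j)), u => 2 * (SF i u * SF j u) / p

/-- Twice the limit of the basic quantities. -/
def rB : Bs k → ℝ
  | none => 2
  | some (Sum.inl _) => -2
  | some (Sum.inr (i, j)) => if i = j then 2 else 0

lemma XB_none (u : Idx g → ZMod p) : XB K none u = 2 := rfl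

lemma XB_inl (i : Fin k) (u : Idx g → ZMod p) :
    XB K (some (Sum.inl i)) u = - (2 * (ZF i u + WF K i u) / p) := rfl

lemma XB_inr (i j : Fin k) (u : Idx g → ZMod p) :
    XB K (some (Sum.inr (i, j))) u = 2 * (SF i u * SF j u) / p := rfl

lemma rB_none : rB (none : Bs k) = 2 := rfl

lemma rB_inl (i : Fin k) : rB (some (Sum.inl i)) = -2 := rfl

lemma rB_inr (i j : Fin k) : rB (some (Sum.inr (i, j))) = if i = j then 2 else 0 := rfl

lemma rB_abs (b : Bs k) : |rB b| ≤ 2 := by
  rcases b with _ | i | ⟨i, j⟩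
  · rw [rB_none]; norm_num
  · rw [rB_inl]; norm_num
  · rw [rB_inr]
    split_ifs <;> norm_num

lemma ZF_nonneg (i : Fin k) (u : Idx g → ZMod p) : 0 ≤ ZF i u :=
  Finset.sum_nonneg fun _ _ => sq_nonneg _

lemma ZF_le (i : Fin k) (u : Idx g → ZMod p) : ZF i u ≤ p + 1 := by
  unfold ZF
  calc _ ≤ ∑ _P : Option (ZMod p), (1 : ℝ) := by
        refine Finset.sum_le_sum fun P _ => ?_
        rw [← sq_abs]
        have := cc_abs i P u
        nlinarith [abs_nonneg (cc i P u)]
    _ = _ := by rw [Finset.sum_const, Finset.card_univ, nsmul_eq_mul, mul_one, card_opt]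

lemma sum_ZF' (i : Fin k) :
    ∑ u : Idx g → ZMod p, ZF i u = NA p g * (p - 1 / p) := by
  have hp0 : (0 : ℝ) < p := by exact_mod_cast (Fact.out : p.Prime).pos
  rw [sum_ZF]
  unfold NA
  field_simp
  ring

lemma small (hp1 : (1 : ℝ) ≤ p) : 2 / (p : ℝ) ^ 2 ≤ 2 / Real.sqrt p := by
  have hp0 : (0 : ℝ) < p := by linarith
  apply div_le_div_of_nonneg_left (by norm_num) (Real.sqrt_pos.2 hp0)
  calc Real.sqrt p ≤ p := by
        rw [Real.sqrt_le_left hp0.le]
        nlinarith
    _ ≤ (p : ℝ) ^ 2 := by nlinarith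

lemma sum_XB (hp : p ≠ 2) (hK : Fintype.card K = p ^ 2) (b : Bs k) :
    |∑ u : Idx g → ZMod p, XB K b u - NA p g * rB b| ≤ 2 * (NA p g / Real.sqrt p) := by
  have hp0 : (0 : ℝ) < p := by exact_mod_cast (Fact.out : p.Prime).pos
  have hp1 : (1 : ℝ) ≤ p := by exact_mod_cast (Fact.out : p.Prime).one_le
  have hN : 0 ≤ NA p g := NA_nonneg
  have hfin : NA p g * (2 / (p : ℝ) ^ 2) ≤ 2 * (NA p g / Real.sqrt p) := by
    calc _ ≤ NA p g * (2 / Real.sqrt p) := mul_le_mul_of_nonneg_left (small hp1) hN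
      _ = _ := by ring
  rcases b with _ | i | ⟨i, j⟩
  · simp_rw [XB_none]
    rw [rB_none, Finset.sum_const, Finset.card_univ, nsmul_eq_mul]
    have h3 : (Fintype.card (Idx g → ZMod p) : ℝ) = NA p g := rfl
    rw [h3, sub_self, abs_zero]
    positivity
  · simp_rw [XB_inl]
    rw [rB_inl]
    have h : ∑ u : Idx g → ZMod p, - (2 * (ZF i u + WF K i u) / p) =
        - (2 * (NA p g * (p - 1 / p)) / p) := by
      rw [Finset.sum_neg_distrib, ← Finset.sum_div, ← Finset.mul_sum, Finset.sum_add_distrib,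
        sum_ZF', sum_WF K hp hK, add_zero]
    rw [h]
    have e : - (2 * (NA p g * (p - 1 / p)) / p) - NA p g * (-2) = NA p g * (2 / (p : ℝ) ^ 2) := by
      field_simp
      ring
    rw [e, abs_of_nonneg (by positivity)]
    exact hfin
  · simp_rw [XB_inr]
    rw [rB_inr]
    by_cases hij : i = j
    · subst hij
      rw [if_pos rfl]
      have h : ∑ u : Idx g → ZMod p, 2 * (SF i u * SF i u) / p =
          2 * (NA p g * (p - 1 / p)) / p := by
        rw [← Finset.sum_div, ← Finset.mul_sum, ← sum_ZF' i, ← sum_SF_sq hp i]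
        simp_rw [sq]
      rw [h]
      have e : 2 * (NA p g * (p - 1 / p)) / p - NA p g * 2 =
          - (NA p g * (2 / (p : ℝ) ^ 2)) := by
        field_simp
        ring
      rw [e, abs_neg, abs_of_nonneg (by positivity)]
      exact hfin
    · rw [if_neg hij]
      have h : ∑ u : Idx g → ZMod p, 2 * (SF i u * SF j u) / p = 0 := by
        rw [← Finset.sum_div, ← Finset.mul_sum, sum_cross hp (Ne.symm hij), mul_zero, zero_div]
      rw [h, mul_zero, sub_zero, abs_zero]
      positivity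

lemma sum_XB_sq (hp : p ≠ 2) (hK : Fintype.card K = p ^ 2) (hg : ∀ i, 1 ≤ g i) (b : Bs k) :
    ∑ u : Idx g → ZMod p, XB K b u ^ 2 ≤ NA p g * 48 := by
  have hp0 : (0 : ℝ) < p := by exact_mod_cast (Fact.out : p.Prime).pos
  have hp1 : (1 : ℝ) ≤ p := by exact_mod_cast (Fact.out : p.Prime).one_le
  have hN : 0 ≤ NA p g := NA_nonneg
  have h3 : (Fintype.card (Idx g → ZMod p) : ℝ) = NA p g := rfl
  rcases b with _ | i | ⟨i, j⟩
  · simp_rw [XB_none]
    rw [Finset.sum_const, Finset.card_univ, nsmul_eq_mul, h3]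
    apply mul_le_mul_of_nonneg_left _ hN
    norm_num
  · simp_rw [XB_inl]
    have h : ∀ u : Idx g → ZMod p, (- (2 * (ZF i u + WF K i u) / p)) ^ 2 ≤
        (8 * ((p : ℝ) + 1) ^ 2 + 8 * WF K i u ^ 2) / (p : ℝ) ^ 2 := by
      intro u
      rw [neg_sq, div_pow]
      apply div_le_div_of_nonneg_right _ (by positivity)
      have h1 : ZF i u ^ 2 ≤ ((p : ℝ) + 1) ^ 2 :=
        pow_le_pow_left₀ (ZF_nonneg i u) (ZF_le i u) 2
      nlinarith [sq_nonneg (ZF i u - WF K i u)]
    refine (Finset.sum_le_sum fun u _ => h u).trans ?_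
    rw [← Finset.sum_div, Finset.sum_add_distrib, Finset.sum_const, Finset.card_univ,
      nsmul_eq_mul, h3, ← Finset.mul_sum, div_le_iff₀ (by positivity)]
    have h4 := sum_WF_sq K hp hK i (hg i)
    rw [h3] at h4
    have h5 : ((p : ℝ) + 1) ^ 2 ≤ 4 * (p : ℝ) ^ 2 := by nlinarith
    nlinarith [mul_le_mul_of_nonneg_left h5 hN]
  · simp_rw [XB_inr]
    have h : ∀ u : Idx g → ZMod p, (2 * (SF i u * SF j u) / p) ^ 2 ≤
        (2 * SF i u ^ 4 + 2 * SF j u ^ 4) / (p : ℝ) ^ 2 := by
      intro u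
      rw [div_pow]
      apply div_le_div_of_nonneg_right _ (by positivity)
      nlinarith [sq_nonneg (SF i u ^ 2 - SF j u ^ 2)]
    refine (Finset.sum_le_sum fun u _ => h u).trans ?_
    rw [← Finset.sum_div, Finset.sum_add_distrib, ← Finset.mul_sum, ← Finset.mul_sum,
      div_le_iff₀ (by positivity)]
    have h4 := sum_SF_four hp i (hg i)
    have h4' := sum_SF_four hp j (hg j)
    rw [h3] at h4 h4'
    have h5 : ((p : ℝ) + 1) ^ 2 ≤ 4 * (p : ℝ) ^ 2 := by nlinarith
    nlinarith [mul_le_mul_of_nonneg_left h5 hN]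

end Basic

section Link

variable {p : ℕ} [Fact p.Prime] {k : ℕ} {g : Fin k → ℕ}

lemma map_pol (a : Idx g → ℤ) (i : Fin k) :
    (pol a i).map (Int.castRingHom (ZMod p)) = pl (blk i (red p a)) := by
  unfold pol pl
  rw [Polynomial.map_sum]
  refine Finset.sum_congr rfl fun j _ => ?_
  rw [Polynomial.map_mul, Polynomial.map_C, Polynomial.map_pow, Polynomial.map_X]
  rfl

lemma good_iff (a : Idx g → ℤ) : Good p g (pol a) ↔ p ≠ 2 ∧ red p a ∉ BA p g := by
  classical
  unfold Good BA
  rw [Finset.mem_filter, not_and_not_right]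
  simp_rw [map_pol]
  constructor
  · rintro ⟨h1, h2⟩; exact ⟨h1, fun _ => h2⟩
  · rintro ⟨h1, h2⟩; exact ⟨h1, h2 (Finset.mem_univ _)⟩

lemma trace_eq (hp : p ≠ 2) (a : Idx g → ℤ) (i : Fin k) :
    trace p (g i) (pol a i) = - SF i (red p a) := by
  unfold trace
  have h := points_eq (p := p) (ZMod p) hp a i
  rw [ZMod.card] at h
  rw [h]
  unfold SF cc
  ring

lemma trace₂_eq [Fintype (GaloisField p 2)] (hp : p ≠ 2) (a : Idx g → ℤ) (i : Fin k) :
    trace₂ p (g i) (pol a i) =
      - (ZF i (red p a) + WF (GaloisField p 2) i (red p a)) := by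
  unfold trace₂
  rw [dif_pos (Fact.out : p.Prime)]
  have hK : Fintype.card (GaloisField p 2) = p ^ 2 := by
    rw [Fintype.card_eq_nat_card]
    exact GaloisField.card p 2 (by norm_num)
  have h := points_eq (p := p) (GaloisField p 2) hp a i
  rw [sum_optionK (GaloisField p 2) hp hK, hK] at h
  push_cast at h
  rw [h]
  ring

/-- Twice the basic quantities divided by `p`, as functions of the integral coefficients. -/
noncomputable def XI (p : ℕ) (a : Idx g → ℤ) : Bs k → ℝ
  | none => 2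
  | some (Sum.inl i) => 2 * trace₂ p (g i) (pol a i) / p
  | some (Sum.inr (i, j)) => 2 * (trace p (g i) (pol a i) * trace p (g j) (pol a j)) / p

lemma XI_eq [Fintype (GaloisField p 2)] (hp : p ≠ 2) (a : Idx g → ℤ) (b : Bs k) :
    XI p a b = XB (GaloisField p 2) b (red p a) := by
  rcases b with _ | i | ⟨i, j⟩
  · rfl
  · change 2 * trace₂ p (g i) (pol a i) / (p : ℝ) =
      - (2 * (ZF i (red p a) + WF (GaloisField p 2) i (red p a)) / p)
    rw [trace₂_eq hp]
    ring
  · change 2 * (trace p (g i) (pol a i) * trace p (g j) (pol a j)) / (p : ℝ) =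
      2 * (SF i (red p a) * SF j (red p a)) / p
    rw [trace_eq hp, trace_eq hp]
    ring

end Link

section Family

variable {k : ℕ} (g : Fin k → ℕ)

open Classical in
/-- The term of the prime `p` for a basic quantity. -/
noncomputable def tmB (b : Bs k) (p : ℕ) (a : Idx g → ℤ) : ℝ :=
  if Good p g (pol a) then XI p a b - rB b else - rB b

/-- The term as a function of the coefficients modulo `p`. -/
noncomputable def ffB (b : Bs k) (p : ℕ) (u : Idx g → ZMod p) : ℝ :=
  if h : p.Prime then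
    haveI : Fact p.Prime := ⟨h⟩
    letI : Fintype (GaloisField p 2) := Fintype.ofFinite _
    GG (XB (GaloisField p 2) b) (rB b) u
  else 0

variable {g}

lemma ffB_eq (b : Bs k) (p : ℕ) [Fact p.Prime] (u : Idx g → ZMod p) :
    ffB g b p u =
      GG (@XB _ g p _ (GaloisField p 2) _ _ (Fintype.ofFinite _) b) (rB b) u := by
  unfold ffB
  rw [dif_pos (Fact.out : p.Prime)]

lemma cardK (p : ℕ) [Fact p.Prime] :
    @Fintype.card (GaloisField p 2) (Fintype.ofFinite _) = p ^ 2 := by
  rw [@Fintype.card_eq_nat_card _ (Fintype.ofFinite _)]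
  exact GaloisField.card p 2 (by norm_num)

/-- The constant in the mean. -/
noncomputable def C1 (g : Fin k → ℕ) : ℝ := 6 + Real.sqrt (Cb g * 48)

/-- The families of the basic quantities. -/
noncomputable def famB (hg : ∀ i, 1 ≤ g i) (b : Bs k) : Fam (Idx g) (C1 g) 104 where
  tm := tmB g b
  ff := ffB g b
  hC := by unfold C1; positivity
  hD := by norm_num
  tm_eq := by
    intro p _ a
    classical
    let _ : Fintype (GaloisField p 2) := Fintype.ofFinite _
    rw [ffB_eq]
    unfold tmB GG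
    by_cases h : Good p g (pol a)
    · have h1 := (good_iff a).1 h
      rw [if_pos h]
      have h2 : (p ≠ 2 ∧ (fun m => ((a m : ℤ) : ZMod p)) ∉ BA p g) := h1
      rw [if_pos h2, XI_eq h1.1]
      rfl
    · rw [if_neg h]
      have h2 : ¬ (p ≠ 2 ∧ (fun m => ((a m : ℤ) : ZMod p)) ∉ BA p g) :=
        fun h3 => h ((good_iff a).2 h3)
      rw [if_neg h2]
  mean := by
    intro p _
    rw [← NA_eq]
    simp_rw [ffB_eq]
    refine (abs_sum_GG (by norm_num : (0 : ℝ) ≤ 48)
      (fun hp => @sum_XB_sq _ g p _ (GaloisField p 2) _ _ (Fintype.ofFinite _) hp (cardK p) hg b)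
      (by norm_num : (0 : ℝ) ≤ 2)
      (fun hp => @sum_XB _ g p _ (GaloisField p 2) _ _ (Fintype.ofFinite _) hp (cardK p) b)).trans ?_
    apply mul_le_mul_of_nonneg_right _ (div_nonneg NA_nonneg (Real.sqrt_nonneg _))
    unfold C1
    have := rB_abs b
    linarith
  second := by
    intro p _
    rw [← NA_eq, mul_comm]
    simp_rw [ffB_eq]
    refine (sum_GG_sq (by norm_num : (0 : ℝ) ≤ 48)
      (fun hp => @sum_XB_sq _ g p _ (GaloisField p 2) _ _ (Fintype.ofFinite _) hp
        (cardK p) hg b)).trans ?_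
    apply mul_le_mul_of_nonneg_left _ NA_nonneg
    have h1 := rB_abs b
    have h2 : rB b ^ 2 ≤ 4 := by
      rw [← sq_abs]
      nlinarith [abs_nonneg (rB b)]
    linarith

end Family

end Pool.Agent.Helper28.TC
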