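import Pool.Agent.Helper28.TC.Fej

set_option autoImplicit false

namespace Pool.Agent.Helper28.TC

open Finset

/-- The integer vectors with entries in `[-B, B]`. -/
noncomputable def bx (J : Type) [Fintype J] [DecidableEq J] (B : ℕ) : Finset (J → ℤ) :=
  Fintype.piFinset fun _ => Finset.Icc (-(B : ℤ)) B

section Weight

variable {M : ℕ} [NeZero M] (H : ℕ) {J : Type} [Fintype J] [DecidableEq J]

/-- The weight. -/
noncomputable def WW (a : J → ZMod M) : ℝ := ∏ j, ker H (a j)

lemma WW_nonneg (a : J → ZMod M) : 0 ≤ WW H a := Finset.prod_nonneg fun _ _ => ker_nonneg H _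

variable {A : Type} [AddCommGroup A] [DecidableEq A] [Fintype A]

lemma sum_WW (π : ZMod M →+ A) (hπ : Function.Surjective π) (n : ℕ)
    (hn : π (n : ZMod M) = 0) (hn0 : 0 < n) (hnH : n * H < M) (G : (J → A) → ℝ) :
    ∑ a : J → ZMod M, WW H a * G (fun j => π (a j)) =
      ((H + 1) * M / Fintype.card A : ℝ) ^ Fintype.card J * ∑ u : J → A, G u := by
  classical
  rw [← Finset.sum_fiberwise (univ : Finset (J → ZMod M)) (fun a => fun j => π (a j))]
  rw [Finset.mul_sum]
  refine Finset.sum_congr rfl fun u _ => ?_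
  have h1 : ∑ a ∈ (univ : Finset (J → ZMod M)).filter (fun a => (fun j => π (a j)) = u),
      WW H a * G (fun j => π (a j)) =
      (∑ a ∈ (univ : Finset (J → ZMod M)).filter (fun a => (fun j => π (a j)) = u),
      WW H a) * G u := by
    rw [Finset.sum_mul]
    refine Finset.sum_congr rfl fun a ha => ?_
    rw [(Finset.mem_filter.1 ha).2]
  rw [h1]
  congr 1
  have h2 : (univ : Finset (J → ZMod M)).filter (fun a => (fun j => π (a j)) = u) =
      Fintype.piFinset fun j => (univ : Finset (ZMod M)).filter (fun a => π a = u j) := by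
    ext a
    rw [Finset.mem_filter, Fintype.mem_piFinset]
    constructor
    · intro h j
      rw [Finset.mem_filter]
      exact ⟨Finset.mem_univ _, congrFun h.2 j⟩
    · intro h
      exact ⟨Finset.mem_univ _, funext fun j => (Finset.mem_filter.1 (h j)).2⟩
  rw [h2]
  unfold WW
  rw [← Finset.prod_univ_sum]
  have h3 : ∀ j : J, ∑ a ∈ (univ : Finset (ZMod M)).filter (fun a => π a = u j), ker H a =
      (H + 1) * M / Fintype.card A := by
    intro j
    rw [sum_ker_fiber H π n hn hn0 hnH, card_fiber π hπ, mul_div_assoc]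
  rw [Finset.prod_congr rfl fun j _ => h3 j, Finset.prod_const, Finset.card_univ]

end Weight

section Lower

variable {M : ℕ} [NeZero M] (H : ℕ) {J : Type} [Fintype J] [DecidableEq J]

lemma ker_lower {B : ℕ} (hB : 8 * H * B ≤ M) {a : ℤ} (ha : |a| ≤ B) :
    ((H : ℝ) + 1) ^ 2 / 2 ≤ ker H ((a : ℤ) : ZMod M) := by
  have hM : (0 : ℝ) < M := by exact_mod_cast Nat.pos_of_ne_zero (NeZero.ne M)
  have h1 : ((H : ℝ) + 1) * (Real.sqrt 2 / 2) ≤ (kerC H ((a : ℤ) : ZMod M)).re := by
    unfold kerC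
    rw [Complex.re_sum]
    have h2 : ∀ h ∈ range (H + 1), Real.sqrt 2 / 2 ≤
        ((ZMod.stdAddChar ((h : ZMod M) * ((a : ℤ) : ZMod M)) : ℂ)).re := by
      intro h hh
      rw [Finset.mem_range] at hh
      have h3 : ((h : ZMod M) * ((a : ℤ) : ZMod M)) = (((h : ℤ) * a : ℤ) : ZMod M) := by
        push_cast; ring
      rw [h3, ZMod.stdAddChar_coe]
      have h4 : (2 * (Real.pi : ℂ) * Complex.I * (((h : ℤ) * a : ℤ) : ℂ) / (M : ℂ)) =
          ((2 * Real.pi * ((h : ℝ) * (a : ℝ)) / M : ℝ) : ℂ) * Complex.I := by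
        push_cast; ring
      rw [h4, Complex.exp_ofReal_mul_I_re, ← Real.cos_pi_div_four,
        ← Real.cos_abs (2 * Real.pi * ((h : ℝ) * (a : ℝ)) / M)]
      have h5 : |2 * Real.pi * ((h : ℝ) * (a : ℝ)) / M| ≤ Real.pi / 4 := by
        rw [abs_div, abs_mul, abs_of_pos (by positivity : 0 < 2 * Real.pi), abs_mul,
          abs_of_pos hM, div_le_iff₀ hM]
        have h6 : |(h : ℝ)| ≤ H := by
          rw [abs_of_nonneg (by positivity)]; exact_mod_cast Nat.lt_succ_iff.1 hh
        have h7 : |(a : ℝ)| ≤ B := by exact_mod_cast ha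
        have h8 : |(h : ℝ)| * |(a : ℝ)| ≤ H * B := mul_le_mul h6 h7 (abs_nonneg _) (by positivity)
        have h9 : (8 : ℝ) * H * B ≤ M := by exact_mod_cast hB
        nlinarith [Real.pi_pos]
      apply Real.cos_le_cos_of_nonneg_of_le_pi (abs_nonneg _) _ h5
      linarith [Real.pi_pos]
    refine le_trans ?_ (Finset.sum_le_sum h2)
    rw [Finset.sum_const, Finset.card_range, nsmul_eq_mul]
    push_cast
    exact le_rfl
  have h2 : ((H : ℝ) + 1) * (Real.sqrt 2 / 2) ≤ ‖kerC H ((a : ℤ) : ZMod M)‖ :=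
    h1.trans (Complex.re_le_norm _)
  unfold ker
  have h3 : (0 : ℝ) ≤ ((H : ℝ) + 1) * (Real.sqrt 2 / 2) := by positivity
  have h4 := pow_le_pow_left₀ h3 h2 2
  have h5 : (((H : ℝ) + 1) * (Real.sqrt 2 / 2)) ^ 2 = ((H : ℝ) + 1) ^ 2 / 2 := by
    rw [mul_pow, div_pow, Real.sq_sqrt (by norm_num)]; ring
  rw [h5] at h4
  exact h4

lemma box_le {B : ℕ} (hB : 8 * H * B ≤ M) (hBM : 2 * B < M)
    (Y : (J → ZMod M) → ℝ) (hY : ∀ a, 0 ≤ Y a) :
    ∑ a ∈ bx J B, Y (fun m => ((a m : ℤ) : ZMod M)) ≤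
      (2 / ((H : ℝ) + 1) ^ 2) ^ Fintype.card J *
        ∑ a : J → ZMod M, WW H a * Y a := by
  classical
  have hH : (0 : ℝ) < ((H : ℝ) + 1) ^ 2 := by positivity
  have h1 : ∀ a ∈ bx J B, Y (fun m => ((a m : ℤ) : ZMod M)) ≤
      (2 / ((H : ℝ) + 1) ^ 2) ^ Fintype.card J *
        (WW H (fun m => ((a m : ℤ) : ZMod M)) * Y (fun m => ((a m : ℤ) : ZMod M))) := by
    intro a ha
    have h2 : (((H : ℝ) + 1) ^ 2 / 2) ^ Fintype.card J ≤
        WW H (fun m => ((a m : ℤ) : ZMod M)) := by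
      unfold WW
      rw [← Finset.card_univ, ← Finset.prod_const]
      apply Finset.prod_le_prod
      · intro _ _; positivity
      · intro m _
        apply ker_lower H hB
        have := (Fintype.mem_piFinset.1 ha) m
        rw [Finset.mem_Icc] at this
        rw [abs_le]; exact this
    have h3 : (1 : ℝ) ≤ (2 / ((H : ℝ) + 1) ^ 2) ^ Fintype.card J *
        WW H (fun m => ((a m : ℤ) : ZMod M)) := by
      calc (1 : ℝ) = (2 / ((H : ℝ) + 1) ^ 2) ^ Fintype.card J *
          (((H : ℝ) + 1) ^ 2 / 2) ^ Fintype.card J := by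
            rw [← mul_pow]
            have : (2 / ((H : ℝ) + 1) ^ 2) * (((H : ℝ) + 1) ^ 2 / 2) = 1 := by field_simp
            rw [this, one_pow]
        _ ≤ _ := mul_le_mul_of_nonneg_left h2 (by positivity)
    rw [← mul_assoc]
    have := mul_le_mul_of_nonneg_right h3 (hY (fun m => ((a m : ℤ) : ZMod M)))
    linarith
  refine (Finset.sum_le_sum h1).trans ?_
  rw [← Finset.mul_sum]
  apply mul_le_mul_of_nonneg_left _ (by positivity)
  have hinj : Set.InjOn (fun (a : J → ℤ) => (fun m => ((a m : ℤ) : ZMod M)))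
      (bx J B : Set (J → ℤ)) := by
    intro a ha b hb hab
    funext m
    have h2 := congrFun hab m
    have h3 := (Fintype.mem_piFinset.1 (Finset.mem_coe.1 ha)) m
    have h4 := (Fintype.mem_piFinset.1 (Finset.mem_coe.1 hb)) m
    rw [Finset.mem_Icc] at h3 h4
    have h5 : ((a m : ℤ) : ZMod M) = ((b m : ℤ) : ZMod M) := h2
    rw [ZMod.intCast_eq_intCast_iff_dvd_sub] at h5
    have h6 : b m - a m = 0 := by
      apply Int.eq_zero_of_abs_lt_dvd h5
      rw [abs_lt]
      have : (2 * (B : ℤ)) < M := by exact_mod_cast hBM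
      constructor <;> omega
    omega
  calc ∑ a ∈ bx J B, WW H (fun m => ((a m : ℤ) : ZMod M)) * Y (fun m => ((a m : ℤ) : ZMod M))
      = ∑ b ∈ (bx J B).image (fun (a : J → ℤ) => (fun m => ((a m : ℤ) : ZMod M))),
          WW H b * Y b := by
        rw [Finset.sum_image hinj]
    _ ≤ _ := Finset.sum_le_sum_of_subset_of_nonneg (Finset.subset_univ _)
        fun b _ _ => mul_nonneg (WW_nonneg H b) (hY b)

lemma card_box (B : ℕ) : ((bx J B).card : ℝ) = (2 * (B : ℝ) + 1) ^ Fintype.card J := by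
  unfold bx
  rw [Fintype.card_piFinset, Finset.prod_const, Finset.card_univ, Int.card_Icc]
  have h : ((B : ℤ) + 1 - (-(B : ℤ))).toNat = 2 * B + 1 := by omega
  rw [h]
  push_cast
  ring

end Lower

end Pool.Agent.Helper28.TC
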