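import Mathlib

set_option autoImplicit false

namespace Pool.Agent.Helper28.TC

open Polynomial

/-- The indices of the coefficients of a tuple of polynomials, the polynomial `i` of degree at most
`2 * g i + 2`. -/
abbrev Idx {k : ℕ} (g : Fin k → ℕ) : Type := Σ i : Fin k, Fin (2 * g i + 3)

/-- The tuples of coefficients with entries in `[-B, B]`. -/
noncomputable def box {k : ℕ} (g : Fin k → ℕ) (B : ℕ) : Finset (Idx g → ℤ) :=
  Fintype.piFinset fun _ => Finset.Icc (-(B : ℤ)) B

/-- The polynomial `i` of the tuple with coefficients `a`. -/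
noncomputable def pol {k : ℕ} {g : Fin k → ℕ} (a : Idx g → ℤ) (i : Fin k) : ℤ[X] :=
  ∑ j : Fin (2 * g i + 3), C (a ⟨i, j⟩) * X ^ (j : ℕ)

/-- The number of points over the finite field `K` of the hyperelliptic curve `y ^ 2 = f(x)` of
genus `g`, where `f` has degree `2 * g + 1` or `2 * g + 2`: the affine points and the points at
infinity. -/
noncomputable def points (K : Type) [CommRing K] (g : ℕ) (f : ℤ[X]) : ℝ :=
  Nat.card {z : K × K // z.2 ^ 2 = aeval z.1 f} +
    Nat.card {y : K // y ^ 2 = (f.coeff (2 * g + 2) : K)}

/-- The trace of Frobenius on the first cohomology group of the curve `y ^ 2 = f(x)` at `p`. -/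
noncomputable def trace (p g : ℕ) (f : ℤ[X]) : ℝ := (p : ℝ) + 1 - points (ZMod p) g f

/-- The trace of the square of Frobenius on the first cohomology group of the curve
`y ^ 2 = f(x)` at the prime `p`. -/
noncomputable def trace₂ (p g : ℕ) (f : ℤ[X]) : ℝ :=
  if h : p.Prime then
    haveI : Fact p.Prime := ⟨h⟩
    (p : ℝ) ^ 2 + 1 - points (GaloisField p 2) g f
  else 0

/-- The trace of Frobenius on the second cohomology group of the product `V` of the powers
`C i ^ m i` of the curves `C i : y ^ 2 = f i` and the powers `J i ^ n i` of their Jacobians, by the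
Kunneth formula: `p` for each curve, half of the trace squared minus the trace of the square of
Frobenius for each Jacobian, and the product of the traces on the first cohomology groups for each
pair of factors. -/
noncomputable def bp {k : ℕ} (p : ℕ) (g m n : Fin k → ℕ) (f : Fin k → ℤ[X]) : ℝ :=
  ∑ i, ((m i : ℝ) * p + n i * ((trace p (g i) (f i) ^ 2 - trace₂ p (g i) (f i)) / 2)) +
    ((∑ i, ((m i : ℝ) + n i) * trace p (g i) (f i)) ^ 2 -
      ∑ i, ((m i : ℝ) + n i) * trace p (g i) (f i) ^ 2) / 2

/-- The prime `p` is odd and the curves `y ^ 2 = f i` have good reduction modulo `p`: the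
polynomials `f i` modulo `p` are squarefree of degree `2 * g i + 1` or `2 * g i + 2`. -/
def Good {k : ℕ} (p : ℕ) (g : Fin k → ℕ) (f : Fin k → ℤ[X]) : Prop :=
  p ≠ 2 ∧ ∀ i, Squarefree ((f i).map (Int.castRingHom (ZMod p))) ∧
    2 * g i + 1 ≤ ((f i).map (Int.castRingHom (ZMod p))).natDegree

open Classical in
/-- The average of the Tauberian Tate conjecture over the primes of good reduction up to `T`. -/
noncomputable def average {k : ℕ} (T : ℕ) (g m n : Fin k → ℕ) (f : Fin k → ℤ[X]) : ℝ :=
  (∑ p ∈ (Finset.Icc 1 T).filter (fun p => p.Prime ∧ Good p g f),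
    bp p g m n f * Real.log p / p) / T

/-- The rank of the Neron-Severi group of the product, if the Jacobians have no endomorphisms
except the integers and there are no homomorphisms between them. -/
noncomputable def rk {k : ℕ} (m n : Fin k → ℕ) : ℝ :=
  ∑ i, ((m i : ℝ) + n i) * ((m i : ℝ) + n i + 1) / 2

end Pool.Agent.Helper28.TC
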