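import Pool.Agent.Helper28.TC.Curves

set_option autoImplicit false

namespace Pool.Agent.Helper28.TC

open Polynomial Finset

section Vanish

variable {A K : Type} [AddCommGroup A] [Fintype A] [AddCommGroup K] [Fintype K]

lemma vanish (L : A →+ K) (Φ : A → ℝ) (ψ : K → ℝ) (hψ : ∑ s, ψ s = 0)
    (h : ∀ s, ∃ v, L v = s ∧ ∀ a, Φ (a + v) = Φ a) : ∑ a, ψ (L a) * Φ a = 0 := by
  choose v hv hΦ using h
  have h1 : ∀ s : K, ∑ a, ψ (L a) * Φ a = ∑ a, ψ (L a + s) * Φ a := by
    intro s
    rw [← Equiv.sum_comp (Equiv.addRight (v s))]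
    refine Finset.sum_congr rfl fun a _ => ?_
    rw [Equiv.coe_addRight, map_add, hv, hΦ]
  have h2 : ∑ _s : K, ∑ a, ψ (L a) * Φ a = 0 := by
    rw [Finset.sum_congr rfl fun s _ => h1 s, Finset.sum_comm]
    refine Finset.sum_eq_zero fun a _ => ?_
    rw [← Finset.sum_mul]
    have : ∑ s : K, ψ (L a + s) = ∑ s, ψ s := Equiv.sum_comp (Equiv.addLeft (L a)) ψ
    rw [this, hψ, zero_mul]
  rw [Finset.sum_const, Finset.card_univ, nsmul_eq_mul] at h2
  have h3 : (Fintype.card K : ℝ) ≠ 0 := by
    exact_mod_cast (Fintype.card_pos (α := K)).ne'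
  rcases mul_eq_zero.1 h2 with h | h
  · exact absurd h h3
  · exact h

lemma sum_comp (L : A →+ K) (hL : Function.Surjective L) (ψ : K → ℝ) :
    ∑ a, ψ (L a) = Fintype.card A * ((∑ s, ψ s) / Fintype.card K) := by
  have h3 : (Fintype.card K : ℝ) ≠ 0 := by
    exact_mod_cast (Fintype.card_pos (α := K)).ne'
  have h := vanish L (fun _ => 1) (fun s => ψ s - (∑ s, ψ s) / Fintype.card K)
    (by
      rw [Finset.sum_sub_distrib, Finset.sum_const, Finset.card_univ, nsmul_eq_mul]
      field_simp
      ring)
    (fun s => by
      obtain ⟨v, hv⟩ := hL s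
      exact ⟨v, hv, fun _ => rfl⟩)
  simp only [mul_one] at h
  rw [Finset.sum_sub_distrib, Finset.sum_const, Finset.card_univ, nsmul_eq_mul] at h
  linarith

end Vanish

section Ev

variable {p : ℕ} (K : Type) [CommRing K] [Algebra (ZMod p) K] {D : ℕ}

/-- The value of the binary form with coefficients `w` at a point of the projective line. -/
def ev : Option K → (Fin (D + 1) → ZMod p) → K
  | none, w => algebraMap _ _ (w (Fin.last D))
  | some x, w => ∑ j, algebraMap _ _ (w j) * x ^ (j : ℕ)

/-- The value as a homomorphism. -/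
def evH (P : Option K) : (Fin (D + 1) → ZMod p) →+ K where
  toFun := ev K P
  map_zero' := by
    cases P with
    | none => simp [ev]
    | some x => simp [ev]
  map_add' := by
    intro w w'
    cases P with
    | none => simp [ev]
    | some x => simp [ev, add_mul, Finset.sum_add_distrib]

/-- The coefficient vector of a polynomial. -/
def co (D : ℕ) (h : (ZMod p)[X]) : Fin (D + 1) → ZMod p := fun j => h.coeff j

variable {K}

lemma ev_none (h : (ZMod p)[X]) : ev K none (co D h) = algebraMap _ _ (h.coeff D) := by
  unfold ev co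
  simp

lemma ev_some (x : K) {h : (ZMod p)[X]} (hh : h.natDegree ≤ D) :
    ev K (some x) (co D h) = aeval x h := by
  unfold ev co
  rw [aeval_eq_sum_range' (Nat.lt_succ_of_le hh), Finset.sum_range]
  refine Finset.sum_congr rfl fun j _ => ?_
  rw [Algebra.smul_def]

end Ev

section Sep

variable {p : ℕ} [Fact p.Prime] {D : ℕ}

/-- The forms separate points. -/
lemma sep (S : Finset (Option (ZMod p))) (hS : S.card ≤ D) (P : Option (ZMod p)) (hP : P ∉ S)
    (s : ZMod p) : ∃ v : Fin (D + 1) → ZMod p, ev (ZMod p) P v = s ∧
      ∀ Q ∈ S, ev (ZMod p) Q v = 0 := by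
  classical
  obtain ⟨S', hS'⟩ : ∃ S' : Finset (ZMod p), S' = S.eraseNone := ⟨_, rfl⟩
  have hmem : ∀ x, x ∈ S' ↔ some x ∈ S := by
    intro x; rw [hS', Finset.mem_eraseNone]
  have hcard : S'.card ≤ S.card := by
    rw [← Finset.card_map Function.Embedding.some]
    apply Finset.card_le_card
    intro y hy
    rw [Finset.mem_map] at hy
    obtain ⟨x, hx, rfl⟩ := hy
    exact (hmem x).1 hx
  set h0 : (ZMod p)[X] := ∏ x ∈ S', (X - C x) with hh0
  have hmon : h0.Monic := monic_prod_of_monic _ _ fun x _ => monic_X_sub_C x
  have hdeg : h0.natDegree = S'.card := by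
    rw [hh0, natDegree_prod_of_monic _ _ fun x _ => monic_X_sub_C x]
    simp
  have hroot : ∀ x ∈ S', h0.eval x = 0 := by
    intro x hx
    rw [hh0, eval_prod]
    exact Finset.prod_eq_zero hx (by simp)
  cases P with
  | none =>
      have hc : S'.card + (D - S'.card) = D := by omega
      have hdeg1 : (h0 * X ^ (D - S'.card)).natDegree = D := by
        rw [hmon.natDegree_mul (monic_X_pow _), hdeg, natDegree_X_pow, hc]
      have hmon1 : (h0 * X ^ (D - S'.card)).Monic := hmon.mul (monic_X_pow _)
      refine ⟨co D (C s * (h0 * X ^ (D - S'.card))), ?_, ?_⟩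
      · rw [ev_none, coeff_C_mul]
        have : (h0 * X ^ (D - S'.card)).coeff D = 1 := by
          have := hmon1.coeff_natDegree
          rwa [hdeg1] at this
        rw [this, mul_one]
        rfl
      · intro Q hQ
        cases Q with
        | none => exact absurd hQ hP
        | some x =>
            rw [ev_some]
            · have h1 := hroot x ((hmem x).2 hQ)
              simp [coe_aeval_eq_eval, h1]
            · exact (natDegree_C_mul_le _ _).trans hdeg1.le
  | some y =>
      have hy : h0.eval y ≠ 0 := by
        rw [hh0, eval_prod, Finset.prod_ne_zero_iff]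
        intro x hx
        rw [eval_sub, eval_X, eval_C, sub_ne_zero]
        rintro rfl
        exact hP ((hmem _).1 hx)
      refine ⟨co D (C (s * (h0.eval y)⁻¹) * h0), ?_, ?_⟩
      · rw [ev_some]
        · rw [coe_aeval_eq_eval]
          simp [mul_assoc, inv_mul_cancel₀ hy]
        · exact (natDegree_C_mul_le _ _).trans (hdeg.le.trans (hcard.trans hS))
      · intro Q hQ
        cases Q with
        | none =>
            have hlt : S'.card < S.card := by
              rw [← Finset.card_map Function.Embedding.some]
              apply Finset.card_lt_card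
              rw [Finset.ssubset_iff_of_subset]
              · exact ⟨none, hQ, by simp⟩
              · intro z hz
                rw [Finset.mem_map] at hz
                obtain ⟨x, hx, rfl⟩ := hz
                exact (hmem x).1 hx
            rw [ev_none, coeff_C_mul, coeff_eq_zero_of_natDegree_lt (by omega)]
            simp
        | some x =>
            rw [ev_some]
            · have h1 := hroot x ((hmem x).2 hQ)
              simp [coe_aeval_eq_eval, h1]
            · exact (natDegree_C_mul_le _ _).trans (hdeg.le.trans (hcard.trans hS))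

end Sep

end Pool.Agent.Helper28.TC
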