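import Pool.Agent.Helper28.TC.Ev

set_option autoImplicit false

namespace Pool.Agent.Helper28.TC

open Polynomial Finset

section Quad

variable {p : ℕ} [Fact p.Prime] {K : Type} [Field K] [Algebra (ZMod p) K] [Fintype K]

lemma linear_surj (hK : Fintype.card K = p ^ 2) {x : K} (hx : x ∉ (algebraMap (ZMod p) K).range)
    (s : K) : ∃ α β : ZMod p, algebraMap (ZMod p) K α + algebraMap (ZMod p) K β * x = s := by
  have hinj : Function.Injective (fun z : ZMod p × ZMod p =>
      algebraMap (ZMod p) K z.1 + algebraMap (ZMod p) K z.2 * x) := by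
    rintro ⟨α, β⟩ ⟨α', β'⟩ h
    have h1 : algebraMap (ZMod p) K α + algebraMap (ZMod p) K β * x =
      algebraMap (ZMod p) K α' + algebraMap (ZMod p) K β' * x := h
    by_cases hb : β = β'
    · subst hb
      have h2 : algebraMap (ZMod p) K α = algebraMap (ZMod p) K α' := by
        linear_combination h1
      rw [(algebraMap (ZMod p) K).injective h2]
    · exfalso
      apply hx
      have hb' : algebraMap (ZMod p) K (β - β') ≠ 0 := by
        intro h0
        exact hb (sub_eq_zero.1 ((map_eq_zero _).1 h0))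
      refine ⟨(α' - α) / (β - β'), ?_⟩
      rw [map_div₀, div_eq_iff hb', map_sub, map_sub]
      linear_combination -h1
  have hbij := (Fintype.bijective_iff_injective_and_card _).2 ⟨hinj, by
    rw [Fintype.card_prod, ZMod.card, hK, sq]⟩
  obtain ⟨⟨α, β⟩, h⟩ := hbij.2 s
  exact ⟨α, β, h⟩

lemma pow_ne {y : K} (hy : y ∉ (algebraMap (ZMod p) K).range) : y ^ p ≠ y := by
  classical
  intro h
  have hp := (Fact.out : p.Prime)
  have hne : (X ^ p - X : K[X]) ≠ 0 := FiniteField.X_pow_card_sub_X_ne_zero K hp.one_lt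
  have hdeg : (X ^ p - X : K[X]).natDegree = p := FiniteField.X_pow_card_sub_X_natDegree_eq K
    hp.one_lt
  have h1 : insert y (Finset.univ.image (algebraMap (ZMod p) K)) ⊆
      (X ^ p - X : K[X]).roots.toFinset := by
    intro z hz
    rw [Multiset.mem_toFinset, mem_roots hne, IsRoot.def, eval_sub, eval_pow, eval_X, sub_eq_zero]
    rw [Finset.mem_insert, Finset.mem_image] at hz
    rcases hz with rfl | ⟨α, _, rfl⟩
    · exact h
    · rw [← map_pow, ZMod.pow_card]
  have h2 := (Finset.card_le_card h1).trans ((Multiset.toFinset_card_le _).trans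
    (card_roots' _))
  rw [hdeg, Finset.card_insert_of_notMem, Finset.card_image_of_injective _
    (algebraMap (ZMod p) K).injective, Finset.card_univ, ZMod.card] at h2
  · omega
  · intro h3
    obtain ⟨α, _, hα⟩ := Finset.mem_image.1 h3
    exact hy ⟨α, hα⟩

lemma natDegree_min (hK : Fintype.card K = p ^ 2) (y : K) :
    (minpoly (ZMod p) y).natDegree ≤ 2 := by
  have h1 : Module.finrank (ZMod p) K = 2 := by
    have h2 := Module.card_eq_pow_finrank (K := ZMod p) (V := K)
    rw [hK, ZMod.card] at h2
    exact (Nat.pow_right_injective (Fact.out : p.Prime).two_le h2).symm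
  rw [← h1]
  exact minpoly.natDegree_le y

lemma min_ne (hK : Fintype.card K = p ^ 2) {x y : K} (hy : y ∉ (algebraMap (ZMod p) K).range)
    (hxy : y ≠ x) (hxy' : y ≠ x ^ p) : aeval x (minpoly (ZMod p) y) ≠ 0 := by
  classical
  intro h
  have hint : IsIntegral (ZMod p) y := Algebra.IsIntegral.isIntegral y
  have hne : (minpoly (ZMod p) y).map (algebraMap (ZMod p) K) ≠ 0 := by
    rw [Ne, Polynomial.map_eq_zero]
    exact minpoly.ne_zero hint
  have : CharP K p := charP_of_injective_algebraMap (algebraMap (ZMod p) K).injective p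
  have hyp : aeval (y ^ p) (minpoly (ZMod p) y) = 0 := by
    have h1 := ZMod.expand_card (minpoly (ZMod p) y)
    have h2 : aeval (y ^ p) (minpoly (ZMod p) y) = aeval y (expand (ZMod p) p
        (minpoly (ZMod p) y)) := by
      rw [expand_aeval]
    rw [h2, h1, map_pow, minpoly.aeval, zero_pow (Fact.out : p.Prime).ne_zero]
  have hx' : x ≠ y ^ p := by
    rintro rfl
    apply hxy'
    rw [← pow_mul, ← sq, ← hK, FiniteField.pow_card]
  have h1 : ({x, y, y ^ p} : Finset K) ⊆
      ((minpoly (ZMod p) y).map (algebraMap (ZMod p) K)).roots.toFinset := by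
    intro z hz
    rw [Multiset.mem_toFinset, mem_roots hne, IsRoot.def, eval_map_algebraMap]
    rw [Finset.mem_insert, Finset.mem_insert, Finset.mem_singleton] at hz
    rcases hz with rfl | rfl | rfl
    · exact h
    · exact minpoly.aeval _ _
    · exact hyp
  have h2 := (Finset.card_le_card h1).trans ((Multiset.toFinset_card_le _).trans
    (card_roots' _))
  rw [natDegree_map] at h2
  have h3 : ({x, y, y ^ p} : Finset K).card = 3 := by
    rw [Finset.card_eq_three]
    exact ⟨x, y, y ^ p, hxy.symm, hx', (pow_ne hy).symm, rfl⟩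
  have h4 := natDegree_min hK y
  omega

lemma surjK {D : ℕ} (hD : 1 ≤ D) (hK : Fintype.card K = p ^ 2) {x : K}
    (hx : x ∉ (algebraMap (ZMod p) K).range) (s : K) :
    ∃ v : Fin (D + 1) → ZMod p, ev K (some x) v = s := by
  obtain ⟨α, β, h⟩ := linear_surj hK hx s
  refine ⟨co D (C α + C β * X), ?_⟩
  rw [ev_some]
  · simp [h]
  · refine (natDegree_add_le _ _).trans (max_le (by simp) ?_)
    exact (natDegree_C_mul_le _ _).trans (natDegree_X_le.trans hD)

lemma sepK {D : ℕ} (hD : 3 ≤ D) (hK : Fintype.card K = p ^ 2) {x y : K}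
    (hx : x ∉ (algebraMap (ZMod p) K).range) (hy : y ∉ (algebraMap (ZMod p) K).range)
    (hxy : y ≠ x) (hxy' : y ≠ x ^ p) (s : K) :
    ∃ v : Fin (D + 1) → ZMod p, ev K (some x) v = s ∧ ev K (some y) v = 0 := by
  have hm := min_ne hK hy hxy hxy'
  obtain ⟨α, β, h⟩ := linear_surj hK hx (s / aeval x (minpoly (ZMod p) y))
  have hdeg : (minpoly (ZMod p) y * (C α + C β * X)).natDegree ≤ D := by
    refine natDegree_mul_le.trans ?_
    have h1 := natDegree_min hK y
    have h2 : (C α + C β * X : (ZMod p)[X]).natDegree ≤ 1 := by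
      refine (natDegree_add_le _ _).trans (max_le (by simp) ?_)
      exact (natDegree_C_mul_le _ _).trans natDegree_X_le
    omega
  refine ⟨co D (minpoly (ZMod p) y * (C α + C β * X)), ?_, ?_⟩
  · rw [ev_some _ hdeg, map_mul]
    have h3 : aeval x (C α + C β * X : (ZMod p)[X]) = s / aeval x (minpoly (ZMod p) y) := by
      rw [← h]; simp
    rw [h3, mul_div_cancel₀ _ hm]
  · rw [ev_some _ hdeg, map_mul, minpoly.aeval, zero_mul]

end Quad

end Pool.Agent.Helper28.TC
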