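import Pool.Agent.Helper28.TC.EvK

set_option autoImplicit false

namespace Pool.Agent.Helper28.TC

open Polynomial Finset

/-- The quadratic character as a real function. -/
noncomputable def qc (K : Type) [Field K] [Fintype K] (s : K) : ℝ :=
  ((@quadraticChar K _ _ (Classical.decEq K) s : ℤ) : ℝ)

section Qc

variable {K : Type} [Field K] [Fintype K]

lemma qc_sum (hK : ringChar K ≠ 2) : ∑ s : K, qc K s = 0 := by
  have h := @quadraticChar_sum_zero K _ _ (Classical.decEq K) hK
  have h1 : ∑ s : K, qc K s =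
      ((∑ s : K, @quadraticChar K _ _ (Classical.decEq K) s : ℤ) : ℝ) := by
    push_cast
    rfl
  rw [h1, h, Int.cast_zero]

lemma qc_zero : qc K 0 = 0 := by
  unfold qc
  rw [@quadraticChar_zero K _ _ (Classical.decEq K), Int.cast_zero]

lemma qc_sq {s : K} (hs : s ≠ 0) : qc K s ^ 2 = 1 := by
  have h := @quadraticChar_sq_one K _ _ (Classical.decEq K) s hs
  have h1 : (((@quadraticChar K _ _ (Classical.decEq K) s ^ 2 : ℤ)) : ℝ) = 1 := by
    rw [h, Int.cast_one]
  rw [Int.cast_pow] at h1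
  exact h1

lemma qc_abs (s : K) : |qc K s| ≤ 1 := by
  by_cases hs : s = 0
  · rw [hs, qc_zero]; simp
  · have h := qc_sq hs
    rw [← sq_abs] at h
    nlinarith [abs_nonneg (qc K s)]

lemma qc_card_sqrts (hK : ringChar K ≠ 2) (a : K) :
    (Nat.card {y : K // y ^ 2 = a} : ℝ) = qc K a + 1 := by
  let _ : DecidableEq K := Classical.decEq K
  have h := @quadraticChar_card_sqrts K _ _ (Classical.decEq K) hK a
  have h1 : (Nat.card {y : K // y ^ 2 = a} : ℤ) =
      @quadraticChar K _ _ (Classical.decEq K) a + 1 := by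
    rw [← h]
    congr 1
    rw [Nat.card_eq_fintype_card, Set.toFinset_card]
    rfl
  have h2 : ((Nat.card {y : K // y ^ 2 = a} : ℤ) : ℝ) =
      ((@quadraticChar K _ _ (Classical.decEq K) a + 1 : ℤ) : ℝ) := by
    rw [h1]
  rw [Int.cast_add, Int.cast_one, Int.cast_natCast] at h2
  exact h2

lemma qc_sq_sum : ∑ s : K, qc K s ^ 2 = (Fintype.card K : ℝ) - 1 := by
  classical
  have h : ∀ s : K, qc K s ^ 2 = 1 - (if s = 0 then 1 else 0) := by
    intro s
    by_cases hs : s = 0
    · rw [hs, qc_zero]; simp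
    · rw [qc_sq hs, if_neg hs]; simp
  rw [Finset.sum_congr rfl fun s _ => h s, Finset.sum_sub_distrib, Finset.sum_ite_eq',
    if_pos (Finset.mem_univ _), Finset.sum_const, Finset.card_univ, nsmul_eq_mul, mul_one]

end Qc

section Blocks

variable {p : ℕ} [Fact p.Prime] {k : ℕ} {g : Fin k → ℕ}

/-- The coefficients of the polynomial `i`. -/
def blk (i : Fin k) : (Idx g → ZMod p) →+ (Fin (2 * g i + 2 + 1) → ZMod p) where
  toFun u := fun j => u ⟨i, j⟩
  map_zero' := rfl
  map_add' _ _ := rfl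

/-- The tuple with only one polynomial. -/
noncomputable def emb (i : Fin k) (v : Fin (2 * g i + 2 + 1) → ZMod p) : Idx g → ZMod p :=
  fun x => (Pi.single i v : ∀ i, Fin (2 * g i + 2 + 1) → ZMod p) x.1 x.2

lemma blk_emb (i : Fin k) (v : Fin (2 * g i + 2 + 1) → ZMod p) : blk i (emb i v) = v := by
  funext j
  change (Pi.single i v : ∀ i, Fin (2 * g i + 2 + 1) → ZMod p) i j = v j
  rw [Pi.single_eq_same]

lemma blk_emb_ne {i i' : Fin k} (h : i' ≠ i) (v : Fin (2 * g i + 2 + 1) → ZMod p) :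
    blk i' (emb i v) = 0 := by
  funext j
  change (Pi.single i v : ∀ i, Fin (2 * g i + 2 + 1) → ZMod p) i' j = 0
  rw [Pi.single_eq_of_ne h]
  rfl

variable (K : Type) [Field K] [Algebra (ZMod p) K]

/-- The value of the form `i` at a point. -/
def LP (i : Fin k) (P : Option K) : (Idx g → ZMod p) →+ K := (evH K P).comp (blk i)

lemma LP_emb (i : Fin k) (P : Option K) (v : Fin (2 * g i + 2 + 1) → ZMod p) :
    LP K i P (emb i v : Idx g → ZMod p) = ev K P v := by
  unfold LP
  rw [AddMonoidHom.comp_apply, blk_emb]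
  rfl

lemma LP_emb_ne {i i' : Fin k} (h : i' ≠ i) (P : Option K)
    (v : Fin (2 * g i + 2 + 1) → ZMod p) : LP K i' P (emb i v : Idx g → ZMod p) = 0 := by
  unfold LP
  rw [AddMonoidHom.comp_apply, blk_emb_ne h, map_zero]

end Blocks

section Moments

variable {p : ℕ} [Fact p.Prime] {k : ℕ} {g : Fin k → ℕ}

/-- The character at a rational point. -/
noncomputable def cc (i : Fin k) (P : Option (ZMod p)) (u : Idx g → ZMod p) : ℝ :=
  qc (ZMod p) (LP (ZMod p) i P u)

/-- The character sum: the negative of the trace of Frobenius. -/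
noncomputable def SF (i : Fin k) (u : Idx g → ZMod p) : ℝ := ∑ P, cc i P u

/-- The number of points which are not zeros. -/
noncomputable def ZF (i : Fin k) (u : Idx g → ZMod p) : ℝ := ∑ P, cc i P u ^ 2

lemma ringChar_ne (hp : p ≠ 2) : ringChar (ZMod p) ≠ 2 := by
  rwa [ZMod.ringChar_zmod_n]

lemma cc_abs (i : Fin k) (P : Option (ZMod p)) (u : Idx g → ZMod p) : |cc i P u| ≤ 1 :=
  qc_abs _

/-- A function which does not change if a form vanishing at the points `S` is added. -/
lemma iso (hp : p ≠ 2) (i : Fin k) (P : Option (ZMod p)) (S : Finset (Option (ZMod p)))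
    (hS : S.card ≤ 2 * g i + 2) (hP : P ∉ S) (Φ : (Idx g → ZMod p) → ℝ)
    (hΦ : ∀ u v, (∀ Q ∈ S, LP (ZMod p) i Q v = 0) →
      (∀ j, j ≠ i → ∀ Q, LP (ZMod p) j Q v = 0) → Φ (u + v) = Φ u) :
    ∑ u, cc i P u * Φ u = 0 := by
  apply vanish (LP (ZMod p) i P) Φ (qc (ZMod p)) (qc_sum (ringChar_ne hp))
  intro s
  obtain ⟨v, hv, hv'⟩ := sep (D := 2 * g i + 2) S hS P hP s
  refine ⟨emb i v, ?_, fun u => hΦ u _ ?_ ?_⟩
  · rw [LP_emb, hv]
  · intro Q hQ
    rw [LP_emb, hv' Q hQ]
  · intro j hj Q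
    exact LP_emb_ne _ hj Q v

lemma cc_add {i : Fin k} {P : Option (ZMod p)} {u v : Idx g → ZMod p}
    (h : LP (ZMod p) i P v = 0) : cc i P (u + v) = cc i P u := by
  unfold cc
  rw [map_add, h, add_zero]

lemma sum_cross (hp : p ≠ 2) {i j : Fin k} (hij : j ≠ i) :
    ∑ u : Idx g → ZMod p, SF i u * SF j u = 0 := by
  have h : ∀ u : Idx g → ZMod p, SF i u * SF j u = ∑ P, cc i P u * SF j u := by
    intro u
    rw [← Finset.sum_mul]
    rfl
  rw [Finset.sum_congr rfl fun u _ => h u, Finset.sum_comm]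
  refine Finset.sum_eq_zero fun P _ => ?_
  apply iso hp i P ∅ (by simp) (by simp)
  intro u v _ h2
  unfold SF
  exact Finset.sum_congr rfl fun Q _ => cc_add (h2 j hij Q)

lemma card_opt : (Fintype.card (Option (ZMod p)) : ℝ) = p + 1 := by
  rw [Fintype.card_option, ZMod.card]
  push_cast
  ring

lemma sum_cc_sq (i : Fin k) (P : Option (ZMod p)) :
    ∑ u : Idx g → ZMod p, cc i P u ^ 2 =
      Fintype.card (Idx g → ZMod p) * (((p : ℝ) - 1) / p) := by
  have hsurj : Function.Surjective (LP (ZMod p) i P : (Idx g → ZMod p) →+ ZMod p) := by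
    intro s
    obtain ⟨v, hv, _⟩ := sep (D := 2 * g i + 2) ∅ (by simp) P (by simp) s
    exact ⟨emb i v, by rw [LP_emb, hv]⟩
  have h := sum_comp (LP (ZMod p) i P : (Idx g → ZMod p) →+ ZMod p) hsurj
    (fun s => qc (ZMod p) s ^ 2)
  rw [qc_sq_sum, ZMod.card] at h
  exact h

lemma sum_ZF (i : Fin k) :
    ∑ u : Idx g → ZMod p, ZF i u =
      Fintype.card (Idx g → ZMod p) * (((p : ℝ) - 1) / p) * (p + 1) := by
  unfold ZF
  rw [Finset.sum_comm, Finset.sum_congr rfl fun P _ => sum_cc_sq i P, Finset.sum_const,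
    Finset.card_univ, nsmul_eq_mul, card_opt]
  ring

lemma sum_SF_sq (hp : p ≠ 2) (i : Fin k) :
    ∑ u : Idx g → ZMod p, SF i u ^ 2 = ∑ u : Idx g → ZMod p, ZF i u := by
  classical
  have h : ∀ u : Idx g → ZMod p, SF i u ^ 2 = ∑ P, ∑ Q, cc i P u * cc i Q u := by
    intro u
    rw [sq]
    unfold SF
    rw [Finset.sum_mul_sum]
  unfold ZF
  rw [Finset.sum_congr rfl fun u _ => h u, Finset.sum_comm]
  rw [Finset.sum_comm (s := (univ : Finset (Idx g → ZMod p)))]
  refine Finset.sum_congr rfl fun P _ => ?_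
  rw [Finset.sum_comm, Finset.sum_eq_single P]
  · exact Finset.sum_congr rfl fun u _ => by rw [sq]
  · intro Q _ hQ
    apply iso hp i P {Q} (by simp) (by simpa using hQ.symm)
    intro u v h1 _
    exact cc_add (h1 Q (Finset.mem_singleton_self Q))
  · intro h; exact absurd (Finset.mem_univ _) h

lemma four_zero (hp : p ≠ 2) (i : Fin k) (hg : 1 ≤ g i) {P Q R T : Option (ZMod p)}
    (h1 : P ≠ Q) (h2 : P ≠ R) (h3 : P ≠ T) :
    ∑ u : Idx g → ZMod p, cc i P u * (cc i Q u * cc i R u * cc i T u) = 0 := by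
  classical
  apply iso hp i P {Q, R, T}
  · refine (Finset.card_le_three).trans ?_
    omega
  · simp [h1, h2, h3]
  · intro u v h1 _
    rw [cc_add (h1 Q (by simp)), cc_add (h1 R (by simp)), cc_add (h1 T (by simp))]

lemma four_le (hp : p ≠ 2) (i : Fin k) (hg : 1 ≤ g i) (P Q R T : Option (ZMod p)) :
    ∑ u : Idx g → ZMod p, cc i P u * cc i Q u * (cc i R u * cc i T u) ≤
      Fintype.card (Idx g → ZMod p) *
        ((if P = Q ∧ R = T then 1 else 0) + (if P = R ∧ Q = T then 1 else 0) +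
          (if P = T ∧ Q = R then 1 else 0)) := by
  classical
  have hle : ∑ u : Idx g → ZMod p, cc i P u * cc i Q u * (cc i R u * cc i T u) ≤
      Fintype.card (Idx g → ZMod p) := by
    calc _ ≤ ∑ _u : Idx g → ZMod p, (1 : ℝ) := by
          refine Finset.sum_le_sum fun u _ => ?_
          refine (le_abs_self _).trans ?_
          rw [abs_mul, abs_mul, abs_mul]
          have a1 := cc_abs i P u
          have a2 := cc_abs i Q u
          have a3 := cc_abs i R u
          have a4 := cc_abs i T u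
          have b1 := mul_le_one₀ a1 (abs_nonneg _) a2
          have b2 := mul_le_one₀ a3 (abs_nonneg _) a4
          exact mul_le_one₀ b1 (mul_nonneg (abs_nonneg _) (abs_nonneg _)) b2
      _ = _ := by rw [Finset.sum_const, Finset.card_univ, nsmul_eq_mul, mul_one]
  have hN : (0 : ℝ) ≤ Fintype.card (Idx g → ZMod p) := Nat.cast_nonneg _
  by_cases c1 : P = Q ∧ R = T
  · rw [if_pos c1]
    refine hle.trans ?_
    apply le_mul_of_one_le_right hN
    split_ifs <;> norm_num
  by_cases c2 : P = R ∧ Q = T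
  · rw [if_pos c2]
    refine hle.trans ?_
    apply le_mul_of_one_le_right hN
    split_ifs <;> norm_num
  by_cases c3 : P = T ∧ Q = R
  · rw [if_pos c3]
    refine hle.trans ?_
    apply le_mul_of_one_le_right hN
    split_ifs <;> norm_num
  rw [if_neg c1, if_neg c2, if_neg c3]
  apply le_of_eq
  rw [add_zero, add_zero, mul_zero]
  by_cases d1 : P = Q
  · have hRT : R ≠ T := fun h => c1 ⟨d1, h⟩
    by_cases d2 : P = R
    · have e1 : T ≠ P := fun h => hRT (by rw [← d2, h])
      have e2 : T ≠ Q := d1 ▸ e1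
      have e3 : T ≠ R := d2 ▸ e1
      rw [← four_zero hp i hg e1 e2 e3]
      exact Finset.sum_congr rfl fun u _ => by ring
    · have e1 : R ≠ P := fun h => d2 h.symm
      have e2 : R ≠ Q := fun h => d2 (d1.trans h.symm)
      rw [← four_zero hp i hg e1 e2 hRT]
      exact Finset.sum_congr rfl fun u _ => by ring
  · by_cases d2 : P = R
    · have hQT : Q ≠ T := fun h => c2 ⟨d2, h⟩
      have e1 : Q ≠ P := fun h => d1 h.symm
      have e2 : Q ≠ R := fun h => d1 (d2.trans h.symm)
      rw [← four_zero hp i hg e1 e2 hQT]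
      exact Finset.sum_congr rfl fun u _ => by ring
    · by_cases d3 : P = T
      · have hQR : Q ≠ R := fun h => c3 ⟨d3, h⟩
        have e1 : Q ≠ P := fun h => d1 h.symm
        have e2 : Q ≠ T := fun h => d1 (d3.trans h.symm)
        rw [← four_zero hp i hg e1 hQR e2]
        exact Finset.sum_congr rfl fun u _ => by ring
      · rw [← four_zero hp i hg d1 d2 d3]
        exact Finset.sum_congr rfl fun u _ => by ring

lemma sum_SF_four (hp : p ≠ 2) (i : Fin k) (hg : 1 ≤ g i) :
    ∑ u : Idx g → ZMod p, SF i u ^ 4 ≤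
      Fintype.card (Idx g → ZMod p) * (3 * ((p : ℝ) + 1) ^ 2) := by
  classical
  have h : ∀ u : Idx g → ZMod p, SF i u ^ 4 =
      ∑ P, ∑ Q, ∑ R, ∑ T, cc i P u * cc i Q u * (cc i R u * cc i T u) := by
    intro u
    have e1 : SF i u ^ 4 = (SF i u * SF i u) * (SF i u * SF i u) := by ring
    have e2 : SF i u * SF i u = ∑ P, ∑ Q, cc i P u * cc i Q u := by
      unfold SF
      rw [Finset.sum_mul_sum]
    rw [e1, e2]
    simp_rw [Finset.sum_mul, Finset.mul_sum]
  rw [Finset.sum_congr rfl fun u _ => h u]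
  have h2 : ∑ u : Idx g → ZMod p, ∑ P, ∑ Q, ∑ R, ∑ T,
        cc i P u * cc i Q u * (cc i R u * cc i T u) =
      ∑ P, ∑ Q, ∑ R, ∑ T, ∑ u : Idx g → ZMod p,
        cc i P u * cc i Q u * (cc i R u * cc i T u) := by
    rw [Finset.sum_comm]
    refine Finset.sum_congr rfl fun P _ => ?_
    rw [Finset.sum_comm]
    refine Finset.sum_congr rfl fun Q _ => ?_
    rw [Finset.sum_comm]
    refine Finset.sum_congr rfl fun R _ => ?_
    rw [Finset.sum_comm]
  rw [h2]
  have h3 : ∀ P Q : Option (ZMod p), ∑ R, ∑ T, ∑ u : Idx g → ZMod p,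
      cc i P u * cc i Q u * (cc i R u * cc i T u) ≤
      ∑ R, ∑ T, Fintype.card (Idx g → ZMod p) *
        ((if P = Q ∧ R = T then 1 else 0) + (if P = R ∧ Q = T then 1 else 0) +
          (if P = T ∧ Q = R then 1 else 0) : ℝ) := fun P Q =>
    Finset.sum_le_sum fun R _ => Finset.sum_le_sum fun T _ => four_le hp i hg P Q R T
  refine (Finset.sum_le_sum fun P _ => Finset.sum_le_sum fun Q _ => h3 P Q).trans ?_
  apply le_of_eq
  simp_rw [← Finset.mul_sum, Finset.sum_add_distrib]
  congr 1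
  have s1 : ∑ P : Option (ZMod p), ∑ Q : Option (ZMod p), ∑ R : Option (ZMod p),
      ∑ T : Option (ZMod p), (if P = Q ∧ R = T then (1 : ℝ) else 0) = ((p : ℝ) + 1) ^ 2 := by
    simp_rw [ite_and]
    simp [sq]
    ring
  have s2 : ∑ P : Option (ZMod p), ∑ Q : Option (ZMod p), ∑ R : Option (ZMod p),
      ∑ T : Option (ZMod p), (if P = R ∧ Q = T then (1 : ℝ) else 0) = ((p : ℝ) + 1) ^ 2 := by
    simp_rw [ite_and]
    simp [sq]
    ring
  have s3 : ∑ P : Option (ZMod p), ∑ Q : Option (ZMod p), ∑ R : Option (ZMod p),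
      ∑ T : Option (ZMod p), (if P = T ∧ Q = R then (1 : ℝ) else 0) = ((p : ℝ) + 1) ^ 2 := by
    simp_rw [ite_and]
    simp [sq]
    ring
  rw [s1, s2, s3]
  ring

end Moments

end Pool.Agent.Helper28.TC
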