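import Pool.Agent.Helper28.TC.Mom

set_option autoImplicit false

namespace Pool.Agent.Helper28.TC

open Polynomial Finset

section MomentsK

variable {p : ℕ} [Fact p.Prime] {k : ℕ} {g : Fin k → ℕ} (K : Type) [Field K] [Algebra (ZMod p) K]
  [Fintype K]

open Classical in
/-- The elements which are not in the prime field. -/
noncomputable def XK : Finset K := univ.filter fun x => x ∉ (algebraMap (ZMod p) K).range

/-- The character sum over the points which are not rational over the prime field. -/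
noncomputable def WF (i : Fin k) (u : Idx g → ZMod p) : ℝ :=
  ∑ x ∈ XK (p := p) K, qc K (LP K i (some x) u)

lemma mem_XK {x : K} : x ∈ XK (p := p) K ↔ x ∉ (algebraMap (ZMod p) K).range := by
  classical
  unfold XK
  rw [Finset.mem_filter]
  exact ⟨fun h => h.2, fun h => ⟨Finset.mem_univ _, h⟩⟩

lemma ringCharK (hp : p ≠ 2) : ringChar K ≠ 2 := by
  have : CharP K p := charP_of_injective_algebraMap (algebraMap (ZMod p) K).injective p
  rwa [ringChar.eq K p]

lemma sum_WF (hp : p ≠ 2) (hK : Fintype.card K = p ^ 2) (i : Fin k) :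
    ∑ u : Idx g → ZMod p, WF K i u = 0 := by
  unfold WF
  rw [Finset.sum_comm]
  refine Finset.sum_eq_zero fun x hx => ?_
  have h := vanish (LP K i (some x) : (Idx g → ZMod p) →+ K) (fun _ => 1) (qc K)
    (qc_sum (ringCharK K hp)) (fun s => by
      obtain ⟨v, hv⟩ := surjK (D := 2 * g i + 2) (by omega) hK ((mem_XK K).1 hx) s
      exact ⟨emb i v, by rw [LP_emb, hv], fun _ => rfl⟩)
  simpa using h

lemma pairK_zero (hp : p ≠ 2) (hK : Fintype.card K = p ^ 2) (i : Fin k) (hg : 1 ≤ g i) {x y : K}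
    (hx : x ∈ XK (p := p) K) (hy : y ∈ XK (p := p) K) (h1 : y ≠ x) (h2 : y ≠ x ^ p) :
    ∑ u : Idx g → ZMod p, qc K (LP K i (some x) u) * qc K (LP K i (some y) u) = 0 := by
  apply vanish (LP K i (some x) : (Idx g → ZMod p) →+ K) _ (qc K) (qc_sum (ringCharK K hp))
  intro s
  obtain ⟨v, hv, hv'⟩ := sepK (D := 2 * g i + 2) (by omega) hK ((mem_XK K).1 hx)
    ((mem_XK K).1 hy) h1 h2 s
  refine ⟨emb i v, by rw [LP_emb, hv], fun u => ?_⟩
  rw [map_add, LP_emb, hv', add_zero]

lemma pairK_le (hp : p ≠ 2) (hK : Fintype.card K = p ^ 2) (i : Fin k) (hg : 1 ≤ g i) {x y : K}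
    (hx : x ∈ XK (p := p) K) (hy : y ∈ XK (p := p) K) [DecidableEq K] :
    ∑ u : Idx g → ZMod p, qc K (LP K i (some x) u) * qc K (LP K i (some y) u) ≤
      Fintype.card (Idx g → ZMod p) * ((if y = x then 1 else 0) + (if y = x ^ p then 1 else 0)) := by
  have hN : (0 : ℝ) ≤ Fintype.card (Idx g → ZMod p) := Nat.cast_nonneg _
  have hle : ∑ u : Idx g → ZMod p, qc K (LP K i (some x) u) * qc K (LP K i (some y) u) ≤
      Fintype.card (Idx g → ZMod p) := by
    calc _ ≤ ∑ _u : Idx g → ZMod p, (1 : ℝ) := by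
          refine Finset.sum_le_sum fun u _ => ?_
          refine (le_abs_self _).trans ?_
          rw [abs_mul]
          exact mul_le_one₀ (qc_abs _) (abs_nonneg _) (qc_abs _)
      _ = _ := by rw [Finset.sum_const, Finset.card_univ, nsmul_eq_mul, mul_one]
  by_cases c1 : y = x
  · rw [if_pos c1]
    refine hle.trans ?_
    apply le_mul_of_one_le_right hN
    split_ifs <;> norm_num
  by_cases c2 : y = x ^ p
  · rw [if_pos c2]
    refine hle.trans ?_
    apply le_mul_of_one_le_right hN
    split_ifs <;> norm_num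
  rw [if_neg c1, if_neg c2, add_zero, mul_zero]
  exact (pairK_zero K hp hK i hg hx hy c1 c2).le

lemma sum_WF_sq (hp : p ≠ 2) (hK : Fintype.card K = p ^ 2) (i : Fin k) (hg : 1 ≤ g i) :
    ∑ u : Idx g → ZMod p, WF K i u ^ 2 ≤
      Fintype.card (Idx g → ZMod p) * (2 * (p : ℝ) ^ 2) := by
  classical
  have hN : (0 : ℝ) ≤ Fintype.card (Idx g → ZMod p) := Nat.cast_nonneg _
  have h : ∀ u : Idx g → ZMod p, WF K i u ^ 2 =
      ∑ x ∈ XK (p := p) K, ∑ y ∈ XK (p := p) K,
        qc K (LP K i (some x) u) * qc K (LP K i (some y) u) := by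
    intro u
    rw [sq]
    unfold WF
    rw [Finset.sum_mul_sum]
  rw [Finset.sum_congr rfl fun u _ => h u, Finset.sum_comm]
  have h2 : ∀ x ∈ XK (p := p) K, ∑ u : Idx g → ZMod p, ∑ y ∈ XK (p := p) K,
      qc K (LP K i (some x) u) * qc K (LP K i (some y) u) ≤
      Fintype.card (Idx g → ZMod p) * 2 := by
    intro x hx
    rw [Finset.sum_comm]
    refine (Finset.sum_le_sum fun y hy => pairK_le K hp hK i hg hx hy).trans ?_
    rw [← Finset.mul_sum]
    apply mul_le_mul_of_nonneg_left _ hN
    rw [Finset.sum_add_distrib, Finset.sum_ite_eq', Finset.sum_ite_eq']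
    split_ifs <;> norm_num
  refine (Finset.sum_le_sum h2).trans ?_
  rw [Finset.sum_const, nsmul_eq_mul]
  have hc : ((XK (p := p) K).card : ℝ) ≤ (p : ℝ) ^ 2 := by
    have := Finset.card_le_univ (XK (p := p) K)
    rw [hK] at this
    exact_mod_cast this
  calc ((XK (p := p) K).card : ℝ) * (Fintype.card (Idx g → ZMod p) * 2)
      ≤ (p : ℝ) ^ 2 * (Fintype.card (Idx g → ZMod p) * 2) :=
        mul_le_mul_of_nonneg_right hc (by positivity)
    _ = _ := by ring

end MomentsK

section Points

variable {p : ℕ} [Fact p.Prime] {k : ℕ} {g : Fin k → ℕ} (K : Type) [Field K] [Algebra (ZMod p) K]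
  [Fintype K]

/-- The reduction of the coefficients. -/
def red (p : ℕ) (a : Idx g → ℤ) : Idx g → ZMod p := fun m => ((a m : ℤ) : ZMod p)

lemma aeval_pol (a : Idx g → ℤ) (i : Fin k) (x : K) :
    aeval x (pol a i) = LP K i (some x) (red p a) := by
  unfold pol LP
  rw [map_sum]
  change _ = ∑ j, algebraMap (ZMod p) K ((a ⟨i, j⟩ : ℤ) : ZMod p) * x ^ (j : ℕ)
  refine Finset.sum_congr rfl fun j _ => ?_
  rw [map_mul, map_pow, aeval_X, aeval_C, map_intCast]
  simp

lemma coeff_pol (a : Idx g → ℤ) (i : Fin k) :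
    (((pol a i).coeff (2 * g i + 2) : ℤ) : K) = LP K i none (red p a) := by
  have h : (pol a i).coeff (2 * g i + 2) = a ⟨i, Fin.last (2 * g i + 2)⟩ := by
    unfold pol
    rw [finset_sum_coeff, Finset.sum_eq_single (Fin.last (2 * g i + 2))]
    · simp
    · intro j _ hj
      rw [coeff_C_mul, coeff_X_pow, if_neg, mul_zero]
      intro h
      exact hj (Fin.ext h.symm)
    · intro h; exact absurd (Finset.mem_univ _) h
  rw [h]
  change _ = algebraMap (ZMod p) K ((a ⟨i, Fin.last (2 * g i + 2)⟩ : ℤ) : ZMod p)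
  rw [map_intCast]

lemma points_eq (hp : p ≠ 2) (a : Idx g → ℤ) (i : Fin k) :
    points K (g i) (pol a i) = (Fintype.card K : ℝ) + 1 +
      ∑ P : Option K, qc K (LP K i P (red p a)) := by
  have hK := ringCharK (p := p) K hp
  unfold points
  rw [Nat.card_congr (Equiv.subtypeProdEquivSigmaSubtype
    (fun (x y : K) => y ^ 2 = aeval x (pol a i))), Nat.card_sigma]
  push_cast
  rw [Finset.sum_congr rfl fun x _ => qc_card_sqrts hK (aeval x (pol a i)),
    qc_card_sqrts hK, Fintype.sum_option, Finset.sum_add_distrib, Finset.sum_const,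
    Finset.card_univ, nsmul_eq_mul, mul_one, coeff_pol (p := p) K a i]
  simp_rw [aeval_pol (p := p) K a i]
  ring

lemma LP_map (i : Fin k) (P : Option (ZMod p)) (u : Idx g → ZMod p) :
    LP K i (P.map (algebraMap (ZMod p) K)) u = algebraMap (ZMod p) K (LP (ZMod p) i P u) := by
  cases P with
  | none => rfl
  | some x =>
      change ∑ j, algebraMap (ZMod p) K (u ⟨i, j⟩) * algebraMap (ZMod p) K x ^ (j : ℕ) =
        algebraMap (ZMod p) K (∑ j, algebraMap (ZMod p) (ZMod p) (u ⟨i, j⟩) * x ^ (j : ℕ))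
      rw [map_sum]
      refine Finset.sum_congr rfl fun j _ => ?_
      rw [map_mul, map_pow]
      rfl

lemma qc_map (hp : p ≠ 2) (hK : Fintype.card K = p ^ 2) (c : ZMod p) :
    qc K (algebraMap (ZMod p) K c) = qc (ZMod p) c ^ 2 := by
  by_cases hc : c = 0
  · rw [hc, map_zero, qc_zero, qc_zero, zero_pow (by norm_num)]
  · rw [qc_sq hc]
    have hc' : algebraMap (ZMod p) K c ≠ 0 := by
      rwa [Ne, map_eq_zero]
    have hsq : IsSquare (algebraMap (ZMod p) K c) := by
      rw [FiniteField.isSquare_iff (ringCharK (p := p) K hp) hc', ← map_pow]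
      have hodd : p % 2 = 1 := (Fact.out : p.Prime).eq_two_or_odd.resolve_left hp
      have h1 : Fintype.card K / 2 = (p - 1) * ((p + 1) / 2) := by
        rw [hK]
        obtain ⟨n, hn⟩ : ∃ n, p = 2 * n + 1 := ⟨p / 2, by omega⟩
        rw [hn]
        have e1 : (2 * n + 1 + 1) / 2 = n + 1 := by omega
        have e2 : 2 * n + 1 - 1 = 2 * n := by omega
        rw [e1, e2]
        have e3 : (2 * n + 1) ^ 2 = 2 * (2 * n * (n + 1)) + 1 := by ring
        rw [e3]
        omega
      rw [h1, pow_mul, ZMod.pow_card_sub_one_eq_one hc, one_pow, map_one]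
    unfold qc
    rw [(@quadraticChar_one_iff_isSquare K _ _ (Classical.decEq K) _ hc').2 hsq, Int.cast_one]

lemma sum_optionK (hp : p ≠ 2) (hK : Fintype.card K = p ^ 2) (i : Fin k)
    (u : Idx g → ZMod p) :
    ∑ P : Option K, qc K (LP K i P u) = ZF i u + WF K i u := by
  classical
  rw [Fintype.sum_option, ← Finset.sum_filter_add_sum_filter_not (univ : Finset K)
    (fun x => x ∈ (algebraMap (ZMod p) K).range)]
  have h1 : ∑ x ∈ (univ : Finset K).filter (fun x => x ∈ (algebraMap (ZMod p) K).range),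
      qc K (LP K i (some x) u) = ∑ x : ZMod p, cc i (some x) u ^ 2 := by
    have h2 : (univ : Finset K).filter (fun x => x ∈ (algebraMap (ZMod p) K).range) =
        univ.image (algebraMap (ZMod p) K) := by
      ext x
      rw [Finset.mem_filter, Finset.mem_image]
      constructor
      · rintro ⟨_, y, hy⟩; exact ⟨y, Finset.mem_univ _, hy⟩
      · rintro ⟨y, _, hy⟩; exact ⟨Finset.mem_univ _, y, hy⟩
    rw [h2, Finset.sum_image fun x _ y _ h => (algebraMap (ZMod p) K).injective h]
    refine Finset.sum_congr rfl fun x _ => ?_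
    have h3 := LP_map K i (some x) u
    rw [Option.map_some] at h3
    rw [h3, qc_map K hp hK]
    rfl
  have h4 : qc K (LP K i none u) = cc i none u ^ 2 := by
    have h3 := LP_map K i none u
    rw [Option.map_none] at h3
    rw [h3, qc_map K hp hK]
    rfl
  rw [h1, h4]
  unfold ZF WF XK
  rw [Fintype.sum_option]
  ring

end Points

end Pool.Agent.Helper28.TC
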