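import Mathlib

set_option autoImplicit false

namespace Pool.Agent.Helper28.TC.N

open Polynomial

/-- The indices of the coefficients of a tuple of polynomials, the polynomial `i` of degree at most
`2 * g i + 2`. -/
abbrev Idx {k : ℕ} (g : Fin k → ℕ) : Type := Σ i : Fin k, Fin (2 * g i + 3)

/-- The tuples of coordinates with entries in `[-B, B]`, `d` coordinates for each coefficient. -/
noncomputable def box {k : ℕ} (g : Fin k → ℕ) (d B : ℕ) : Finset (Idx g × Fin d → ℤ) :=
  Fintype.piFinset fun _ => Finset.Icc (-(B : ℤ)) B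

variable {R : Type} [CommRing R]

/-- The polynomial `i` of the tuple with coordinates `a` in the basis `b`. -/
noncomputable def pol {k d : ℕ} {g : Fin k → ℕ} (b : Fin d → R) (a : Idx g × Fin d → ℤ)
    (i : Fin k) : R[X] :=
  ∑ j : Fin (2 * g i + 3), C (∑ l, (a (⟨i, j⟩, l) : R) * b l) * X ^ (j : ℕ)

/-- The number of points over the finite field `K` of the hyperelliptic curve `y ^ 2 = f(x)` of
genus `g`, where the image of `f` has degree `2 * g + 1` or `2 * g + 2`: the affine points and the
points at infinity. -/
noncomputable def points {K : Type} [CommRing K] (ψ : R →+* K) (g : ℕ) (f : R[X]) : ℝ :=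
  Nat.card {z : K × K // z.2 ^ 2 = eval₂ ψ z.1 f} +
    Nat.card {y : K // y ^ 2 = ψ (f.coeff (2 * g + 2))}

/-- The trace of Frobenius at the prime `ker φ` of degree one on the first cohomology group of the
curve `y ^ 2 = f(x)`. -/
noncomputable def trace {p : ℕ} (φ : R →+* ZMod p) (g : ℕ) (f : R[X]) : ℝ :=
  (p : ℝ) + 1 - points φ g f

/-- The trace of the square of Frobenius on the first cohomology group of the curve
`y ^ 2 = f(x)`. -/
noncomputable def trace₂ {p : ℕ} (φ : R →+* ZMod p) (g : ℕ) (f : R[X]) : ℝ :=
  if h : p.Prime then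
    haveI : Fact p.Prime := ⟨h⟩
    (p : ℝ) ^ 2 + 1 - points ((algebraMap (ZMod p) (GaloisField p 2)).comp φ) g f
  else 0

/-- The trace of Frobenius on the second cohomology group of the product `V` of the powers
`C i ^ m i` of the curves `C i : y ^ 2 = f i` and the powers `J i ^ n i` of their Jacobians, by the
Kunneth formula: `p` for each curve, half of the trace squared minus the trace of the square of
Frobenius for each Jacobian, and the product of the traces on the first cohomology groups for each
pair of factors. -/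
noncomputable def bp {k p : ℕ} (φ : R →+* ZMod p) (g m n : Fin k → ℕ) (f : Fin k → R[X]) : ℝ :=
  ∑ i, ((m i : ℝ) * p + n i * ((trace φ (g i) (f i) ^ 2 - trace₂ φ (g i) (f i)) / 2)) +
    ((∑ i, ((m i : ℝ) + n i) * trace φ (g i) (f i)) ^ 2 -
      ∑ i, ((m i : ℝ) + n i) * trace φ (g i) (f i) ^ 2) / 2

/-- The prime `p` is odd and the curves `y ^ 2 = f i` have good reduction at `ker φ`: the images of
the polynomials `f i` are squarefree of degree `2 * g i + 1` or `2 * g i + 2`. -/
def Good {k p : ℕ} (φ : R →+* ZMod p) (g : Fin k → ℕ) (f : Fin k → R[X]) : Prop :=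
  p ≠ 2 ∧ ∀ i, Squarefree ((f i).map φ) ∧ 2 * g i + 1 ≤ ((f i).map φ).natDegree

open Classical in
/-- The average of the Tauberian Tate conjecture over the primes of degree one and of good
reduction up to `T`, with weights `w p φ`. The primes of degree one over `p` are the kernels of the
homomorphisms `φ` to the field with `p` elements. -/
noncomputable def average {k : ℕ} (w : ∀ p : ℕ, (R →+* ZMod p) → ℝ) (T : ℕ)
    (g m n : Fin k → ℕ) (f : Fin k → R[X]) : ℝ :=
  (∑ p ∈ (Finset.Icc 1 T).filter Nat.Prime, ∑ᶠ φ : R →+* ZMod p,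
    if Good φ g f then w p φ * (bp φ g m n f * Real.log p / p) else 0) / T

/-- The average of the weights: the sum of `w p φ * log p` over the primes of degree one up to `T`,
divided by `T`. -/
noncomputable def primeAverage (w : ∀ p : ℕ, (R →+* ZMod p) → ℝ) (T : ℕ) : ℝ :=
  (∑ p ∈ (Finset.Icc 1 T).filter Nat.Prime, ∑ᶠ φ : R →+* ZMod p, w p φ * Real.log p) / T

end Pool.Agent.Helper28.TC.N
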