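import Pool.Agent.Helper28.TC.NDefs
import Pool.Agent.Helper28.TC.Bas

set_option autoImplicit false

namespace Pool.Agent.Helper28.TC.N

open Polynomial Finset
open Pool.Agent.Helper28.TC (LP blk pl qc SF ZF WF cc ringCharK qc_card_sqrts sum_optionK BA Bs XB
  rB rB_abs GG sum_GG_sq abs_sum_GG sum_XB sum_XB_sq NA NA_eq NA_nonneg cardK Fam C1)

section Homs

variable {R : Type} [CommRing R] {d : ℕ} (b : Module.Basis (Fin d) ℤ R) {p : ℕ} [Fact p.Prime]

/-- The values of a homomorphism on the basis determine it. -/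
lemma hom_apply (φ : R →+* ZMod p) (x : R) :
    φ x = ∑ i, ((b.repr x i : ℤ) : ZMod p) * φ (b i) := by
  conv_lhs => rw [← b.sum_repr x]
  rw [map_sum]
  refine Finset.sum_congr rfl fun i _ => ?_
  rw [zsmul_eq_mul, map_mul, map_intCast]

lemma hom_inj : Function.Injective fun φ : R →+* ZMod p => fun i => φ (b i) := by
  intro φ φ' h
  ext x
  rw [hom_apply b, hom_apply b]
  refine Finset.sum_congr rfl fun i _ => ?_
  have h1 : φ (b i) = φ' (b i) := congrFun h i
  rw [h1]

include b in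
lemma hom_finite : Finite (R →+* ZMod p) := Finite.of_injective _ (hom_inj b)

lemma hom_indep : LinearIndependent (ZMod p) fun φ : R →+* ZMod p => fun i => φ (b i) := by
  have h1 : LinearIndependent (ZMod p) (fun φ : R →+* ZMod p => ((φ : R →* ZMod p) : R → ZMod p)) := by
    have h2 := linearIndependent_monoidHom R (ZMod p)
    exact h2.comp (fun φ : R →+* ZMod p => (φ : R →* ZMod p)) fun φ φ' h => by
      ext x
      exact DFunLike.congr_fun h x
  rw [linearIndependent_iff'] at h1 ⊢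
  intro S c hc
  apply h1 S c
  funext x
  rw [Finset.sum_apply]
  simp only [Pi.smul_apply, smul_eq_mul, Pi.zero_apply]
  have h3 : ∀ φ : R →+* ZMod p, c φ * ((φ : R →* ZMod p) : R → ZMod p) x =
      ∑ i, ((b.repr x i : ℤ) : ZMod p) * (c φ * φ (b i)) := by
    intro φ
    have h4 : ((φ : R →* ZMod p) : R → ZMod p) x = φ x := rfl
    rw [h4, hom_apply b φ x, Finset.mul_sum]
    exact Finset.sum_congr rfl fun i _ => by ring
  simp_rw [h3]
  rw [Finset.sum_comm]
  apply Finset.sum_eq_zero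
  intro i _
  have h5 := congrFun hc i
  rw [Finset.sum_apply] at h5
  simp only [Pi.smul_apply, smul_eq_mul, Pi.zero_apply] at h5
  rw [← Finset.mul_sum, h5, mul_zero]

include b in
lemma card_hom_le [Fintype (R →+* ZMod p)] : Fintype.card (R →+* ZMod p) ≤ d := by
  have h1 := (hom_indep (p := p) b).fintype_card_le_finrank
  rwa [Module.finrank_fin_fun] at h1

lemma exists_ne_zero (φ : R →+* ZMod p) : ∃ i, φ (b i) ≠ 0 := by
  by_contra hcon
  push Not at hcon
  have h1 := hom_apply b φ 1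
  simp only [hcon, mul_zero, Finset.sum_const_zero, map_one] at h1
  exact one_ne_zero h1

end Homs

section Lin

variable {J : Type} [Fintype J] {d p : ℕ} [Fact p.Prime] (β : Fin d → ZMod p)

/-- The reduction of the coordinates. -/
def redc : (J × Fin d → ZMod p) →+ (J → ZMod p) where
  toFun u := fun j => ∑ i, u (j, i) * β i
  map_zero' := by
    funext j
    simp
  map_add' u v := by
    funext j
    simp [add_mul, Finset.sum_add_distrib]

lemma redc_apply (u : J × Fin d → ZMod p) (j : J) : redc β u j = ∑ i, u (j, i) * β i := rfl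

variable {β}

lemma redc_surj {i₀ : Fin d} (h : β i₀ ≠ 0) :
    Function.Surjective (redc β : (J × Fin d → ZMod p) →+ (J → ZMod p)) := by
  intro v
  refine ⟨fun x => if x.2 = i₀ then v x.1 / β i₀ else 0, ?_⟩
  funext j
  rw [redc_apply]
  simp only [ite_mul, zero_mul, Finset.sum_ite_eq', Finset.mem_univ, if_true]
  field_simp

lemma sum_redc [DecidableEq J] {i₀ : Fin d} (h : β i₀ ≠ 0) (G : (J → ZMod p) → ℝ) :
    ∑ u : J × Fin d → ZMod p, G (redc β u) =
      (p : ℝ) ^ Fintype.card (J × Fin d) / (p : ℝ) ^ Fintype.card J * ∑ v, G v := by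
  have h1 := Pool.Agent.Helper28.TC.sum_comp (redc β : (J × Fin d → ZMod p) →+ (J → ZMod p))
    (redc_surj h) G
  rw [h1, Fintype.card_fun, Fintype.card_fun, ZMod.card]
  push_cast
  ring

end Lin

section Points

variable {R : Type} [CommRing R] {p : ℕ} [Fact p.Prime] {k d : ℕ} {g : Fin k → ℕ}
  (b : Fin d → R) (φ : R →+* ZMod p)

/-- The coefficients modulo the prime. -/
def rd (a : Idx g × Fin d → ℤ) : Idx g → ZMod p := fun x => φ (∑ l, (a (x, l) : R) * b l)

lemma rd_eq (a : Idx g × Fin d → ℤ) :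
    rd b φ a = redc (fun l => φ (b l)) fun x => ((a x : ℤ) : ZMod p) := by
  funext x
  unfold rd
  rw [redc_apply, map_sum]
  exact Finset.sum_congr rfl fun l _ => by rw [map_mul, map_intCast]

variable (K : Type) [Field K] [Algebra (ZMod p) K] [Fintype K]

lemma eval_pol (a : Idx g × Fin d → ℤ) (i : Fin k) (x : K) :
    eval₂ ((algebraMap (ZMod p) K).comp φ) x (pol b a i) = LP K i (some x) (rd b φ a) := by
  unfold pol LP
  rw [eval₂_finset_sum]
  change _ = ∑ j, algebraMap (ZMod p) K (rd b φ a ⟨i, j⟩) * x ^ (j : ℕ)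
  refine Finset.sum_congr rfl fun j _ => ?_
  rw [eval₂_mul, eval₂_pow, eval₂_X, eval₂_C]
  rfl

omit [Fact p.Prime] in
lemma coeff_pol (a : Idx g × Fin d → ℤ) (i : Fin k) :
    (pol b a i).coeff (2 * g i + 2) = ∑ l, (a (⟨i, Fin.last (2 * g i + 2)⟩, l) : R) * b l := by
  unfold pol
  rw [finsetSum_coeff, Finset.sum_eq_single (Fin.last (2 * g i + 2))]
  · rw [coeff_C_mul, coeff_X_pow, if_pos (by simp), mul_one]
  · intro j _ hj
    rw [coeff_C_mul, coeff_X_pow, if_neg, mul_zero]
    intro h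
    exact hj (Fin.ext h.symm)
  · intro h; exact absurd (Finset.mem_univ _) h

lemma points_eq (hp : p ≠ 2) (a : Idx g × Fin d → ℤ) (i : Fin k) :
    points ((algebraMap (ZMod p) K).comp φ) (g i) (pol b a i) = (Fintype.card K : ℝ) + 1 +
      ∑ P : Option K, qc K (LP K i P (rd b φ a)) := by
  have hK := ringCharK (p := p) K hp
  unfold points
  rw [Nat.card_congr (Equiv.subtypeProdEquivSigmaSubtype
    (fun (x y : K) => y ^ 2 = eval₂ ((algebraMap (ZMod p) K).comp φ) x (pol b a i))),
    Nat.card_sigma]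
  push_cast
  rw [Finset.sum_congr rfl fun x _ => qc_card_sqrts hK
      (eval₂ ((algebraMap (ZMod p) K).comp φ) x (pol b a i)),
    qc_card_sqrts hK, Fintype.sum_option, Finset.sum_add_distrib, Finset.sum_const,
    Finset.card_univ, nsmul_eq_mul, mul_one, coeff_pol]
  simp_rw [eval_pol b φ K a i]
  have : (algebraMap (ZMod p) K).comp φ (∑ l, (a (⟨i, Fin.last (2 * g i + 2)⟩, l) : R) * b l) =
      LP K i none (rd b φ a) := rfl
  rw [this]
  ring

lemma map_pol (a : Idx g × Fin d → ℤ) (i : Fin k) :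
    (pol b a i).map φ = pl (blk i (rd b φ a)) := by
  unfold pol pl
  rw [Polynomial.map_sum]
  refine Finset.sum_congr rfl fun j _ => ?_
  rw [Polynomial.map_mul, Polynomial.map_C, Polynomial.map_pow, Polynomial.map_X]
  rfl

lemma good_iff (a : Idx g × Fin d → ℤ) :
    Good φ g (pol b a) ↔ p ≠ 2 ∧ rd b φ a ∉ BA p g := by
  classical
  unfold Good BA
  rw [Finset.mem_filter, not_and_not_right]
  simp_rw [map_pol]
  constructor
  · rintro ⟨h1, h2⟩; exact ⟨h1, fun _ => h2⟩
  · rintro ⟨h1, h2⟩; exact ⟨h1, h2 (Finset.mem_univ _)⟩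

lemma trace_eq (hp : p ≠ 2) (a : Idx g × Fin d → ℤ) (i : Fin k) :
    trace φ (g i) (pol b a i) = - SF i (rd b φ a) := by
  unfold trace
  have h := points_eq b φ (ZMod p) hp a i
  have h0 : (algebraMap (ZMod p) (ZMod p)).comp φ = φ := by
    ext x
    rfl
  rw [ZMod.card, h0] at h
  rw [h]
  unfold SF cc
  ring

lemma trace₂_eq [Fintype (GaloisField p 2)] (hp : p ≠ 2) (a : Idx g × Fin d → ℤ) (i : Fin k) :
    trace₂ φ (g i) (pol b a i) =
      - (ZF i (rd b φ a) + WF (GaloisField p 2) i (rd b φ a)) := by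
  unfold trace₂
  rw [dif_pos (Fact.out : p.Prime)]
  have hK : Fintype.card (GaloisField p 2) = p ^ 2 := by
    rw [Fintype.card_eq_nat_card]
    exact GaloisField.card p 2 (by norm_num)
  have h := points_eq b φ (GaloisField p 2) hp a i
  rw [sum_optionK (GaloisField p 2) hp hK, hK] at h
  push_cast at h
  rw [h]
  ring

end Points

section XI

variable {R : Type} [CommRing R] {k d : ℕ} {g : Fin k → ℕ} (b : Fin d → R)

/-- Twice the basic quantities divided by `p`. -/
noncomputable def XI {p : ℕ} (φ : R →+* ZMod p) (a : Idx g × Fin d → ℤ) : Bs k → ℝ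
  | none => 2
  | some (Sum.inl i) => 2 * trace₂ φ (g i) (pol b a i) / p
  | some (Sum.inr (i, j)) => 2 * (trace φ (g i) (pol b a i) * trace φ (g j) (pol b a j)) / p

variable {p : ℕ} [Fact p.Prime] (φ : R →+* ZMod p)

lemma XI_eq [Fintype (GaloisField p 2)] (hp : p ≠ 2) (a : Idx g × Fin d → ℤ) (β : Bs k) :
    XI b φ a β = XB (GaloisField p 2) β (rd b φ a) := by
  rcases β with _ | i | ⟨i, j⟩
  · rfl
  · change 2 * trace₂ φ (g i) (pol b a i) / (p : ℝ) =
      - (2 * (ZF i (rd b φ a) + WF (GaloisField p 2) i (rd b φ a)) / p)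
    rw [trace₂_eq b φ hp]
    ring
  · change 2 * (trace φ (g i) (pol b a i) * trace φ (g j) (pol b a j)) / (p : ℝ) =
      2 * (SF i (rd b φ a) * SF j (rd b φ a)) / p
    rw [trace_eq b φ hp, trace_eq b φ hp]
    ring

end XI

section Family

variable {R : Type} [CommRing R] {k d : ℕ} {g : Fin k → ℕ}

open Classical in
/-- The term of a prime of degree one. -/
noncomputable def t1 (b : Fin d → R) (β : Bs k) {p : ℕ} (φ : R →+* ZMod p)
    (a : Idx g × Fin d → ℤ) : ℝ :=
  if Good φ g (pol b a) then XI b φ a β - rB β else - rB β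

/-- The term of the prime `p`. -/
noncomputable def tt (b : Fin d → R) (w : ∀ p : ℕ, (R →+* ZMod p) → ℝ) (β : Bs k) (p : ℕ)
    (a : Idx g × Fin d → ℤ) : ℝ :=
  ∑ᶠ φ : R →+* ZMod p, w p φ * t1 b β φ a

/-- The term of a homomorphism, as a function of the coefficients modulo the prime. -/
noncomputable def f1 (β : Bs k) (p : ℕ) [Fact p.Prime] (v : Idx g → ZMod p) : ℝ :=
  GG (@XB _ g p _ (GaloisField p 2) _ _ (Fintype.ofFinite _) β) (rB β) v

lemma t1_eq (b : Fin d → R) (β : Bs k) {p : ℕ} [Fact p.Prime] (φ : R →+* ZMod p)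
    (a : Idx g × Fin d → ℤ) : t1 b β φ a = f1 β p (rd b φ a) := by
  classical
  let _ : Fintype (GaloisField p 2) := Fintype.ofFinite _
  unfold t1 f1 GG
  by_cases h : Good φ g (pol b a)
  · have h1 := (good_iff b φ a).1 h
    rw [if_pos h, if_pos h1, XI_eq b φ h1.1]
  · rw [if_neg h, if_neg fun h3 => h ((good_iff b φ a).2 h3)]

/-- The term of the prime `p` as a function of the coordinates modulo `p`. -/
noncomputable def ffN (b : Fin d → R) (w : ∀ p : ℕ, (R →+* ZMod p) → ℝ) (β : Bs k) (p : ℕ)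
    (u : Idx g × Fin d → ZMod p) : ℝ :=
  if h : p.Prime then
    haveI : Fact p.Prime := ⟨h⟩
    ∑ᶠ φ : R →+* ZMod p, w p φ * f1 β p (redc (fun l => φ (b l)) u)
  else 0

/-- The family. -/
noncomputable def famN (b : Module.Basis (Fin d) ℤ R) {w : ∀ p : ℕ, (R →+* ZMod p) → ℝ}
    (hw : ∀ p φ, |w p φ| ≤ 1) (hg : ∀ i, 1 ≤ g i) (β : Bs k) :
    Fam (Idx g × Fin d) (d * C1 g) ((d : ℝ) ^ 2 * 104) where
  tm := tt b w β
  ff := ffN b w β
  hC := by unfold C1; positivity
  hD := by positivity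
  tm_eq := by
    intro p _ a
    unfold tt ffN
    rw [dif_pos (Fact.out : p.Prime)]
    refine finsum_congr fun φ => ?_
    rw [t1_eq, rd_eq]
  mean := by
    intro p _
    have hfin : Finite (R →+* ZMod p) := hom_finite b
    have := Fintype.ofFinite (R →+* ZMod p)
    have hp0 : (0 : ℝ) < p := by exact_mod_cast (Fact.out : p.Prime).pos
    have hcard : (Fintype.card (R →+* ZMod p) : ℝ) ≤ d := by exact_mod_cast card_hom_le b
    have e0 : ∀ u : Idx g × Fin d → ZMod p, ffN b w β p u =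
        ∑ φ : R →+* ZMod p, w p φ * f1 β p (redc (fun l => φ (b l)) u) := by
      intro u
      unfold ffN
      rw [dif_pos (Fact.out : p.Prime), finsum_eq_sum_of_fintype]
    simp_rw [e0]
    rw [Finset.sum_comm]
    obtain ⟨Pd, hPd⟩ : ∃ Pd : ℝ, Pd = (p : ℝ) ^ Fintype.card (Idx g × Fin d) := ⟨_, rfl⟩
    obtain ⟨P1, hP1⟩ : ∃ P1 : ℝ, P1 = (p : ℝ) ^ Fintype.card (Idx g) := ⟨_, rfl⟩
    have hPd0 : 0 < Pd := by rw [hPd]; positivity
    have hP10 : 0 < P1 := by rw [hP1]; positivity
    rw [← hPd]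
    have hC1 : 0 ≤ C1 g := by unfold C1; positivity
    have h2 : ∀ φ : R →+* ZMod p, |∑ u : Idx g × Fin d → ZMod p,
        w p φ * f1 β p (redc (fun l => φ (b l)) u)| ≤ C1 g * (Pd / Real.sqrt p) := by
      intro φ
      obtain ⟨i₀, hi₀⟩ := exists_ne_zero b φ
      have h1 : |∑ v : Idx g → ZMod p, f1 β p v| ≤ C1 g * (P1 / Real.sqrt p) := by
        rw [hP1, ← NA_eq]
        refine (abs_sum_GG (by norm_num : (0 : ℝ) ≤ 48)
          (fun hp => @sum_XB_sq _ g p _ (GaloisField p 2) _ _ (Fintype.ofFinite _) hp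
            (cardK p) hg β) (by norm_num : (0 : ℝ) ≤ 2)
          (fun hp => @sum_XB _ g p _ (GaloisField p 2) _ _ (Fintype.ofFinite _) hp
            (cardK p) β)).trans ?_
        apply mul_le_mul_of_nonneg_right _ (div_nonneg NA_nonneg (Real.sqrt_nonneg _))
        unfold C1
        have := rB_abs β
        linarith
      rw [← Finset.mul_sum, sum_redc (J := Idx g) (β := fun i => φ (b i)) hi₀
        (fun v => f1 β p v), ← hPd, ← hP1, abs_mul, abs_mul,
        abs_of_nonneg (by positivity : 0 ≤ Pd / P1)]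
      calc |w p φ| * (Pd / P1 * |∑ v, f1 β p v|) ≤
          1 * (Pd / P1 * (C1 g * (P1 / Real.sqrt p))) := by
            apply mul_le_mul (hw p φ) _ (by positivity) zero_le_one
            exact mul_le_mul_of_nonneg_left h1 (by positivity)
        _ = _ := by
            have : Real.sqrt p ≠ 0 := (Real.sqrt_pos.2 hp0).ne'
            field_simp
    calc _ ≤ ∑ _φ : R →+* ZMod p, C1 g * (Pd / Real.sqrt p) :=
          (Finset.abs_sum_le_sum_abs _ _).trans (Finset.sum_le_sum fun φ _ => h2 φ)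
      _ = Fintype.card (R →+* ZMod p) * (C1 g * (Pd / Real.sqrt p)) := by
          rw [Finset.sum_const, Finset.card_univ, nsmul_eq_mul]
      _ ≤ d * (C1 g * (Pd / Real.sqrt p)) := mul_le_mul_of_nonneg_right hcard (by positivity)
      _ = _ := by ring
  second := by
    intro p _
    have hfin : Finite (R →+* ZMod p) := hom_finite b
    have := Fintype.ofFinite (R →+* ZMod p)
    have hp0 : (0 : ℝ) < p := by exact_mod_cast (Fact.out : p.Prime).pos
    have hcard : (Fintype.card (R →+* ZMod p) : ℝ) ≤ d := by exact_mod_cast card_hom_le b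
    have e0 : ∀ u : Idx g × Fin d → ZMod p, ffN b w β p u =
        ∑ φ : R →+* ZMod p, w p φ * f1 β p (redc (fun l => φ (b l)) u) := by
      intro u
      unfold ffN
      rw [dif_pos (Fact.out : p.Prime), finsum_eq_sum_of_fintype]
    simp_rw [e0]
    obtain ⟨Pd, hPd⟩ : ∃ Pd : ℝ, Pd = (p : ℝ) ^ Fintype.card (Idx g × Fin d) := ⟨_, rfl⟩
    obtain ⟨P1, hP1⟩ : ∃ P1 : ℝ, P1 = (p : ℝ) ^ Fintype.card (Idx g) := ⟨_, rfl⟩
    have hPd0 : 0 < Pd := by rw [hPd]; positivity
    have hP10 : 0 < P1 := by rw [hP1]; positivity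
    rw [← hPd]
    have h1 : ∀ u : Idx g × Fin d → ZMod p,
        (∑ φ : R →+* ZMod p, w p φ * f1 β p (redc (fun l => φ (b l)) u)) ^ 2 ≤
        d * ∑ φ : R →+* ZMod p, f1 β p (redc (fun l => φ (b l)) u) ^ 2 := by
      intro u
      refine (sq_sum_le_card_mul_sum_sq).trans ?_
      rw [Finset.card_univ]
      apply mul_le_mul hcard _ (Finset.sum_nonneg fun _ _ => sq_nonneg _) (Nat.cast_nonneg _)
      refine Finset.sum_le_sum fun φ _ => ?_
      rw [mul_pow]
      have h2 : w p φ ^ 2 ≤ 1 := by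
        rw [← sq_abs]
        exact pow_le_one₀ (abs_nonneg _) (hw p φ)
      nlinarith [sq_nonneg (f1 β p (redc (fun l => φ (b l)) u))]
    refine (Finset.sum_le_sum fun u _ => h1 u).trans ?_
    rw [← Finset.mul_sum, Finset.sum_comm]
    have h2 : ∀ φ : R →+* ZMod p, ∑ u : Idx g × Fin d → ZMod p,
        f1 β p (redc (fun l => φ (b l)) u) ^ 2 ≤ 104 * Pd := by
      intro φ
      obtain ⟨i₀, hi₀⟩ := exists_ne_zero b φ
      rw [sum_redc (J := Idx g) (β := fun i => φ (b i)) hi₀ (fun v => f1 β p v ^ 2), ← hPd, ← hP1]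
      have h3 : ∑ v : Idx g → ZMod p, f1 β p v ^ 2 ≤ 104 * P1 := by
        rw [hP1, ← NA_eq, mul_comm]
        refine (sum_GG_sq (by norm_num : (0 : ℝ) ≤ 48)
          (fun hp => @sum_XB_sq _ g p _ (GaloisField p 2) _ _ (Fintype.ofFinite _) hp
            (cardK p) hg β)).trans ?_
        apply mul_le_mul_of_nonneg_left _ NA_nonneg
        have h1 := rB_abs β
        have h2 : rB β ^ 2 ≤ 4 := by
          rw [← sq_abs]
          nlinarith [abs_nonneg (rB β)]
        linarith
      calc Pd / P1 * _ ≤ Pd / P1 * (104 * P1) := mul_le_mul_of_nonneg_left h3 (by positivity)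
        _ = 104 * Pd := by field_simp
    calc (d : ℝ) * _ ≤ d * ∑ _φ : R →+* ZMod p, 104 * Pd :=
          mul_le_mul_of_nonneg_left (Finset.sum_le_sum fun φ _ => h2 φ) (Nat.cast_nonneg _)
      _ = d * (Fintype.card (R →+* ZMod p) * (104 * Pd)) := by
          rw [Finset.sum_const, Finset.card_univ, nsmul_eq_mul]
      _ ≤ d * (d * (104 * Pd)) := by
          apply mul_le_mul_of_nonneg_left _ (Nat.cast_nonneg _)
          exact mul_le_mul_of_nonneg_right hcard (by positivity)
      _ = _ := by ring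

end Family

end Pool.Agent.Helper28.TC.N
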